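import Pool.Agent.H79.IZ.KOrd
import Pool.Agent.H40.IS.KSm

/-!
# Sequences: from `Sq (KO κ) _` to the sequences of part F
-/

universe u

namespace H79.IZ
open Cardinal Ordinal Set
open Pool.Agent.H40.IS (So Nd Lt In Pr Rk mk_len mk_val res_len res_val)

variable {κ : Cardinal.{u}}

open Classical in
/-- a sequence of elements of `KO κ` as a sequence of ordinals -/
noncomputable def toSo (s : Sq (KO κ) (KO κ)) : So.{u} :=
  Pool.Agent.H40.IS.mk s.1.1 fun i => if h : i < s.1.1 then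
    (s.2 ⟨⟨i, h.trans s.1.2⟩, h⟩).1 else 0

open Classical in
/-- a sequence of pairs of elements of `KO κ` as a sequence of pairs of ordinals -/
noncomputable def toNd (x : Sq (KO κ) (KO κ × KO κ)) : Nd.{u} :=
  Pool.Agent.H40.IS.mk x.1.1 fun i => if h : i < x.1.1 then
    ((x.2 ⟨⟨i, h.trans x.1.2⟩, h⟩).1.1, (x.2 ⟨⟨i, h.trans x.1.2⟩, h⟩).2.1) else (0, 0)

theorem toSo_len (s : Sq (KO κ) (KO κ)) : (toSo s).len = s.1.1 := mk_len _ _

theorem toNd_len (x : Sq (KO κ) (KO κ × KO κ)) : (toNd x).len = x.1.1 := mk_len _ _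

theorem toSo_val (s : Sq (KO κ) (KO κ)) {i : Ordinal.{u}} (h : i < s.1.1) :
    (toSo s).val i = (s.2 ⟨⟨i, h.trans s.1.2⟩, h⟩).1 := by
  rw [toSo, mk_val h, dif_pos h]

theorem toNd_val (x : Sq (KO κ) (KO κ × KO κ)) {i : Ordinal.{u}} (h : i < x.1.1) :
    (toNd x).val i =
      ((x.2 ⟨⟨i, h.trans x.1.2⟩, h⟩).1.1, (x.2 ⟨⟨i, h.trans x.1.2⟩, h⟩).2.1) := by
  rw [toNd, mk_val h, dif_pos h]

theorem toSo_surj {x : So.{u}} (hx : Lt κ.ord x) : ∃ s : Sq (KO κ) (KO κ), toSo s = x := by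
  obtain ⟨γ, hγ, h1, h2⟩ := hx
  refine ⟨⟨⟨x.len, h1.trans hγ⟩, fun i => ⟨x.val i.1.1, (h2 _).trans hγ⟩⟩, ?_⟩
  refine Pool.Agent.H40.IS.Sq.ext' (toSo_len _) fun i hi => ?_
  rw [toSo_len] at hi
  rw [toSo_val _ hi]

theorem Sq.ext2 {X : Type (u + 1)} {s t : Sq (KO κ) X} (h : s.1 = t.1)
    (h2 : ∀ i (hi : i < s.1) (hi' : i < t.1), s.2 ⟨i, hi⟩ = t.2 ⟨i, hi'⟩) : s = t := by
  obtain ⟨a, f⟩ := s
  obtain ⟨b, g⟩ := t
  obtain rfl : a = b := h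
  congr
  funext i
  exact h2 i.1 i.2 i.2

theorem toSo_inj {s t : Sq (KO κ) (KO κ)} (h : toSo s = toSo t) : s = t := by
  have hl : s.1.1 = t.1.1 := by rw [← toSo_len, ← toSo_len, h]
  refine Sq.ext2 (Subtype.ext hl) fun i hi hi' => ?_
  have h1 := toSo_val s (i := i.1) hi
  have h2 := toSo_val t (i := i.1) hi'
  rw [h, h2] at h1
  exact (Subtype.ext h1).symm

theorem toSo_le {s t : Sq (KO κ) (KO κ)} (hl : s.1 ≤ t.1) :
    Sq.Le s t ↔ (toSo t).res (toSo s).len = toSo s := by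
  constructor
  · rintro ⟨-, h2⟩
    refine Pool.Agent.H40.IS.Sq.ext' ?_ fun i hi => ?_
    · rw [res_len, toSo_len, toSo_len]
      exact min_eq_right hl
    · rw [res_len, toSo_len, toSo_len] at hi
      have h3 : i < s.1.1 := hi.trans_le (min_le_right _ _)
      have h4 : i < t.1.1 := h3.trans_le hl
      rw [res_val (by rw [toSo_len]; exact h3), toSo_val _ h4, toSo_val _ h3]
      exact congrArg Subtype.val (h2 ⟨i, h3.trans s.1.2⟩ h3 h4).symm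
  · intro h
    refine ⟨hl, fun i hi hi' => ?_⟩
    have h1 := toSo_val s (i := i.1) hi
    have h2 := toSo_val t (i := i.1) hi'
    have h3 : (toSo t).val i.1 = (toSo s).val i.1 := by
      have h4 := res_val (x := toSo t) (a := (toSo s).len) (i := i.1) (by rw [toSo_len]; exact hi)
      rw [h] at h4
      exact h4.symm
    rw [h1, h2] at h3
    exact (Subtype.ext h3).symm

theorem toNd_le {s t : Sq (KO κ) (KO κ × KO κ)} (h : Sq.Le s t) :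
    (toNd s).len ≤ (toNd t).len ∧ (toNd t).res (toNd s).len = toNd s := by
  obtain ⟨hl, h2⟩ := h
  refine ⟨by rw [toNd_len, toNd_len]; exact hl, ?_⟩
  refine Pool.Agent.H40.IS.Sq.ext' ?_ fun i hi => ?_
  · rw [res_len, toNd_len, toNd_len]
    exact min_eq_right hl
  · rw [res_len, toNd_len, toNd_len] at hi
    have h3 : i < s.1.1 := hi.trans_le (min_le_right _ _)
    have h4 : i < t.1.1 := h3.trans_le hl
    rw [res_val (by rw [toNd_len]; exact h3), toNd_val _ h4, toNd_val _ h3]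
    rw [h2 ⟨i, h3.trans s.1.2⟩ h3 h4]

theorem toNd_lt (hκ : κ.IsInaccessible) (x : Sq (KO κ) (KO κ × KO κ)) : Lt κ.ord (toNd x) := by
  refine Pool.Agent.H40.IS.Lt_kappa hκ (by rw [toNd_len]; exact x.1.2) fun i => ?_
  by_cases hi : i < x.1.1
  · rw [toNd_val _ hi]
    exact max_lt (x.2 ⟨⟨i, hi.trans x.1.2⟩, hi⟩).1.2 (x.2 ⟨⟨i, hi.trans x.1.2⟩, hi⟩).2.2
  · rw [(toNd x).junk i (by rw [toNd_len]; exact not_lt.1 hi), Rk.rk_z]
    exact zero_le.trans_lt x.1.2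

theorem toSo_lt (hκ : κ.IsInaccessible) (x : Sq (KO κ) (KO κ)) : Lt κ.ord (toSo x) := by
  refine Pool.Agent.H40.IS.Lt_kappa hκ (by rw [toSo_len]; exact x.1.2) fun i => ?_
  by_cases hi : i < x.1.1
  · rw [toSo_val _ hi]
    exact (x.2 ⟨⟨i, hi.trans x.1.2⟩, hi⟩).2
  · rw [(toSo x).junk i (by rw [toSo_len]; exact not_lt.1 hi), Rk.rk_z]
    exact zero_le.trans_lt x.1.2

theorem pr_toNd {x : Sq (KO κ) (KO κ × KO κ)} {v w : Ordinal.{u}} :
    Pr (toNd x) v w ↔ ∃ (hv : v < κ.ord) (hw : w < κ.ord), Gr x ⟨v, hv⟩ ⟨w, hw⟩ := by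
  constructor
  · rintro ⟨i, hi, h⟩
    rw [toNd_len] at hi
    rw [toNd_val _ hi] at h
    rcases h with ⟨rfl, rfl⟩ | ⟨rfl, rfl⟩
    · exact ⟨hi.trans x.1.2, (x.2 ⟨⟨v, hi.trans x.1.2⟩, hi⟩).1.2, Or.inl ⟨hi, rfl⟩⟩
    · exact ⟨(x.2 ⟨⟨w, hi.trans x.1.2⟩, hi⟩).2.2, hi.trans x.1.2, Or.inr ⟨hi, rfl⟩⟩
  · rintro ⟨hv, hw, ⟨h, h2⟩ | ⟨h, h2⟩⟩
    · refine ⟨v, by rw [toNd_len]; exact h, Or.inl ⟨rfl, ?_⟩⟩
      rw [toNd_val _ (show v < x.1.1 from h)]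
      exact (congrArg Subtype.val h2).symm
    · refine ⟨w, by rw [toNd_len]; exact h, Or.inr ⟨rfl, ?_⟩⟩
      rw [toNd_val _ (show w < x.1.1 from h)]
      exact (congrArg Subtype.val h2).symm

end H79.IZ
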