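import Pool.Agent.H79.IZ.At

/-!
# `RO P`-values of the notions of `At`

PROOFS: `down` is clear by transitivity of `≤`; `reg` by `forces_of_dense` applied to every clause
(if densely many `r ≤ p` satisfy `RefAt r A` then `p ∈ A n i i` by `forces_of_dense`; if `q ≤ p` and
`q ∈ A n i j` then densely many `r ≤ q` are below some good `q'`, so `r ∈ A n j i`, ...).
-/

universe u

namespace H79.IZ
open H85.Forcing RO Cardinal Set

variable {P : Type u} [Preorder P] {K : Type u} [LinearOrder K]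

theorem RefAt.down {p q : P} {A : ℕ → K → K → RO P} (h : RefAt p A) (hq : q ≤ p) : RefAt q A := by
  exact ⟨fun n i => (h.refl n i).down hq, fun n i j r hr => h.symm n i j r (hr.trans hq),
    fun n i j k r hr => h.trans n i j k r (hr.trans hq),
    fun n i j r hr => h.mono n i j r (hr.trans hq)⟩

theorem RefAt.reg {p : P} {A : ℕ → K → K → RO P} (h : ∀ q ≤ p, ∃ r ≤ q, RefAt r A) :
    RefAt p A := by
  refine ⟨fun n i => ?_, fun n i j q hq h1 => ?_, fun n i j k q hq h1 h2 => ?_,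
    fun n i j q hq h1 => ?_⟩
  · refine forces_of_dense fun q hq => ?_
    obtain ⟨r, hr, hA⟩ := h q hq
    exact ⟨r, hr, hA.refl n i⟩
  · refine forces_of_dense fun s hs => ?_
    obtain ⟨r, hr, hA⟩ := h s (hs.trans hq)
    exact ⟨r, hr, hA.symm n i j r le_rfl (h1.down (hr.trans hs))⟩
  · refine forces_of_dense fun s hs => ?_
    obtain ⟨r, hr, hA⟩ := h s (hs.trans hq)
    exact ⟨r, hr, hA.trans n i j k r le_rfl (h1.down (hr.trans hs)) (h2.down (hr.trans hs))⟩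
  · refine forces_of_dense fun s hs => ?_
    obtain ⟨r, hr, hA⟩ := h s (hs.trans hq)
    exact ⟨r, hr, hA.mono n i j r le_rfl (h1.down (hr.trans hs))⟩

theorem InfAt.down {p q : P} {A : ℕ → K → K → RO P} (h : InfAt p A) (hq : q ≤ p) : InfAt q A := by
  exact ⟨fun s r hr => h.zero s r (hr.trans hq), fun n i s r hr => h.succ n i s r (hr.trans hq)⟩

theorem InfAt.reg {p : P} {A : ℕ → K → K → RO P} (h : ∀ q ≤ p, ∃ r ≤ q, InfAt r A) :
    InfAt p A := by
  refine ⟨fun s q hq => ?_, fun n i s q hq => ?_⟩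
  · obtain ⟨r, hr, hA⟩ := h q hq
    obtain ⟨t, ht, a, ha⟩ := hA.zero s r le_rfl
    exact ⟨t, ht.trans hr, a, ha⟩
  · obtain ⟨r, hr, hA⟩ := h q hq
    obtain ⟨t, ht, a, ha⟩ := hA.succ n i s r le_rfl
    exact ⟨t, ht.trans hr, a, ha⟩

theorem IsoAt.down {p q : P} {A A' : ℕ → K → K → RO P} {H : K → K → RO P} (h : IsoAt p A A' H)
    (hq : q ≤ p) : IsoAt q A A' H := by
  exact ⟨fun i r hr => h.total i r (hr.trans hq), fun j r hr => h.onto j r (hr.trans hq),
    fun i j i' j' r hr => h.inj i j i' j' r (hr.trans hq),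
    fun n i j i' j' r hr => h.iso n i j i' j' r (hr.trans hq)⟩

theorem TreeAt.down {p q : P} {A A' : ℕ → K → K → RO P} {x : Sq K (K × K)} (h : TreeAt p A A' x)
    (hq : q ≤ p) : TreeAt q A A' x := by
  exact ⟨h.inj, fun n i j i' j' h1 h2 r hr => h.iso n i j i' j' h1 h2 r (hr.trans hq)⟩

theorem TreeAt.reg {p : P} {A A' : ℕ → K → K → RO P} {x : Sq K (K × K)}
    (h : ∀ q ≤ p, ∃ r ≤ q, TreeAt r A A' x) : TreeAt p A A' x := by
  refine ⟨fun i j i' j' h1 h2 => ?_, fun n i j i' j' h1 h2 q hq => ⟨fun h3 => ?_, fun h3 => ?_⟩⟩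
  · obtain ⟨r, _, hT⟩ := h p le_rfl
    exact hT.inj i j i' j' h1 h2
  · refine forces_of_dense fun s hs => ?_
    obtain ⟨r, hr, hT⟩ := h s (hs.trans hq)
    exact ⟨r, hr, (hT.iso n i j i' j' h1 h2 r le_rfl).1 (h3.down (hr.trans hs))⟩
  · refine forces_of_dense fun s hs => ?_
    obtain ⟨r, hr, hT⟩ := h s (hs.trans hq)
    exact ⟨r, hr, (hT.iso n i j i' j' h1 h2 r le_rfl).2 (h3.down (hr.trans hs))⟩

theorem EmbAt.down {p q : P} {A A' : ℕ → K → K → RO P} {Ts : Sq K K → RO P}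
    {F : Sq K (K × K) → Sq K K → RO P} (h : EmbAt p A A' Ts F) (hq : q ≤ p) :
    EmbAt q A A' Ts F := by
  exact ⟨fun x r hr => h.total x r (hr.trans hq), fun x s r hr => h.mem x s r (hr.trans hq),
    fun x y s t hxy r hr => h.mono x y s t hxy r (hr.trans hq)⟩

/-- value of: `A` is a model of `T_ω` -/
def ModF (A : ℕ → K → K → RO P) : RO P where
  S p := RefAt p A ∧ InfAt p A
  down _ _ hq h := ⟨h.1.down hq, h.2.down hq⟩
  reg _ h := ⟨RefAt.reg fun q hq => by obtain ⟨r, hr, h⟩ := h q hq; exact ⟨r, hr, h.1⟩,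
    InfAt.reg fun q hq => by obtain ⟨r, hr, h⟩ := h q hq; exact ⟨r, hr, h.2⟩⟩

theorem mem_ModF {A : ℕ → K → K → RO P} {p : P} : p ∈ ModF A ↔ RefAt p A ∧ InfAt p A := Iff.rfl

/-- value of: `x ∈ T(A, A')` -/
def TreeF (A A' : ℕ → K → K → RO P) (x : Sq K (K × K)) : RO P where
  S p := TreeAt p A A' x
  down _ _ hq h := h.down hq
  reg _ h := TreeAt.reg h

theorem mem_TreeF {A A' : ℕ → K → K → RO P} {x : Sq K (K × K)} {p : P} :
    p ∈ TreeF A A' x ↔ TreeAt p A A' x := Iff.rfl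

/-- value of `∃ H, φ(H)` -/
def exF {ι : Sort*} (φ : P → ι → Prop) : RO P where
  S p := ∀ q ≤ p, ∃ r ≤ q, ∃ H, φ r H
  down _ _ hq h r hr := h r (hr.trans hq)
  reg p h q hq := by
    obtain ⟨r, hr, h⟩ := h q hq
    obtain ⟨s, hs, h⟩ := h r le_rfl
    exact ⟨s, hs.trans hr, h⟩

/-- value of: `A` and `A'` are isomorphic -/
def IsoF (A A' : ℕ → K → K → RO P) : RO P := exF fun r (H : K → K → RO P) => IsoAt r A A' H

theorem mem_IsoF {A A' : ℕ → K → K → RO P} {p : P} :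
    p ∈ IsoF A A' ↔ ∀ q ≤ p, ∃ r ≤ q, ∃ H : K → K → RO P, IsoAt r A A' H := Iff.rfl

/-- value of: `T(A, A')` embeds in `Ts` -/
def EmbF (Ts : Sq K K → RO P) (A A' : ℕ → K → K → RO P) : RO P :=
  exF fun r (F : Sq K (K × K) → Sq K K → RO P) => EmbAt r A A' Ts F

theorem mem_EmbF {Ts : Sq K K → RO P} {A A' : ℕ → K → K → RO P} {p : P} :
    p ∈ EmbF Ts A A' ↔ ∀ q ≤ p, ∃ r ≤ q, ∃ F : Sq K (K × K) → Sq K K → RO P, EmbAt r A A' Ts F :=
  Iff.rfl

end H79.IZ
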