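import Pool.Agent.H79.IZ.Adapt1
import Pool.Agent.H79.IZ.RegV
import Pool.Agent.H40.IS.Main

/-!
# From the final theorem of part F to `FH`
-/

universe u

namespace H79.IZ
open Cardinal Ordinal Set H85.Forcing RO
open Pool.Agent.H40.IS (So Nd Lt In Pr Rk Tri PT Dist Reg FnName StrName IsoName EmbName FrP Lst)

variable {κ : Cardinal.{u}}

section gen
variable {Q : Type (u + 1)} [Preorder Q]

/-- the regular element given by a regular set -/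
def rOf (S : Set Q) (h : Reg S) : RO Q where
  S p := p ∈ S
  down _ _ hq hp := h.1 hq hp
  reg p hp := h.2 p fun q hq => by
    obtain ⟨r, hr, h⟩ := hp q hq
    exact ⟨r, hr, h⟩

theorem mem_rOf {S : Set Q} {h : Reg S} {p : Q} : p ∈ rOf S h ↔ p ∈ S := Iff.rfl

theorem mem_regl {S : Set Q} (h : IsLowerSet S) {p : Q} :
    p ∈ regl (· ∈ S) ↔ ∀ q ≤ p, ∃ r ≤ q, r ∈ S := by
  rw [forces_regl]
  constructor
  · intro h1 q hq
    obtain ⟨r, hr, s, hs, hrs⟩ := h1 q hq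
    exact ⟨r, hr, h hrs hs⟩
  · intro h1 q hq
    obtain ⟨r, hr, h2⟩ := h1 q hq
    exact ⟨r, hr, r, h2, le_rfl⟩

theorem reg_toSet (a : RO Q) : Reg {p | p ∈ a} :=
  ⟨fun _ _ hq hp => Forces.down hp hq, fun _ h => forces_of_dense fun q hq => by
    obtain ⟨r, hr, h⟩ := h q hq
    exact ⟨r, hr, h⟩⟩

/-- a name of a relation on `KO κ` as a name of a relation on the ordinals -/
def ex2 (Z : KO κ → KO κ → RO Q) (x y : Ordinal.{u}) : Set Q :=
  {p | ∃ (hx : x < κ.ord) (hy : y < κ.ord), p ∈ Z ⟨x, hx⟩ ⟨y, hy⟩}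

theorem ex2_lower (Z : KO κ → KO κ → RO Q) (x y : Ordinal.{u}) : IsLowerSet (ex2 Z x y) := by
  rintro p q hq ⟨hx, hy, h⟩
  exact ⟨hx, hy, h.down hq⟩

theorem ex2_reg (Z : KO κ → KO κ → RO Q) (x y : Ordinal.{u}) : Reg (ex2 Z x y) := by
  refine ⟨ex2_lower Z x y, fun p h => ?_⟩
  obtain ⟨r, -, hx, hy, -⟩ := h p le_rfl
  refine ⟨hx, hy, forces_of_dense fun q hq => ?_⟩
  obtain ⟨r, hr, hx', hy', h⟩ := h q hq
  exact ⟨r, hr, h⟩

theorem mem_ex2 {Z : KO κ → KO κ → RO Q} {x y : KO κ} {p : Q} :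
    p ∈ ex2 Z x.1 y.1 ↔ p ∈ Z x y :=
  ⟨fun ⟨_, _, h⟩ => h, fun h => ⟨x.2, y.2, h⟩⟩

theorem strName_of {A : ℕ → KO κ → KO κ → RO Q} {p : Q} (h : RefAt p A) :
    StrName κ p (fun n => ex2 (A n)) where
  reg n x y := ex2_reg _ _ _
  dom n x y t _ ht := ⟨ht.1, ht.2.1⟩
  refl n x hx t ht := ⟨hx, hx, (h.refl n _).down ht⟩
  symm n x y t ht := fun ⟨hx, hy, h1⟩ => ⟨hy, hx, h.symm n _ _ t ht h1⟩
  trans n x y z t ht := fun ⟨hx, hy, h1⟩ ⟨_, hz, h2⟩ =>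
    ⟨hx, hz, h.trans n _ _ _ t ht h1 h2⟩
  refine' n x y t ht := fun ⟨hx, hy, h1⟩ => ⟨hx, hy, h.mono n _ _ t ht h1⟩

theorem isoAt_of {A A' : ℕ → KO κ → KO κ → RO Q} {p : Q}
    {H : Ordinal.{u} → Ordinal.{u} → Set Q}
    (h : IsoName κ p (fun n => ex2 (A n)) (fun n => ex2 (A' n)) H) :
    IsoAt p A A' fun i j => regl (· ∈ H i.1 j.1) where
  total i q hq := by
    obtain ⟨r, hr, j, hj⟩ := h.tot q hq i.1 i.2
    have hj2 := (h.dom r (hr.trans hq) _ _ hj).2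
    refine ⟨r, hr, ⟨j, hj2⟩, ?_⟩
    exact (mem_regl (h.lower _ _)).2 fun s hs => ⟨s, le_rfl, h.lower _ _ hs hj⟩
  onto j q hq := by
    obtain ⟨r, hr, i, hi⟩ := h.onto q hq j.1 j.2
    have hi2 := (h.dom r (hr.trans hq) _ _ hi).1
    refine ⟨r, hr, ⟨i, hi2⟩, ?_⟩
    exact (mem_regl (h.lower _ _)).2 fun s hs => ⟨s, le_rfl, h.lower _ _ hs hi⟩
  inj i j i' j' q hq h1 h2 := by
    obtain ⟨r, hr, h1⟩ := (mem_regl (h.lower _ _)).1 h1 q le_rfl
    obtain ⟨s, hs, h2⟩ := (mem_regl (h.lower _ _)).1 h2 r hr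
    have h1 := h.lower _ _ hs h1
    have hsp := hs.trans (hr.trans hq)
    constructor
    · rintro rfl
      exact Subtype.ext (h.fn s hsp _ _ _ h1 h2)
    · rintro rfl
      exact Subtype.ext (h.inj s hsp _ _ _ h1 h2)
  iso n i j i' j' q hq h1 h2 := by
    have key : ∀ r ≤ q, ∃ s ≤ r, (s ∈ A n i j ↔ s ∈ A' n i' j') := by
      intro r hr
      obtain ⟨s, hs, h1⟩ := (mem_regl (h.lower _ _)).1 h1 r hr
      obtain ⟨t, ht, h2⟩ := (mem_regl (h.lower _ _)).1 h2 s (hs.trans hr)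
      have h1 := h.lower _ _ ht h1
      have htp : t ≤ p := ht.trans (hs.trans (hr.trans hq))
      have h3 := h.pres t htp _ _ _ _ h1 h2 n
      exact ⟨t, ht.trans hs, mem_ex2.symm.trans (h3.trans mem_ex2)⟩
    constructor
    · intro ha
      refine forces_of_dense fun r hr => ?_
      obtain ⟨s, hs, h3⟩ := key r hr
      exact ⟨s, hs, h3.1 (ha.down (hs.trans hr))⟩
    · intro ha
      refine forces_of_dense fun r hr => ?_
      obtain ⟨s, hs, h3⟩ := key r hr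
      exact ⟨s, hs, h3.2 (ha.down (hs.trans hr))⟩

theorem dist_of (h : Dist κ Q) (ι : Type (u + 1)) (hι : #ι < #(KO κ)) (D : ι → Q → Prop)
    (h1 : ∀ i p q, q ≤ p → D i p → D i q) (h2 : ∀ i p, ∃ q ≤ p, D i q) (p : Q) :
    ∃ q ≤ p, ∀ i, D i q := by
  classical
  have hK : #(KO κ) = Cardinal.lift.{u + 1} κ := by
    have h := Cardinal.mk_Iio_ordinal κ.ord
    rw [Cardinal.card_ord] at h
    exact h
  rw [hK] at hι
  obtain ⟨c, hc⟩ := Cardinal.mem_range_lift_of_le hι.le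
  have hcκ : c < κ := by
    rw [← hc] at hι
    exact Cardinal.lift_lt.1 hι
  have hI : #(Iio c.ord) = #ι := by
    rw [Cardinal.mk_Iio_ordinal, Cardinal.card_ord, hc]
  obtain ⟨e⟩ := Cardinal.eq.1 hI
  obtain ⟨q, hq, hq2⟩ := h c.ord (Cardinal.ord_lt_ord.2 hcκ)
    (fun x => {t | ∀ hx : x < c.ord, D (e ⟨x, hx⟩) t}) (by
      intro x hx
      refine ⟨fun a b hb ha hx => h1 _ _ _ hb (ha hx), fun t => ?_⟩
      obtain ⟨t', ht', h3⟩ := h2 (e ⟨x, hx⟩) t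
      exact ⟨t', ht', fun _ => h3⟩) p
  refine ⟨q, hq, fun i => ?_⟩
  have h3 := hq2 (e.symm i).1 (e.symm i).2 (e.symm i).2
  simpa using h3

end gen

variable {D : Ordinal.{u} → Tri.{u}}

theorem treeAt_frP {A A' : ℕ → KO κ → KO κ → RO (PT κ D)} {p : PT κ D}
    {x : Sq (KO κ) (KO κ × KO κ)} (h : TreeAt p A A' x) :
    FrP (fun n => ex2 (A n)) (fun n => ex2 (A' n)) (toNd x) p := by
  constructor
  · intro v w v' w' h1 h2
    obtain ⟨hv, hw, h1⟩ := pr_toNd.1 h1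
    obtain ⟨hv', hw', h2⟩ := pr_toNd.1 h2
    have h3 := h.inj _ _ _ _ h1 h2
    simpa using h3
  · intro n v w v' w' h1 h2 q hq
    obtain ⟨hv, hw, h1⟩ := pr_toNd.1 h1
    obtain ⟨hv', hw', h2⟩ := pr_toNd.1 h2
    have h3 := h.iso n _ _ _ _ h1 h2 q hq
    constructor
    · rintro ⟨_, _, h4⟩
      exact ⟨hw, hw', h3.1 h4⟩
    · rintro ⟨_, _, h4⟩
      exact ⟨hv, hv', h3.2 h4⟩

/-- the tree `T*` -/
noncomputable def tsR (h : ∀ s, Reg (Pool.Agent.H40.IS.Ts κ D s)) (s : Sq (KO κ) (KO κ)) : RO (PT κ D) :=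
  rOf (Pool.Agent.H40.IS.Ts κ D (toSo s)) (h _)

theorem embAt_of (hκ : κ.IsInaccessible) (hT : ∀ s, Reg (Pool.Agent.H40.IS.Ts κ D s))
    {A A' : ℕ → KO κ → KO κ → RO (PT κ D)} {p : PT κ D} {Pi : Nd.{u} → So.{u} → Set (PT κ D)}
    (h : EmbName p (fun n => ex2 (A n)) (fun n => ex2 (A' n)) Pi) :
    EmbAt p A A' (tsR hT) fun x s => regl (· ∈ Pi (toNd x) (toSo s)) where
  total x q hq hx := by
    obtain ⟨r, hr, s, hs⟩ := h.tot (toNd x) (toNd_lt hκ x) q hq (treeAt_frP hx)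
    obtain ⟨s, rfl⟩ := toSo_surj (h.mem _ _ r (hr.trans hq) hs).2.1
    exact ⟨r, hr, s, (mem_regl (h.lower _ _)).2 fun t ht => ⟨t, le_rfl, h.lower _ _ ht hs⟩⟩
  mem x s q hq hs := by
    rw [mem_regl (h.lower _ _)] at hs
    constructor
    · obtain ⟨r, hr, h1⟩ := hs q le_rfl
      have h2 := (h.mem _ _ r (hr.trans hq) h1).1
      rw [toSo_len, toNd_len] at h2
      exact Subtype.ext h2
    · refine forces_of_dense fun r hr => ?_
      obtain ⟨t, ht, h1⟩ := hs r hr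
      exact ⟨t, ht, (h.mem _ _ t (ht.trans (hr.trans hq)) h1).2.2⟩
  mono x y s t hxy q hq h1 h2 := by
    obtain ⟨r, hr, h1⟩ := (mem_regl (h.lower _ _)).1 h1 q le_rfl
    obtain ⟨r', hr', h2⟩ := (mem_regl (h.lower _ _)).1 h2 r hr
    have h1 := h.lower _ _ hr' h1
    have hrp := hr'.trans (hr.trans hq)
    obtain ⟨h3, h4⟩ := toNd_le hxy
    have h5 := h.mono _ _ _ _ h3 h4 r' hrp h1 h2
    have h6 := (h.mem _ _ r' hrp h1).1
    have h7 := (h.mem _ _ r' hrp h2).1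
    refine (toSo_le ?_).2 h5
    have : (toSo s).len ≤ (toSo t).len := by rw [h6, h7]; exact h3
    rw [toSo_len, toSo_len] at this
    exact this

/-- **The adapter.** -/
theorem exists_FH (hκ : Lst κ) : ∃ D : Ordinal.{u} → Tri.{u}, Nonempty (PT κ D) ∧
    Nonempty (FH (PT κ D) (KO κ)) := by
  obtain ⟨D, h0, h1, h2, h3, h4⟩ := Pool.Agent.H40.IS.main hκ
  refine ⟨D, h0, ⟨{ dist := dist_of h1, Ts := tsR h2, nobranch := ?_, alt := ?_ }⟩⟩
  · intro Z p hZ1 hZ2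
    obtain ⟨q, hq, s, hs, hs1, hs2⟩ := h3 p (ex2 Z)
      { lower := ex2_lower Z
        uniq := by
          rintro t ht i v v' ⟨hi, hv, h5⟩ ⟨_, hv', h6⟩
          exact congrArg Subtype.val (hZ2 _ _ _ t ht h5 h6)
        tot := by
          intro i hi t ht
          obtain ⟨r, hr, j, hj⟩ := hZ1 ⟨i, hi⟩ t ht
          exact ⟨r, hr, j.1, j.2, hi, j.2, hj⟩ }
    obtain ⟨s, rfl⟩ := toSo_surj hs
    refine ⟨q, hq, s, fun i hi => ?_, fun r hr hr2 => hs2 r hr hr2⟩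
    have h5 := hs1 i.1 (by rw [toSo_len]; exact hi)
    rw [toSo_val s (i := i.1) hi] at h5
    exact mem_ex2.1 h5
  · intro A A' p hA hA'
    rcases h4 p _ _ (strName_of hA) (strName_of hA') with ⟨q, hq, H, hH⟩ | ⟨Pi, hPi⟩
    · exact Or.inl ⟨q, hq, _, isoAt_of hH⟩
    · exact Or.inr ⟨_, embAt_of hκ.1 h2 hPi⟩

end H79.IZ
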