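import Pool.Agent.H85.Forcing.RO

/-!
# MP_4c8320_lc, interface part: forcing statements about structures on `K`

`K` is (the order type of) the cardinal `κ`, `P` the forcing notion; `p ∈ (a : RO P)` means that `p`
forces `a`. A name of a structure `(κ, E_n)_n` is a function `A : ℕ → K → K → RO P`. Everything is
written out with conditions.
-/

universe u

namespace H79.IZ
open H85.Forcing RO Cardinal Set

variable {P : Type u} [Preorder P] {K : Type u} [LinearOrder K]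

/-- sequences of elements of `X` of length an element of `K` -/
abbrev Sq (K : Type u) [LinearOrder K] (X : Type u) : Type u := Σ a : K, (Iio a → X)

/-- `s` is an initial segment of `t` -/
def Sq.Le {X : Type u} (s t : Sq K X) : Prop :=
  s.1 ≤ t.1 ∧ ∀ i (h : i < s.1) (h' : i < t.1), s.2 ⟨i, h⟩ = t.2 ⟨i, h'⟩

/-- `p` forces that the `A_n` are equivalence relations and `A_{n+1}` refines `A_n` -/
structure RefAt (p : P) (A : ℕ → K → K → RO P) : Prop where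
  refl : ∀ n i, p ∈ A n i i
  symm : ∀ n i j, ∀ q ≤ p, q ∈ A n i j → q ∈ A n j i
  trans : ∀ n i j k, ∀ q ≤ p, q ∈ A n i j → q ∈ A n j k → q ∈ A n i k
  mono : ∀ n i j, ∀ q ≤ p, q ∈ A (n + 1) i j → q ∈ A n i j

/-- `p` forces that `A_0` has infinitely many classes and every `A_n`-class contains infinitely many
`A_{n+1}`-classes -/
structure InfAt (p : P) (A : ℕ → K → K → RO P) : Prop where
  zero : ∀ s : Finset K, ∀ q ≤ p, ∃ r ≤ q, ∃ a, ∀ b ∈ s, r ∈ (A 0 b a)ᶜ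
  succ : ∀ n i (s : Finset K), ∀ q ≤ p, ∃ r ≤ q, ∃ a, r ∈ A n i a ∧ ∀ b ∈ s, r ∈ (A (n + 1) b a)ᶜ

/-- `p` forces that `H` is (the graph of) an isomorphism from `A` onto `A'` -/
structure IsoAt (p : P) (A A' : ℕ → K → K → RO P) (H : K → K → RO P) : Prop where
  total : ∀ i, ∀ q ≤ p, ∃ r ≤ q, ∃ j, r ∈ H i j
  onto : ∀ j, ∀ q ≤ p, ∃ r ≤ q, ∃ i, r ∈ H i j
  inj : ∀ i j i' j', ∀ q ≤ p, q ∈ H i i' → q ∈ H j j' → (i = j ↔ i' = j')
  iso : ∀ n i j i' j', ∀ q ≤ p, q ∈ H i i' → q ∈ H j j' → (q ∈ A n i j ↔ q ∈ A' n i' j')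

/-- `x(i) = (h_i, g_i)`, `i < len x`; `Gr x i j` says that `(i, j)` belongs to
`{(i, h_i)} ∪ {(g_j, j)}` -/
def Gr (x : Sq K (K × K)) (i j : K) : Prop :=
  (∃ h : i < x.1, (x.2 ⟨i, h⟩).1 = j) ∨ (∃ h : j < x.1, (x.2 ⟨j, h⟩).2 = i)

/-- `p` forces that `x` belongs to the tree `T(A, A')` of bounded partial isomorphisms -/
structure TreeAt (p : P) (A A' : ℕ → K → K → RO P) (x : Sq K (K × K)) : Prop where
  inj : ∀ i j i' j', Gr x i i' → Gr x j j' → (i = j ↔ i' = j')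
  iso : ∀ n i j i' j', Gr x i i' → Gr x j j' → ∀ q ≤ p, (q ∈ A n i j ↔ q ∈ A' n i' j')

/-- `p` forces that `F` is a length preserving and order preserving function from `T(A, A')` into the
tree `Ts` -/
structure EmbAt (p : P) (A A' : ℕ → K → K → RO P) (Ts : Sq K K → RO P)
    (F : Sq K (K × K) → Sq K K → RO P) : Prop where
  total : ∀ x, ∀ q ≤ p, TreeAt q A A' x → ∃ r ≤ q, ∃ s, r ∈ F x s
  mem : ∀ x s, ∀ q ≤ p, q ∈ F x s → s.1 = x.1 ∧ q ∈ Ts s
  mono : ∀ x y s t, Sq.Le x y → ∀ q ≤ p, q ∈ F x s → q ∈ F y t → Sq.Le s t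

/-- the four properties of the forcing notion -/
structure FH (P K : Type u) [Preorder P] [LinearOrder K] where
  /-- fewer than `κ` many open dense sets have a dense intersection -/
  dist : ∀ (ι : Type u), #ι < #K → ∀ D : ι → P → Prop, (∀ i p q, q ≤ p → D i p → D i q) →
    (∀ i p, ∃ q ≤ p, D i q) → ∀ p, ∃ q ≤ p, ∀ i, D i q
  /-- the tree `T*` of sequences of length `< κ` -/
  Ts : Sq K K → RO P
  /-- `T*` has no branch of length `κ` -/
  nobranch : ∀ (Z : K → K → RO P) (p : P), (∀ i, ∀ q ≤ p, ∃ r ≤ q, ∃ j, r ∈ Z i j) →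
    (∀ i j j', ∀ q ≤ p, q ∈ Z i j → q ∈ Z i j' → j = j') →
    ∃ q ≤ p, ∃ s : Sq K K, (∀ i (h : i < s.1), q ∈ Z i (s.2 ⟨i, h⟩)) ∧ q ∈ (Ts s)ᶜ
  /-- names of refining sequences of equivalence relations are isomorphic (below some condition), or
  `T(A, A')` embeds in `T*` -/
  alt : ∀ (A A' : ℕ → K → K → RO P) (p : P), RefAt p A → RefAt p A' →
    (∃ q ≤ p, ∃ H : K → K → RO P, IsoAt q A A' H) ∨
    ∃ F : Sq K (K × K) → Sq K K → RO P, EmbAt p A A' Ts F

end H79.IZ
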