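import Pool.Agent.H85.Forcing.OSDefs

/-!
# MP_4c8320_lc, interface part: the notions inside a model of set theory

All notions are relativized to a structure `(M, E)`; `E x y` is read `x ∈ y`.
`IsPair`, `IsOPair`, `Rel`, `IsTrans`, `IsOrd`, `IsLim`, `IsSucc`, `IsUncReg` are in
`Pool.Agent.H85.Forcing.OSDefs`.
-/

namespace H79.IZ
open H85.Forcing

variable {M : Type*} (E : M → M → Prop)

/-- `x` is the first limit ordinal `ω` -/
def IsOm (x : M) : Prop := IsLim E x ∧ ∀ y, E y x → ¬ IsLim E y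

/-- `x = ∅` -/
def IsZero (x : M) : Prop := ∀ z, ¬ E z x

/-- `x = {∅} = 1` -/
def IsOne (x : M) : Prop := ∀ z, E z x ↔ IsZero E z

/-- `x = {0, 1} = 2` -/
def IsTwo (x : M) : Prop := ∀ z, E z x ↔ IsZero E z ∨ IsOne E z

/-- `f` is a function from `x` to `y`, i.e. `f ⊆ x × y` is a set of ordered pairs with exactly one
pair `(u, v)` for every `u ∈ x` -/
def IsFn (f x y : M) : Prop :=
  (∀ p, E p f → ∃ u, E u x ∧ ∃ v, E v y ∧ IsOPair E u v p) ∧
  ∀ u, E u x → ∃ v, Rel E f u v ∧ ∀ w, Rel E f u w → w = v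

/-- `kap^(<kap) = kap`: some `F` maps `kap` onto the set of all functions from ordinals
`a ∈ kap` to `kap` -/
def PowLt (kap : M) : Prop :=
  ∃ F, ∀ a, E a kap → ∀ s, IsFn E s a kap → ∃ x, E x kap ∧ Rel E F x s ∧ ∀ t, Rel E F x t → t = s

/-- `((n, (i, j)), c) ∈ e` -/
def Rel3 (e n i j c : M) : Prop := ∃ p, IsOPair E i j p ∧ ∃ q, IsOPair E n p q ∧ Rel E e q c

/-- `e` is (on `om × (kap × kap)`) an injective function from `om × (kap × kap)` to `kap` -/
def IsCode (om kap e : M) : Prop :=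
  (∀ n, E n om → ∀ i, E i kap → ∀ j, E j kap → ∃ c, E c kap ∧ Rel3 E e n i j c) ∧
  ∀ n, E n om → ∀ i, E i kap → ∀ j, E j kap → ∀ n', E n' om → ∀ i', E i' kap → ∀ j', E j' kap →
    ∀ c c', Rel3 E e n i j c → Rel3 E e n' i' j' c' → (c = c' ↔ (n = n' ∧ i = i' ∧ j = j'))

/-- the relation `E_n` of the structure with universe `kap` coded by `η ∈ 2^kap` via `e`:
`i E_n j` iff `η(e(n, i, j)) = 1` -/
def EqR (e η n i j : M) : Prop := ∃ c, Rel3 E e n i j c ∧ ∃ o, IsOne E o ∧ Rel E η c o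

/-- the structure coded by `η` is a model of the theory `T_ω`: every `E_n` is an equivalence relation
on `kap`; `E_{n+1}` refines `E_n`; `E_0` has infinitely many classes (no finite sequence `g` of
elements meets all of them); every `E_n`-class contains infinitely many `E_{n+1}`-classes -/
def IsModel (om kap e η : M) : Prop :=
  (∀ n, E n om → ∀ i, E i kap → EqR E e η n i i) ∧
  (∀ n, E n om → ∀ i, E i kap → ∀ j, E j kap → EqR E e η n i j → EqR E e η n j i) ∧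
  (∀ n, E n om → ∀ i, E i kap → ∀ j, E j kap → ∀ k, E k kap →
    EqR E e η n i j → EqR E e η n j k → EqR E e η n i k) ∧
  (∀ n, E n om → ∀ n', IsSucc E n n' → ∀ i, E i kap → ∀ j, E j kap →
    EqR E e η n' i j → EqR E e η n i j) ∧
  (∀ z, IsZero E z → ∀ m, E m om → ∀ g, IsFn E g m kap →
    ∃ a, E a kap ∧ ∀ k, E k m → ∀ b, Rel E g k b → ¬ EqR E e η z b a) ∧
  (∀ n, E n om → ∀ n', IsSucc E n n' → ∀ i, E i kap → ∀ m, E m om → ∀ g, IsFn E g m kap →
    ∃ a, E a kap ∧ EqR E e η n i a ∧ ∀ k, E k m → ∀ b, Rel E g k b → ¬ EqR E e η n' b a)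

/-- the structures coded by `η` and `ξ` are isomorphic: some bijection `h` from `kap` to `kap`
satisfies `i E_n j` iff `h(i) E_n h(j)` -/
def IsoTo (om kap e η ξ : M) : Prop :=
  ∃ h, IsFn E h kap kap ∧ (∀ v, E v kap → ∃ u, E u kap ∧ Rel E h u v) ∧
    (∀ u, E u kap → ∀ u', E u' kap → ∀ v, Rel E h u v → Rel E h u' v → u = u') ∧
    ∀ n, E n om → ∀ i, E i kap → ∀ j, E j kap → ∀ i' j', Rel E h i i' → Rel E h j j' →
      (EqR E e η n i j ↔ EqR E e ξ n i' j')

/-- the isomorphism relation `Isom` of `T_ω`: `η` and `ξ` code isomorphic models of `T_ω` -/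
def Isom (om kap e η ξ : M) : Prop :=
  IsModel E om kap e η ∧ IsModel E om kap e ξ ∧ IsoTo E om kap e η ξ

/-- `(η, (ξ, ζ)) ∈ C` -/
def Tri (C η ξ ζ : M) : Prop := ∃ p, IsOPair E ξ ζ p ∧ Rel E C η p

/-- the functions `f` and `g` agree on `a` -/
def Agree (a f g : M) : Prop := ∀ i, E i a → ∀ v, Rel E f i v ↔ Rel E g i v

/-- `C` is a closed subset of `2^kap × 2^kap × kap^kap` (bounded topology): a triple is in `C` if for
every `a ∈ kap` it agrees on `a` with a triple in `C` -/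
def IsClosed3 (two kap C : M) : Prop :=
  ∀ η, IsFn E η kap two → ∀ ξ, IsFn E ξ kap two → ∀ ζ, IsFn E ζ kap kap →
    (∀ a, E a kap → ∃ η' ξ' ζ', IsFn E η' kap two ∧ IsFn E ξ' kap two ∧ IsFn E ζ' kap kap ∧
      Agree E a η η' ∧ Agree E a ξ ξ' ∧ Agree E a ζ ζ' ∧ Tri E C η' ξ' ζ') →
    Tri E C η ξ ζ

/-- the set `{(η, ξ) ∈ 2^kap × 2^kap : X η ξ}` is `Σ¹₁`: the projection of a closed subset of
`2^kap × 2^kap × kap^kap` -/
def Sigma11 (two kap : M) (X : M → M → Prop) : Prop :=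
  ∃ C, IsClosed3 E two kap C ∧ ∀ η, IsFn E η kap two → ∀ ξ, IsFn E ξ kap two →
    (X η ξ ↔ ∃ ζ, IsFn E ζ kap kap ∧ Tri E C η ξ ζ)

/-- the set `{(η, ξ) ∈ 2^kap × 2^kap : X η ξ}` is `Δ¹₁`: it and its complement are `Σ¹₁` -/
def Delta11 (two kap : M) (X : M → M → Prop) : Prop :=
  Sigma11 E two kap X ∧ Sigma11 E two kap (fun η ξ => ¬ X η ξ)

end H79.IZ
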