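import Pool.Agent.H85.Forcing.OSLos
import Pool.Agent.H79.IZ.Defs

/-!
# Boolean values of the notions of `Defs`, and transfer to the quotient model
-/

universe u

namespace H79.IZ
open H85.Forcing BN

variable {B : Type u} [CompleteBooleanAlgebra B]

def isOmB (x : BN B) : B := isLimB x ⊓ ⨅ y, mem y x ⇨ (isLimB y)ᶜ

def isZeroB (x : BN B) : B := ⨅ z, (mem z x)ᶜ

def isOneB (x : BN B) : B := ⨅ z, (mem z x ⇨ isZeroB z) ⊓ (isZeroB z ⇨ mem z x)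

def isTwoB (x : BN B) : B :=
  ⨅ z, (mem z x ⇨ isZeroB z ⊔ isOneB z) ⊓ (isZeroB z ⊔ isOneB z ⇨ mem z x)

def isFnB (f x y : BN B) : B :=
  (⨅ p, mem p f ⇨ ⨆ u, mem u x ⊓ ⨆ v, mem v y ⊓ beq p (opair u v)) ⊓
  ⨅ u, mem u x ⇨ ⨆ v, rel f u v ⊓ ⨅ w, rel f u w ⇨ beq w v

def powLtB (kap : BN B) : B :=
  ⨆ F, ⨅ a, mem a kap ⇨ ⨅ s, isFnB s a kap ⇨ ⨆ x, mem x kap ⊓ (rel F x s ⊓ ⨅ t, rel F x t ⇨ beq t s)

def rel3 (e n i j c : BN B) : B := rel e (opair n (opair i j)) c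

def isCodeB (om kap e : BN B) : B :=
  (⨅ n, mem n om ⇨ ⨅ i, mem i kap ⇨ ⨅ j, mem j kap ⇨ ⨆ c, mem c kap ⊓ rel3 e n i j c) ⊓
  ⨅ n, mem n om ⇨ ⨅ i, mem i kap ⇨ ⨅ j, mem j kap ⇨
  ⨅ n', mem n' om ⇨ ⨅ i', mem i' kap ⇨ ⨅ j', mem j' kap ⇨
    ⨅ c, ⨅ c', rel3 e n i j c ⇨ (rel3 e n' i' j' c' ⇨
      ((beq c c' ⇨ beq n n' ⊓ (beq i i' ⊓ beq j j')) ⊓ (beq n n' ⊓ (beq i i' ⊓ beq j j') ⇨ beq c c')))

def eqB (e η n i j : BN B) : B := ⨆ c, rel3 e n i j c ⊓ ⨆ o, isOneB o ⊓ rel η c o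

def isModelB (om kap e η : BN B) : B :=
  (⨅ n, mem n om ⇨ ⨅ i, mem i kap ⇨ eqB e η n i i) ⊓
  ((⨅ n, mem n om ⇨ ⨅ i, mem i kap ⇨ ⨅ j, mem j kap ⇨ (eqB e η n i j ⇨ eqB e η n j i)) ⊓
  ((⨅ n, mem n om ⇨ ⨅ i, mem i kap ⇨ ⨅ j, mem j kap ⇨ ⨅ k, mem k kap ⇨
    (eqB e η n i j ⇨ (eqB e η n j k ⇨ eqB e η n i k))) ⊓
  ((⨅ n, mem n om ⇨ ⨅ n', isSuccB n n' ⇨ ⨅ i, mem i kap ⇨ ⨅ j, mem j kap ⇨
    (eqB e η n' i j ⇨ eqB e η n i j)) ⊓
  ((⨅ z, isZeroB z ⇨ ⨅ m, mem m om ⇨ ⨅ g, isFnB g m kap ⇨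
    ⨆ a, mem a kap ⊓ ⨅ k, mem k m ⇨ ⨅ b, rel g k b ⇨ (eqB e η z b a)ᶜ) ⊓
  (⨅ n, mem n om ⇨ ⨅ n', isSuccB n n' ⇨ ⨅ i, mem i kap ⇨ ⨅ m, mem m om ⇨ ⨅ g, isFnB g m kap ⇨
    ⨆ a, mem a kap ⊓ (eqB e η n i a ⊓ ⨅ k, mem k m ⇨ ⨅ b, rel g k b ⇨ (eqB e η n' b a)ᶜ))))))

def isoToB (om kap e η ξ : BN B) : B :=
  ⨆ h, isFnB h kap kap ⊓ ((⨅ v, mem v kap ⇨ ⨆ u, mem u kap ⊓ rel h u v) ⊓
    ((⨅ u, mem u kap ⇨ ⨅ u', mem u' kap ⇨ ⨅ v, rel h u v ⇨ (rel h u' v ⇨ beq u u')) ⊓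
    ⨅ n, mem n om ⇨ ⨅ i, mem i kap ⇨ ⨅ j, mem j kap ⇨ ⨅ i', ⨅ j', rel h i i' ⇨ (rel h j j' ⇨
      ((eqB e η n i j ⇨ eqB e ξ n i' j') ⊓ (eqB e ξ n i' j' ⇨ eqB e η n i j)))))

def isomB (om kap e η ξ : BN B) : B :=
  isModelB om kap e η ⊓ (isModelB om kap e ξ ⊓ isoToB om kap e η ξ)

def triB (C η ξ ζ : BN B) : B := rel C η (opair ξ ζ)

def agreeB (a f g : BN B) : B := ⨅ i, mem i a ⇨ ⨅ v, (rel f i v ⇨ rel g i v) ⊓ (rel g i v ⇨ rel f i v)

/-! ### transfer -/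

variable (U : Ult B)

theorem isOPair_iff (x y : BN B) (m : MQ U) : IsOPair (ME U) (cl U x) (cl U y) m ↔
    m = cl U (opair x y) := by
  simp only [IsOPair, isPair_iff]
  constructor
  · rintro ⟨s, d, rfl, rfl, hp⟩
    exact (isPair_iff U _ _ _).1 hp
  · rintro rfl
    exact ⟨_, _, rfl, rfl, (isPair_iff U _ _ _).2 rfl⟩

theorem rel3_iff (e n i j c : BN B) :
    Rel3 (ME U) (cl U e) (cl U n) (cl U i) (cl U j) (cl U c) ↔ U.T (rel3 e n i j c) := by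
  simp only [Rel3, isOPair_iff]
  constructor
  · rintro ⟨p, rfl, q, hq, h⟩
    rw [isOPair_iff] at hq
    subst hq
    rw [rel_iff] at h
    exact h
  · intro h
    exact ⟨_, rfl, _, (isOPair_iff U _ _ _).2 rfl, (rel_iff U _ _ _).2 h⟩

theorem tri_iff (C η ξ ζ : BN B) :
    Tri (ME U) (cl U C) (cl U η) (cl U ξ) (cl U ζ) ↔ U.T (triB C η ξ ζ) := by
  simp only [Tri, isOPair_iff]
  constructor
  · rintro ⟨p, rfl, h⟩
    exact (rel_iff U _ _ _).1 h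
  · intro h
    exact ⟨_, rfl, (rel_iff U _ _ _).2 h⟩

instance extC_isZeroB {f : BN B → BN B} [CongC f] : ExtC (fun t => isZeroB (f t)) :=
  ⟨by unfold isZeroB; exact ExtC.h⟩

instance extC_isOneB {f : BN B → BN B} [CongC f] : ExtC (fun t => isOneB (f t)) :=
  ⟨by unfold isOneB; exact ExtC.h⟩

instance extC_isTwoB {f : BN B → BN B} [CongC f] : ExtC (fun t => isTwoB (f t)) :=
  ⟨by unfold isTwoB; exact ExtC.h⟩

instance extC_isOmB {f : BN B → BN B} [CongC f] : ExtC (fun t => isOmB (f t)) :=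
  ⟨by unfold isOmB; exact ExtC.h⟩

instance extC_isFnB {f x y : BN B → BN B} [CongC f] [CongC x] [CongC y] :
    ExtC (fun t => isFnB (f t) (x t) (y t)) :=
  ⟨by unfold isFnB; exact ExtC.h⟩

instance extC_rel3 {e n i j c : BN B → BN B} [CongC e] [CongC n] [CongC i] [CongC j] [CongC c] :
    ExtC (fun t => rel3 (e t) (n t) (i t) (j t) (c t)) :=
  ⟨by unfold rel3; exact ExtC.h⟩

instance extC_eqB {e η n i j : BN B → BN B} [CongC e] [CongC η] [CongC n] [CongC i] [CongC j] :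
    ExtC (fun t => eqB (e t) (η t) (n t) (i t) (j t)) :=
  ⟨by unfold eqB; exact ExtC.h⟩

set_option synthInstance.maxSize 4000 in
instance extC_isCodeB {om kap e : BN B → BN B} [CongC om] [CongC kap] [CongC e] :
    ExtC (fun t => isCodeB (om t) (kap t) (e t)) :=
  ⟨by unfold isCodeB; exact ExtC.h⟩

set_option synthInstance.maxSize 4000 in
instance extC_isModelB {om kap e η : BN B → BN B} [CongC om] [CongC kap] [CongC e] [CongC η] :
    ExtC (fun t => isModelB (om t) (kap t) (e t) (η t)) :=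
  ⟨by unfold isModelB; exact ExtC.h⟩

set_option synthInstance.maxSize 4000 in
instance extC_isoToB {om kap e η ξ : BN B → BN B} [CongC om] [CongC kap] [CongC e] [CongC η]
    [CongC ξ] : ExtC (fun t => isoToB (om t) (kap t) (e t) (η t) (ξ t)) :=
  ⟨by unfold isoToB; exact ExtC.h⟩

instance extC_triB {C η ξ ζ : BN B → BN B} [CongC C] [CongC η] [CongC ξ] [CongC ζ] :
    ExtC (fun t => triB (C t) (η t) (ξ t) (ζ t)) :=
  ⟨by unfold triB; exact ExtC.h⟩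

instance extC_agreeB {a f g : BN B → BN B} [CongC a] [CongC f] [CongC g] :
    ExtC (fun t => agreeB (a t) (f t) (g t)) :=
  ⟨by unfold agreeB; exact ExtC.h⟩

instance : ExtC (isZeroB : BN B → B) := ⟨(extC_isZeroB (f := fun t => t)).h⟩

instance : ExtC (isOneB : BN B → B) := ⟨(extC_isOneB (f := fun t => t)).h⟩

instance (a b : BN B) : ExtC (isFnB a b) :=
  ⟨(extC_isFnB (f := fun _ => a) (x := fun _ => b) (y := fun t => t)).h⟩

instance (a b c d : BN B) : ExtC (rel3 a b c d) :=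
  ⟨(extC_rel3 (e := fun _ => a) (n := fun _ => b) (i := fun _ => c) (j := fun _ => d)
    (c := fun t => t)).h⟩

instance (a b c d : BN B) : ExtC (eqB a b c d) :=
  ⟨(extC_eqB (e := fun _ => a) (η := fun _ => b) (n := fun _ => c) (i := fun _ => d)
    (j := fun t => t)).h⟩

set_option linter.unusedSimpArgs false

theorem isOm_iff (x : BN B) : IsOm (ME U) (cl U x) ↔ U.T (isOmB x) := by
  simp only [IsOm, isOmB, T_iInf', T_iSup', U.inf, U.sup, U.himp, U.compl,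
    cl_forall U, cl_exists U, ME_cl, cl_eq, isLim_iff]

theorem isZero_iff (x : BN B) : IsZero (ME U) (cl U x) ↔ U.T (isZeroB x) := by
  simp only [IsZero, isZeroB, T_iInf', T_iSup', U.inf, U.sup, U.himp, U.compl,
    cl_forall U, cl_exists U, ME_cl, cl_eq]

theorem isOne_iff (x : BN B) : IsOne (ME U) (cl U x) ↔ U.T (isOneB x) := by
  simp only [IsOne, isOneB, T_iInf', T_iSup', U.inf, U.sup, U.himp, U.compl,
    cl_forall U, cl_exists U, ME_cl, cl_eq, isZero_iff, iff_iff_implies_and_implies]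

theorem isTwo_iff (x : BN B) : IsTwo (ME U) (cl U x) ↔ U.T (isTwoB x) := by
  simp only [IsTwo, isTwoB, T_iInf', T_iSup', U.inf, U.sup, U.himp, U.compl,
    cl_forall U, cl_exists U, ME_cl, cl_eq, isZero_iff, isOne_iff, iff_iff_implies_and_implies]

theorem isFn_iff (f x y : BN B) : IsFn (ME U) (cl U f) (cl U x) (cl U y) ↔ U.T (isFnB f x y) := by
  simp only [IsFn, isFnB, T_iInf', T_iSup', U.inf, U.sup, U.himp, U.compl,
    cl_forall U, cl_exists U, ME_cl, cl_eq, rel_iff, isOPair_iff]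

theorem powLt_iff (x : BN B) : PowLt (ME U) (cl U x) ↔ U.T (powLtB x) := by
  simp only [PowLt, powLtB, T_iInf', T_iSup', U.inf, U.sup, U.himp, U.compl,
    cl_forall U, cl_exists U, ME_cl, cl_eq, rel_iff, isFn_iff]

theorem isCode_iff (om kap e : BN B) :
    IsCode (ME U) (cl U om) (cl U kap) (cl U e) ↔ U.T (isCodeB om kap e) := by
  simp only [IsCode, isCodeB, T_iInf', T_iSup', U.inf, U.sup, U.himp, U.compl,
    cl_forall U, cl_exists U, ME_cl, cl_eq, rel3_iff, iff_iff_implies_and_implies]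

theorem eq_iff (e η n i j : BN B) :
    EqR (ME U) (cl U e) (cl U η) (cl U n) (cl U i) (cl U j) ↔ U.T (eqB e η n i j) := by
  simp only [EqR, eqB, T_iInf', T_iSup', U.inf, U.sup, U.himp, U.compl,
    cl_forall U, cl_exists U, ME_cl, cl_eq, rel3_iff, rel_iff, isOne_iff]

set_option synthInstance.maxSize 4000 in
theorem isModel_iff (om kap e η : BN B) :
    IsModel (ME U) (cl U om) (cl U kap) (cl U e) (cl U η) ↔ U.T (isModelB om kap e η) := by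
  simp only [IsModel, isModelB, T_iInf', T_iSup', U.inf, U.sup, U.himp, U.compl,
    cl_forall U, cl_exists U, ME_cl, cl_eq, rel3_iff, rel_iff, isOne_iff, eq_iff, isSucc_iff,
    isZero_iff, isFn_iff]

set_option synthInstance.maxSize 4000 in
theorem isoTo_iff (om kap e η ξ : BN B) :
    IsoTo (ME U) (cl U om) (cl U kap) (cl U e) (cl U η) (cl U ξ) ↔ U.T (isoToB om kap e η ξ) := by
  simp only [IsoTo, isoToB, T_iInf', T_iSup', U.inf, U.sup, U.himp, U.compl,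
    cl_forall U, cl_exists U, ME_cl, cl_eq, rel_iff, eq_iff, isFn_iff, iff_iff_implies_and_implies]

theorem isom_iff (om kap e η ξ : BN B) :
    Isom (ME U) (cl U om) (cl U kap) (cl U e) (cl U η) (cl U ξ) ↔ U.T (isomB om kap e η ξ) := by
  simp only [Isom, isomB, U.inf, isModel_iff, isoTo_iff]

theorem agree_iff (a f g : BN B) :
    Agree (ME U) (cl U a) (cl U f) (cl U g) ↔ U.T (agreeB a f g) := by
  simp only [Agree, agreeB, T_iInf', T_iSup', U.inf, U.sup, U.himp, U.compl,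
    cl_forall U, cl_exists U, ME_cl, cl_eq, rel_iff, iff_iff_implies_and_implies]

end H79.IZ
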