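import Pool.Agent.H79.IZ.Real

/-!
# Names of functions from an ordinal `a` to `κ`; check names of sequences

PROOFS: `checkS s` is `relN` of the graph of `s` (values `ofProp`). `isFnB_checkS` as `isFnB_relN`.
`fn_decide`: let `p ∈ isFnB f (ordN a) (kapN K)`. For every `i < a` the set
`{q : ∃ j, q ∈ rel f (ordN i) (ordN j)}` is dense below `p` (unfold `isFnB`) and open; by `dist_below`
(index type `Iio a`, `KD.small`) some `q ≤ p` is in all of them; this gives `s : Iio a → K`.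
Then `q ∈ beq f (checkS ⟨a, s⟩)`: `isFnB_le` gives `q ∈ beq f (relN fun i j => rel f i j)`, and
`q ∈ rel f i j` iff `i < a` and `j = s i` (for all conditions below `q`, by uniqueness, and because
`mem (ordN i) (ordN a)` is `⊥` if not `i < a`), so `beq_relN` applies.
`dist_below`: apply `F.dist` to `D' i q := D i q ∨ ∀ r ≤ q, ¬ r ≤ p` and start from `p`.
-/

universe u

namespace H79.IZ
open H85.Forcing BN RO Cardinal Set

variable {P : Type u} [Preorder P] {K : Type u} [LinearOrder K]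

theorem FH.dist_below (F : FH P K) (ι : Type u) (hι : #ι < #K) (D : ι → P → Prop) (p : P)
    (h1 : ∀ i, ∀ q ≤ p, ∀ r ≤ q, D i q → D i r) (h2 : ∀ i, ∀ q ≤ p, ∃ r ≤ q, D i r) :
    ∃ q ≤ p, ∀ i, D i q := by
  obtain ⟨q, hq, h⟩ := F.dist ι hι (fun i q => (q ≤ p ∧ D i q) ∨ ∀ r ≤ q, ¬ r ≤ p)
    (fun i p' q hq h => by
      rcases h with ⟨h3, h4⟩ | h3
      · exact Or.inl ⟨hq.trans h3, h1 i p' h3 q hq h4⟩
      · exact Or.inr fun r hr => h3 r (hr.trans hq))
    (fun i p' => by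
      by_cases h3 : ∃ r ≤ p', r ≤ p
      · obtain ⟨r, hr, hrp⟩ := h3
        obtain ⟨s, hs, hD⟩ := h2 i r hrp
        exact ⟨s, hs.trans hr, Or.inl ⟨hs.trans hrp, hD⟩⟩
      · exact ⟨p', le_rfl, Or.inr fun r hr hrp => h3 ⟨r, hr, hrp⟩⟩) p
  refine ⟨q, hq, fun i => ?_⟩
  rcases h i with h3 | h3
  · exact h3.2
  · exact absurd hq (h3 q le_rfl)

variable [WellFoundedLT K]

/-- the check name of a sequence -/
noncomputable def checkS (s : Sq K K) : BN (RO P) :=
  relN fun i j => ofProp (∃ h : i < s.1, s.2 ⟨i, h⟩ = j)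

theorem isFnB_checkS (s : Sq K K) :
    isFnB (checkS s : BN (RO P)) (ordN s.1) (kapN K) = ⊤ := by
  rw [eq_top_iff_forces]
  intro p
  rw [isFnB, forces_inf]
  constructor
  · have h := ball_mk (ι := K × K) (A := fun p => opair (ordN p.1) (ordN p.2))
      (b := fun p => (ofProp (∃ h : p.1 < s.1, s.2 ⟨p.1, h⟩ = p.2) : RO P))
      (φ := fun p => ⨆ u, mem u (ordN s.1) ⊓ ⨆ v, mem v (kapN K) ⊓ beq p (opair u v)) ExtC.h
    rw [checkS, relN, h, forces_iInf]
    rintro ⟨i, j⟩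
    rw [forces_himp]
    intro q _ hq
    obtain ⟨hi, _⟩ := forces_ofProp.1 hq
    refine forces_iSup_of (ordN i) (forces_inf.2 ⟨forces_mem_ordN.2 hi, ?_⟩)
    refine forces_iSup_of (ordN j) (forces_inf.2 ⟨forces_mem_kapN.2 trivial, ?_⟩)
    rw [beq_refl]
    exact forces_top
  · rw [forces_ball_ordN]
    intro i hi
    refine forces_iSup_of (ordN (s.2 ⟨i, hi⟩)) (forces_inf.2 ⟨?_, ?_⟩)
    · rw [checkS, rel_relN]
      exact forces_ofProp.2 ⟨hi, rfl⟩
    · rw [forces_iInf]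
      intro w
      rw [forces_himp]
      intro q _ hw
      rw [checkS, rel_relN_left] at hw
      refine forces_of_dense fun t ht => ?_
      obtain ⟨t', ht', j', hj'⟩ := forces_iSup.1 hw t ht
      refine ⟨t', ht', ?_⟩
      obtain ⟨_, e⟩ := forces_ofProp.1 (forces_inf.1 hj').1
      rw [e]
      exact (forces_inf.1 hj').2

theorem rel_checkS (s : Sq K K) {i : K} (h : i < s.1) (j : K) (p : P) :
    p ∈ rel (checkS s) (ordN i) (ordN j) ↔ s.2 ⟨i, h⟩ = j := by
  rw [checkS, rel_relN, forces_ofProp]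
  exact ⟨fun ⟨_, e⟩ => e, fun e => ⟨h, e⟩⟩

theorem beq_checkS {s t : Sq K K} {p : P} : p ∈ beq (checkS s) (checkS t : BN (RO P)) → s = t := by
  intro h
  rw [checkS, checkS, beq_relN] at h
  have h' : ∀ i j, (∃ h : i < s.1, s.2 ⟨i, h⟩ = j) ↔ (∃ h : i < t.1, t.2 ⟨i, h⟩ = j) :=
    fun i j => h i j p le_rfl
  obtain ⟨a, s⟩ := s
  obtain ⟨b, t⟩ := t
  have hab : a = b := by
    rcases lt_trichotomy a b with h1 | h1 | h1
    · obtain ⟨h2, _⟩ := (h' a (t ⟨a, h1⟩)).2 ⟨h1, rfl⟩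
      exact absurd h2 (lt_irrefl _)
    · exact h1
    · obtain ⟨h2, _⟩ := (h' b (s ⟨b, h1⟩)).1 ⟨h1, rfl⟩
      exact absurd h2 (lt_irrefl _)
  subst hab
  have hst : s = t := by
    funext i
    obtain ⟨_, e⟩ := (h' i.1 (s i)).1 ⟨i.2, rfl⟩
    exact e.symm
  rw [hst]

private theorem fn_mem {f x y : BN (RO P)} {p : P} (hp : p ∈ isFnB f x y) {u v : BN (RO P)}
    (h : p ∈ rel f u v) : p ∈ mem u x ∧ p ∈ mem v y := by
  rw [isFnB, forces_inf, forces_iInf] at hp
  have h1 := forces_himp.1 (hp.1 (opair u v)) p le_rfl h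
  constructor
  · refine forces_of_dense fun q hq => ?_
    obtain ⟨r, hr, u', h2⟩ := forces_iSup.1 h1 q hq
    obtain ⟨s, hs, v', h3⟩ := forces_iSup.1 (forces_inf.1 h2).2 r le_rfl
    refine ⟨s, hs.trans hr, ?_⟩
    have h4 : beq (opair u v) (opair u' v') ⊓ mem u' x ≤ mem u x :=
      mem_congr_left (bsymm (opair_inj_left inf_le_left)) inf_le_right
    exact le_iff_forces.1 h4 s ⟨(forces_inf.1 h3).2, Forces.down (forces_inf.1 h2).1 hs⟩
  · refine forces_of_dense fun q hq => ?_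
    obtain ⟨r, hr, u', h2⟩ := forces_iSup.1 h1 q hq
    obtain ⟨s, hs, v', h3⟩ := forces_iSup.1 (forces_inf.1 h2).2 r le_rfl
    refine ⟨s, hs.trans hr, ?_⟩
    have h4 : beq (opair u v) (opair u' v') ⊓ mem v' y ≤ mem v y :=
      mem_congr_left (bsymm (opair_inj_right inf_le_left)) inf_le_right
    exact le_iff_forces.1 h4 s ⟨(forces_inf.1 h3).2, (forces_inf.1 h3).1⟩

private theorem fn_total {f : BN (RO P)} {a : K} {p : P}
    (hp : p ∈ isFnB f (ordN a) (kapN K)) {i : K} (hi : i < a) :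
    ∃ q ≤ p, ∃ j : K, q ∈ rel f (ordN i) (ordN j) := by
  have hp' := hp
  rw [isFnB, forces_inf, forces_ball_ordN] at hp'
  obtain ⟨q, hq, v, hv⟩ := forces_iSup.1 (hp'.2 i hi) p le_rfl
  have h1 : q ∈ rel f (ordN i) v := (forces_inf.1 hv).1
  have h2 : q ∈ mem v (kapN K) := (fn_mem (Forces.down hp hq) h1).2
  obtain ⟨r, hr, j, hj⟩ := forces_iSup.1 (le_iff_forces.1 (mem_kapN_le v) q h2) q le_rfl
  refine ⟨r, hr.trans hq, j, ?_⟩
  have h3 : beq v (ordN j) ⊓ rel f (ordN i) v ≤ rel f (ordN i) (ordN j) :=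
    (ext_rel (cong_const f) (cong_const (ordN i)) cong_id) v (ordN j)
  exact le_iff_forces.1 h3 r ⟨hj, Forces.down h1 hr⟩

private theorem fn_uniq {f y : BN (RO P)} {a : K} {p : P} (hp : p ∈ isFnB f (ordN a) y)
    {i j j' : K} (hi : i < a)
    (h : p ∈ rel f (ordN i) (ordN j)) (h' : p ∈ rel f (ordN i) (ordN j')) : j = j' := by
  rw [isFnB, forces_inf, forces_ball_ordN] at hp
  obtain ⟨q, hq, v, hv⟩ := forces_iSup.1 (hp.2 i hi) p le_rfl
  have h1 := forces_iInf.1 (forces_inf.1 hv).2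
  have h2 := forces_himp.1 (h1 (ordN j)) q le_rfl (Forces.down h hq)
  have h3 := forces_himp.1 (h1 (ordN j')) q le_rfl (Forces.down h' hq)
  have h4 : beq (ordN j) v ⊓ beq (ordN j') v ≤ (beq (ordN j) (ordN j') : RO P) :=
    btrans inf_le_left (bsymm inf_le_right)
  exact forces_beq_ordN.1 (le_iff_forces.1 h4 q ⟨h2, h3⟩)

variable [KD K]

/-- every function from `a` to `κ` of the extension is in the ground model -/
theorem fn_decide (F : FH P K) (a : K) (f : BN (RO P)) (p : P)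
    (hf : p ∈ isFnB f (ordN a) (kapN K)) : ∃ q ≤ p, ∃ s : Iio a → K, q ∈ beq f (checkS ⟨a, s⟩) := by
  obtain ⟨q, hq, h⟩ := F.dist_below (Iio a) (KD.small a)
    (fun i q => ∃ j : K, q ∈ rel f (ordN i.1) (ordN j)) p
    (fun i q _ r hr ⟨j, hj⟩ => ⟨j, Forces.down hj hr⟩)
    (fun i q hq => fn_total (Forces.down hf hq) i.2)
  choose s hs using h
  refine ⟨q, hq, s, ?_⟩
  have hfq := Forces.down hf hq
  have h1 := le_iff_forces.1 (isFnB_le f (ordN a) (kapN K) (mem_ordN_le a) mem_kapN_le) q hfq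
  have h2 : q ∈ beq (relN fun i j : K => rel f (ordN i) (ordN j)) (checkS ⟨a, s⟩) := by
    rw [checkS, beq_relN]
    intro i j r hr
    rw [forces_ofProp]
    have hfr := Forces.down hfq hr
    constructor
    · intro h3
      have hi : i < a := forces_mem_ordN.1 (fn_mem hfr h3).1
      exact ⟨hi, fn_uniq hfr hi (Forces.down (hs ⟨i, hi⟩) hr) h3⟩
    · rintro ⟨hi, e⟩
      rw [← e]
      exact Forces.down (hs ⟨i, hi⟩) hr
  exact le_iff_forces.1 (beq_trans _ _ _) q ⟨h1, h2⟩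

end H79.IZ
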