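import Pool.Agent.H79.IZ.Code
import Pool.Agent.H79.IZ.Fun

/-!
# `κ` is regular and uncountable and `κ^(<κ) = κ` in the extension

PROOFS. `isUncReg_V`: as `forces_isUncReg` in `Pool.Agent.H85.Forcing.Cards` with `kapN K` in place of
`ordN ω₁`: `isOrdB_kapN`; `om` is a limit ordinal in `κ` (`forces_isLimB`, `KD.lt_om`); for `x < κ` and a
name `f` with `q ∈ isFunB f (ordN x) (kapN K)`: by `F.dist_below` (index type `Iio x`) some `r ≤ q`
decides all values `v u`, `u < x`, and `KD.reg` gives a bound.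
`powLt_V`: let `d : Sq K K → K` be injective (`exists_cS`), `F' = mk (Sq K K) (fun s => opair (ordN (d s))
(checkS s)) ⊤`. For `a : K` and a name `s` with `q ∈ isFnB s (ordN a) (kapN K)` by `fn_decide` densely
`r ∈ beq s (checkS ⟨a, s'⟩)`; then `x = d ⟨a, s'⟩`, and if `r ∈ rel F' (ordN x) t` then `t = checkS s''`
with `d s'' = x`, so `s'' = ⟨a, s'⟩`.
-/

universe u

namespace H79.IZ
open H85.Forcing BN RO Cardinal Set

variable {P : Type u} [Preorder P] {K : Type u} [LinearOrder K] [WellFoundedLT K] [KD K]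

theorem isUncReg_V (F : FH P K) : (isUncRegB (kapN K) : RO P) = ⊤ := by
  rw [eq_top_iff_forces]
  intro p
  unfold isUncRegB
  simp only [forces_inf, forces_ball_kapN, forces_bex_kapN]
  refine ⟨isOrdB_kapN, fun q _ => ⟨q, le_rfl, KD.om, ?_⟩, ?_⟩
  · rw [forces_isLimB]
    refine ⟨⟨KD.nat 0, KD.lt_om.2 ⟨0, rfl⟩⟩, fun β hβ => ?_⟩
    obtain ⟨n, rfl⟩ := KD.lt_om.1 hβ
    exact ⟨KD.nat (n + 1), KD.lt_om.2 ⟨_, rfl⟩, KD.nat_lt.2 (Nat.lt_succ_self n)⟩
  · intro x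
    rw [forces_iInf]
    intro f
    rw [forces_himp]
    intro q hq hf
    unfold isFunB at hf
    simp only [forces_inf, forces_ball_ordN, forces_bex_kapN] at hf ⊢
    intro q' hq'
    obtain ⟨r, hr, hT⟩ := F.dist_below (Iio x) (KD.small x)
      (fun u r => ∃ v : K, r ∈ ⨅ w, rel f (ordN u.1) w ⇨ beq w (ordN v)) q'
      (fun u s _ t hts ⟨v, h⟩ => ⟨v, h.down hts⟩)
      (fun u s hs => by
        obtain ⟨t, ht, v, h⟩ := hf u.1 u.2 s (hs.trans hq')
        exact ⟨t, ht, v, h.2⟩)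
    choose v hv using hT
    obtain ⟨b, hb⟩ := KD.reg v (KD.small x)
    refine ⟨r, hr, b, fun u hu => ?_⟩
    rw [forces_iInf]
    intro w
    rw [forces_himp]
    intro s hs hw
    have h1 := forces_iInf.1 ((hv ⟨u, hu⟩).down hs) w s le_rfl hw
    have h2 : s ∈ (mem (ordN (v ⟨u, hu⟩)) (ordN b) : RO P) := forces_mem_ordN.2 (hb ⟨u, hu⟩)
    exact le_iff_forces.1 (mem_congr_left (z := ordN b) (g := beq w (ordN (v ⟨u, hu⟩)) ⊓
      mem (ordN (v ⟨u, hu⟩)) (ordN b)) (bsymm inf_le_left) inf_le_right) s ⟨h1, h2⟩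

theorem powLt_V (F : FH P K) : (powLtB (kapN K) : RO P) = ⊤ := by
  obtain ⟨d, hd⟩ := exists_cS (K := K)
  let F' : BN (RO P) := BN.mk (Sq K K) (fun s => opair (ordN (d s)) (checkS s)) (fun _ => ⊤)
  have hrel : ∀ (x : K) (t : BN (RO P)),
      rel F' (ordN x) t ≤ ⨆ s : {s : Sq K K // d s = x}, beq t (checkS s.1) := by
    intro x t
    rw [rel, mem_mk]
    refine iSup_le fun s => ?_
    by_cases h : x = d s
    · exact bex_intro ⟨s, h.symm⟩ (opair_inj_right inf_le_right)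
    · have h1 := opair_inj_left (inf_le_right :
        (⊤ : RO P) ⊓ beq (opair (ordN x) t) (opair (ordN (d s)) (checkS s)) ≤ _)
      rw [beq_ordN_of_ne h] at h1
      exact h1.trans bot_le
  have hrel' : ∀ (s : Sq K K) (t : BN (RO P)), beq t (checkS s) ≤ rel F' (ordN (d s)) t := by
    intro s t
    rw [rel, mem_mk]
    exact bex_intro s (le_inf le_top (cong_opair brefl le_rfl))
  rw [eq_top_iff_forces]
  intro p
  unfold powLtB
  refine forces_iSup_of F' ?_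
  simp only [forces_ball_kapN]
  intro a
  rw [forces_iInf]
  intro s
  rw [forces_himp]
  intro q hq hs
  simp only [forces_bex_kapN]
  intro q' hq'
  obtain ⟨r, hr, s', hr2⟩ := fn_decide F a s q' (hs.down hq')
  refine ⟨r, hr, d ⟨a, s'⟩, forces_inf.2 ⟨le_iff_forces.1 (hrel' ⟨a, s'⟩ s) r hr2,
    forces_iInf.2 fun t => forces_himp.2 fun r' hr' ht => ?_⟩⟩
  have h1 := le_iff_forces.1 (hrel _ t) r' ht
  refine forces_of_dense fun q2 hq2 => ?_
  obtain ⟨r2, hr2', ⟨s2, hs2⟩, h2⟩ := forces_iSup.1 h1 q2 hq2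
  have h3 : s2 = ⟨a, s'⟩ := hd hs2
  subst h3
  refine ⟨r2, hr2', ?_⟩
  have h4 : r2 ∈ beq s (checkS ⟨a, s'⟩) := hr2.down (hr2'.trans (hq2.trans hr'))
  exact le_iff_forces.1 (btrans (g := beq t (checkS ⟨a, s'⟩) ⊓ beq s (checkS ⟨a, s'⟩)) inf_le_left
    (bsymm inf_le_right)) r2 ⟨h2, h4⟩

end H79.IZ
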