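import Pool.Agent.H79.IZ.RealA

/-!
# The ordinals `0`, `1`, `2`, `n + 1`, `ω`

PROOFS. `isZeroB_eq`: `beq_of_forall` and `mem_ordN` (no index, `KD.lt_nat`); `mem z (ordN (nat 1)) =
beq z (ordN (nat 0))`, `mem z (ordN (nat (n+1))) = mem z (ordN (nat n)) ⊔ beq z (ordN (nat n))` (as
`mem_ordN_succ` in `Pool.Agent.H85.Forcing.Final`) by `mem_ordN` and `KD.lt_nat`, `KD.nat_lt`; for the
equalities `isOneB x = beq x ..` use `beq_of_forall` (≤) and extensionality of `mem` (≥).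
`isOmB_om`: `forces_isLimB`, `KD.lt_om`, `KD.nat_lt`, `KD.lt_nat`, `eq_top_iff_forces`.
-/

universe u

namespace H79.IZ
open H85.Forcing BN RO Cardinal Set

variable {P : Type u} [Preorder P] {K : Type u} [LinearOrder K] [WellFoundedLT K]

/-- extensionality in terms of Boolean values -/
theorem code0_beq_eq_iInf (x y : BN (RO P)) :
    beq x y = ⨅ z, (mem z x ⇨ mem z y) ⊓ (mem z y ⇨ mem z x) := by
  apply le_antisymm
  · refine le_iInf fun z => le_inf ?_ ?_
    · rw [le_himp_iff]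
      exact mem_congr_right inf_le_left inf_le_right
    · rw [le_himp_iff]
      exact mem_congr_right (bsymm inf_le_left) inf_le_right
  · exact beq_of_forall (fun z => (iInf_le _ z).trans inf_le_left)
      (fun z => (iInf_le _ z).trans inf_le_right)

theorem code0_mem_nat_zero [KD K] (z : BN (RO P)) : mem z (ordN (KD.nat 0 : K)) = ⊥ := by
  rw [mem_ordN, iSup_eq_bot]
  rintro ⟨j, hj⟩
  obtain ⟨m, hm, -⟩ := KD.lt_nat hj
  exact absurd hm (Nat.not_lt_zero m)

theorem code0_mem_nat_succ [KD K] (n : ℕ) (z : BN (RO P)) :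
    mem z (ordN (KD.nat (n + 1) : K)) =
      mem z (ordN (KD.nat n : K)) ⊔ beq z (ordN (KD.nat n : K)) := by
  rw [mem_ordN, mem_ordN]
  apply le_antisymm
  · refine iSup_le ?_
    rintro ⟨j, hj⟩
    obtain ⟨m, hm, rfl⟩ := KD.lt_nat hj
    rcases (Nat.lt_succ_iff.1 hm).eq_or_lt with h | h
    · subst h
      exact le_sup_right
    · exact le_sup_of_le_left (le_iSup (fun j : {j : K // j < KD.nat n} => beq z (ordN j.1))
        ⟨KD.nat m, KD.nat_lt.2 h⟩)
  · refine sup_le ?_ ?_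
    · refine iSup_le ?_
      rintro ⟨j, hj⟩
      exact le_iSup (fun j : {j : K // j < KD.nat (n + 1)} => beq z (ordN j.1))
        ⟨j, hj.trans (KD.nat_lt.2 (Nat.lt_succ_self n))⟩
    · exact le_iSup (fun j : {j : K // j < KD.nat (n + 1)} => beq z (ordN j.1))
        ⟨KD.nat n, KD.nat_lt.2 (Nat.lt_succ_self n)⟩

theorem isZeroB_eq [KD K] (x : BN (RO P)) : isZeroB x = beq x (ordN (KD.nat 0 : K)) := by
  rw [code0_beq_eq_iInf]
  simp only [code0_mem_nat_zero, himp_bot, bot_himp, inf_top_eq]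
  rfl

theorem code0_mem_nat_one [KD K] (z : BN (RO P)) :
    mem z (ordN (KD.nat 1 : K)) = beq z (ordN (KD.nat 0 : K)) := by
  have := code0_mem_nat_succ (K := K) 0 z
  rw [code0_mem_nat_zero, bot_sup_eq, zero_add] at this
  exact this

theorem isOneB_eq [KD K] (x : BN (RO P)) : isOneB x = beq x (ordN (KD.nat 1 : K)) := by
  rw [code0_beq_eq_iInf]
  simp only [code0_mem_nat_one]
  unfold isOneB
  simp only [isZeroB_eq (K := K)]

theorem isTwoB_nat [KD K] : isTwoB (ordN (KD.nat 2 : K) : BN (RO P)) = ⊤ := by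
  have h : ∀ z : BN (RO P), mem z (ordN (KD.nat 2 : K)) =
      beq z (ordN (KD.nat 0 : K)) ⊔ beq z (ordN (KD.nat 1 : K)) := by
    intro z
    have := code0_mem_nat_succ (K := K) 1 z
    rw [code0_mem_nat_one] at this
    exact this
  unfold isTwoB
  simp only [isZeroB_eq (K := K), isOneB_eq (K := K), h, himp_self, inf_top_eq, iInf_top]

theorem isSuccB_nat [KD K] (n : ℕ) (x : BN (RO P)) :
    isSuccB (ordN (KD.nat n : K)) x = beq x (ordN (KD.nat (n + 1) : K)) := by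
  rw [code0_beq_eq_iInf]
  simp only [code0_mem_nat_succ]
  rfl

theorem isOmB_om [KD K] : isOmB (ordN (KD.om : K) : BN (RO P)) = ⊤ := by
  rw [eq_top_iff_forces]
  intro p
  unfold isOmB
  rw [forces_inf, forces_isLimB]
  refine ⟨⟨⟨KD.nat 0, KD.lt_om.2 ⟨0, rfl⟩⟩, ?_⟩, ?_⟩
  · intro β hβ
    obtain ⟨n, rfl⟩ := KD.lt_om.1 hβ
    exact ⟨KD.nat (n + 1), KD.lt_om.2 ⟨n + 1, rfl⟩, KD.nat_lt.2 (Nat.lt_succ_self n)⟩
  · rw [forces_ball_ordN]
    intro j hj
    obtain ⟨n, rfl⟩ := KD.lt_om.1 hj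
    rw [forces_compl]
    intro q _ hq
    rw [forces_isLimB] at hq
    obtain ⟨⟨β, hβ⟩, h⟩ := hq
    obtain ⟨m, hm, -⟩ := KD.lt_nat hβ
    obtain ⟨γ, hγ, h2⟩ := h (KD.nat (n - 1)) (KD.nat_lt.2 (by omega))
    obtain ⟨m', hm', rfl⟩ := KD.lt_nat hγ
    have := KD.nat_lt.1 h2
    omega

end H79.IZ
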