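import Pool.Agent.H85.Forcing.Los

/-!
# If a property has a name with value `⊤`, every element of the model with the property has one

PROOF: `exists_mix` with the index type `ULift Bool`, the names `x`, `x₀` and the values `φ x`, `(φ x)ᶜ`:
`φ x ≤ beq x' x` and `(φ x)ᶜ ≤ beq x' x₀`, so `φ x' = ⊤` by `Ext`.
-/

universe u

namespace H79.IZ
open H85.Forcing BN

variable {B : Type u} [CompleteBooleanAlgebra B]

theorem exists_top {φ : BN B → B} (hφ : Ext φ) {x₀ : BN B} (h0 : φ x₀ = ⊤) (x : BN B) :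
    ∃ x', φ x' = ⊤ ∧ φ x ≤ beq x' x := by
  obtain ⟨x', hx'⟩ := exists_mix (I := ULift.{u} Bool) (fun i => if i.down then x else x₀)
    (fun i => if i.down then φ x else (φ x)ᶜ) (by
      rintro ⟨i⟩ ⟨j⟩ hij
      cases i <;> cases j <;> simp at hij ⊢)
  have h1 : φ x ≤ beq x' x := by
    have := hx' ⟨true⟩
    simpa using this
  have h2 : (φ x)ᶜ ≤ beq x' x₀ := by
    have := hx' ⟨false⟩
    simpa using this
  refine ⟨x', top_unique ?_, h1⟩
  have h3 : φ x ≤ φ x' := by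
    refine le_trans (le_inf ?_ le_rfl) (hφ x x')
    rw [beq_symm]
    exact h1
  have h4 : (φ x)ᶜ ≤ φ x' := by
    refine le_trans (le_inf ?_ ?_) (hφ x₀ x')
    · rw [beq_symm]
      exact h2
    · rw [h0]
      exact le_top
  rw [← sup_compl_eq_top (x := φ x)]
  exact sup_le h3 h4

theorem exists_top_cl (U : Ult B) {φ : BN B → B} (hφ : Ext φ) {x₀ : BN B} (h0 : φ x₀ = ⊤)
    (x : BN B) (hx : U.T (φ x)) : ∃ x', φ x' = ⊤ ∧ cl U x' = cl U x := by
  obtain ⟨x', h1, h2⟩ := exists_top hφ h0 x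
  exact ⟨x', h1, (cl_eq U).2 (U.mono h2 hx)⟩

end H79.IZ
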