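import Pool.Agent.H79.IZ.Real
import Pool.Agent.H79.IZ.Code0
import Pool.Agent.H79.IZ.Mix

/-!
# Codings `e : ω × κ × κ → κ` and the structure coded by an element of `2^κ`

PROOFS.
* `totC_of`: unfold `isCodeB`, `forces_ball_ordN` (with `KD.lt_om`), `forces_ball_kapN`,
  `forces_bex_kapN`, `forces_beq_ordN`, `nat_inj`.
* `eqB_eq`: (≤) a member `c` of the sup with `rel3 e n i j c`: densely `rel3 e n i j x` for some `x : K`,
  so `c = x` by single valuedness (the second part of `isCodeB` for the names `c`, `ordN x`); `o` with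
  `isOneB o` equals `ordN (nat 1)` (`isOneB_eq`). (≥) immediate. `rel_realN_one`.
* `exists_codeTop`: the name `mk (ULift ℕ × K × K) (fun t => opair (opair n (opair i j)) (c3 n i j)) ⊤`.
-/

universe u

namespace H79.IZ
open H85.Forcing BN RO Cardinal Set

variable {P : Type u} [Preorder P] {K : Type u} [LinearOrder K] [WellFoundedLT K]

/-- `C` is (a name of) an injective function from `ω × κ × κ` to `κ` -/
structure TotC (C : ℕ → K → K → K → RO P) : Prop where
  total : ∀ n i j, ∀ p : P, ∃ q ≤ p, ∃ x, q ∈ C n i j x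
  inj : ∀ (p : P) n i j x n' i' j' x', p ∈ C n i j x → p ∈ C n' i' j' x' →
    (x = x' ↔ (n = n' ∧ i = i' ∧ j = j'))

/-- the structure coded by `R ∈ 2^κ` via `C` -/
def SA (C : ℕ → K → K → K → RO P) (R : K → RO P) (n : ℕ) (i j : K) : RO P := ⨆ x, C n i j x ⊓ R x

variable [KD K]

/-- the function `ω × κ × κ → κ` with the name `e` -/
noncomputable def codeR (e : BN (RO P)) (n : ℕ) (i j x : K) : RO P :=
  rel3 e (ordN (KD.nat n : K)) (ordN i) (ordN j) (ordN x)

private theorem code_forces (e : BN (RO P)) (he : isCodeB (ordN (KD.om : K)) (kapN K) e = ⊤) :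
    (∀ n (i j : K), ∀ p : P, ∃ q ≤ p, ∃ c : K,
      q ∈ rel3 e (ordN (KD.nat n : K)) (ordN i) (ordN j) (ordN c)) ∧
    (∀ n (i j : K) n' (i' j' : K) (c c' : BN (RO P)) (p : P),
      p ∈ rel3 e (ordN (KD.nat n : K)) (ordN i) (ordN j) c →
      p ∈ rel3 e (ordN (KD.nat n' : K)) (ordN i') (ordN j') c' →
      (p ∈ beq c c' ↔ (n = n' ∧ i = i' ∧ j = j'))) := by
  constructor
  · intro n i j p
    have h := eq_top_iff_forces.1 he p
    unfold isCodeB at h
    have h1 := (forces_inf.1 h).1
    simp only [forces_ball_ordN, forces_ball_kapN, forces_bex_kapN] at h1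
    exact h1 (KD.nat n) (KD.lt_om.2 ⟨n, rfl⟩) i j p le_rfl
  · intro n i j n' i' j' c c' p hc hc'
    have h := eq_top_iff_forces.1 he p
    unfold isCodeB at h
    have h1 := (forces_inf.1 h).2
    simp only [forces_ball_ordN, forces_ball_kapN] at h1
    have h2 := h1 (KD.nat n) (KD.lt_om.2 ⟨n, rfl⟩) i j (KD.nat n') (KD.lt_om.2 ⟨n', rfl⟩) i' j'
    have h3 := forces_iInf.1 (forces_iInf.1 h2 c) c'
    have h4 := forces_himp.1 (forces_himp.1 h3 p le_rfl hc) p le_rfl hc'
    have h5 := forces_himp.1 (forces_inf.1 h4).1 p le_rfl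
    have h6 := forces_himp.1 (forces_inf.1 h4).2 p le_rfl
    simp only [forces_inf, forces_beq_ordN, nat_inj] at h5 h6
    exact ⟨h5, h6⟩

theorem totC_of (e : BN (RO P)) (he : isCodeB (ordN (KD.om : K)) (kapN K) e = ⊤) :
    TotC (codeR e : ℕ → K → K → K → RO P) := by
  obtain ⟨h1, h2⟩ := code_forces e he
  refine ⟨fun n i j p => h1 n i j p, ?_⟩
  intro p n i j x n' i' j' x' hx hx'
  have h3 := h2 n i j n' i' j' _ _ p hx hx'
  rw [forces_beq_ordN] at h3
  exact h3

theorem eqB_eq (e : BN (RO P)) (he : isCodeB (ordN (KD.om : K)) (kapN K) e = ⊤) (R : K → RO P)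
    (n : ℕ) (i j : K) :
    eqB e (realN R) (ordN (KD.nat n : K)) (ordN i) (ordN j) = SA (codeR e) R n i j := by
  obtain ⟨h1, h2⟩ := code_forces e he
  apply le_antisymm
  · refine iSup_le fun c => ?_
    intro p hp
    obtain ⟨hc, ho⟩ := forces_inf.1 hp
    refine forces_iSup.2 fun q hq => ?_
    obtain ⟨r, hr, x, hx⟩ := h1 n i j q
    obtain ⟨s, hs, o, hso⟩ := forces_iSup.1 ho r (hr.trans hq)
    refine ⟨s, hs.trans hr, x, ?_⟩
    have hsp : s ≤ p := hs.trans (hr.trans hq)
    have hcx : s ∈ beq c (ordN x) := (h2 n i j n i j c (ordN x) s (hc.down hsp) (hx.down hs)).2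
      ⟨rfl, rfl, rfl⟩
    refine forces_inf.2 ⟨hx.down hs, ?_⟩
    obtain ⟨hso1, hso2⟩ := forces_inf.1 hso
    rw [isOneB_eq (K := K)] at hso1
    rw [← rel_realN_one R x]
    have hcong : beq c (ordN x) ⊓ beq o (ordN (KD.nat 1 : K)) ≤
        beq (opair c o) (opair (ordN x) (ordN (KD.nat 1 : K))) :=
      cong_opair inf_le_left inf_le_right
    have h3 : beq c (ordN x) ⊓ beq o (ordN (KD.nat 1 : K)) ⊓ rel (realN R) c o ≤
        rel (realN R) (ordN x) (ordN (KD.nat 1 : K)) :=
      mem_congr_left (inf_le_left.trans hcong) inf_le_right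
    exact Forces.mono (forces_inf.2 ⟨forces_inf.2 ⟨hcx, hso1⟩, hso2⟩) h3
  · refine iSup_le fun x => ?_
    refine bex_intro (ordN x) (le_inf inf_le_left (bex_intro (ordN (KD.nat 1 : K)) (le_inf ?_ ?_)))
    · rw [isOneB_eq (K := K)]
      exact brefl
    · rw [rel_realN_one]
      exact inf_le_right

theorem exists_codeTop : ∃ e : BN (RO P), isCodeB (ordN (KD.om : K)) (kapN K) e = ⊤ := by
  let e : BN (RO P) := mk (ULift.{u} ℕ × K × K)
    (fun t => opair (opair (ordN (KD.nat t.1.down : K)) (opair (ordN t.2.1) (ordN t.2.2)))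
      (ordN (c3 t.1.down t.2.1 t.2.2))) (fun _ => ⊤)
  have hrel : ∀ (n : ℕ) (i j : K) (c : BN (RO P)),
      rel3 e (ordN (KD.nat n : K)) (ordN i) (ordN j) c = beq c (ordN (c3 n i j)) := by
    intro n i j c
    rw [rel3, rel, mem_mk]
    apply le_antisymm
    · refine iSup_le fun t => ?_
      obtain ⟨n', i', j'⟩ := t
      refine inf_le_right.trans ?_
      have h0 : beq (opair (opair (ordN (KD.nat n : K)) (opair (ordN i) (ordN j))) c)
          (opair (opair (ordN (KD.nat n'.down : K)) (opair (ordN i') (ordN j')))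
            (ordN (c3 n'.down i' j'))) ≤ beq c (ordN (c3 n'.down i' j') : BN (RO P)) :=
        opair_inj_right le_rfl
      have h1 : beq (opair (opair (ordN (KD.nat n : K)) (opair (ordN i) (ordN j))) c)
          (opair (opair (ordN (KD.nat n'.down : K)) (opair (ordN i') (ordN j')))
            (ordN (c3 n'.down i' j'))) ≤ beq (ordN (KD.nat n : K) : BN (RO P))
              (ordN (KD.nat n'.down : K)) :=
        opair_inj_left (opair_inj_left le_rfl)
      have h2 : beq (opair (opair (ordN (KD.nat n : K)) (opair (ordN i) (ordN j))) c)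
          (opair (opair (ordN (KD.nat n'.down : K)) (opair (ordN i') (ordN j')))
            (ordN (c3 n'.down i' j'))) ≤ beq (ordN i : BN (RO P)) (ordN i') :=
        opair_inj_left (opair_inj_right (opair_inj_left le_rfl))
      have h3 : beq (opair (opair (ordN (KD.nat n : K)) (opair (ordN i) (ordN j))) c)
          (opair (opair (ordN (KD.nat n'.down : K)) (opair (ordN i') (ordN j')))
            (ordN (c3 n'.down i' j'))) ≤ beq (ordN j : BN (RO P)) (ordN j') :=
        opair_inj_right (opair_inj_right (opair_inj_left le_rfl))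
      by_cases hn : n = n'.down
      · by_cases hi : i = i'
        · by_cases hj : j = j'
          · subst hn; subst hi; subst hj
            exact h0
          · rw [beq_ordN_of_ne hj] at h3
            exact h3.trans bot_le
        · rw [beq_ordN_of_ne hi] at h2
          exact h2.trans bot_le
      · have hn2 : (KD.nat n : K) ≠ KD.nat n'.down := fun h => hn (nat_inj.1 h)
        rw [beq_ordN_of_ne hn2] at h1
        exact h1.trans bot_le
    · refine bex_intro (ULift.up n, i, j) (le_inf le_top ?_)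
      exact cong_opair brefl le_rfl
  refine ⟨e, eq_top_iff_forces.2 fun p => ?_⟩
  unfold isCodeB
  refine forces_inf.2 ⟨?_, ?_⟩
  · simp only [forces_ball_ordN, forces_ball_kapN, forces_bex_kapN]
    intro n hn i j q hq
    obtain ⟨m, rfl⟩ := KD.lt_om.1 hn
    refine ⟨q, le_rfl, c3 m i j, ?_⟩
    rw [hrel, beq_refl]
    exact forces_top
  · simp only [forces_ball_ordN, forces_ball_kapN]
    intro n hn i j n' hn' i' j'
    obtain ⟨m, rfl⟩ := KD.lt_om.1 hn
    obtain ⟨m', rfl⟩ := KD.lt_om.1 hn'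
    refine forces_iInf.2 fun c => forces_iInf.2 fun c' => forces_himp.2 fun q hq hc =>
      forces_himp.2 fun r hr hc' => ?_
    rw [hrel] at hc hc'
    have hc2 : r ∈ beq c (ordN (c3 m i j)) := hc.down hr
    refine forces_inf.2 ⟨forces_himp.2 fun s hs hcc => ?_, forces_himp.2 fun s hs hcc => ?_⟩
    · have h1 : s ∈ beq (ordN (c3 m i j)) c := by rw [beq_symm]; exact hc2.down hs
      have h2 : s ∈ beq (ordN (c3 m i j)) (ordN (c3 m' i' j')) :=
        Forces.mono (forces_inf.2 ⟨Forces.mono (forces_inf.2 ⟨h1, hcc⟩) (beq_trans _ _ _),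
          hc'.down hs⟩) (beq_trans _ _ _)
      rw [forces_beq_ordN, c3_inj] at h2
      simp only [forces_inf, forces_beq_ordN, nat_inj]
      exact h2
    · simp only [forces_inf, forces_beq_ordN, nat_inj] at hcc
      obtain ⟨rfl, rfl, rfl⟩ := hcc
      have h1 : s ∈ beq (ordN (c3 m i j)) c' := by rw [beq_symm]; exact hc'.down hs
      exact Forces.mono (forces_inf.2 ⟨hc2.down hs, h1⟩) (beq_trans _ _ _)

end H79.IZ
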