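import Pool.Agent.H79.IZ.Sig

/-!
# Comprehension: a name of the set of triples with `φ`

PROOF of `triB_compN`: `triB C η ξ ζ = mem (opair η (opair ξ ζ)) C`, `mem_mk`. (≥) is `bex_intro` with
the index `(R, S, Z)`. (≤): for an index `(R', S', Z')` and `p ∈ φ R' S' Z' ⊓ beq (opair ..) (opair ..)`:
by `opair_inj_left`, `opair_inj_right` (applied to `BN` values, `le_iff_forces`) `p ∈ beq (realN R) (realN R')`,
..., hence `EqAt p R' R` etc. by `beq_realN`, `beq_relN`, and `Ext3` gives `p ∈ φ R S Z`.
-/

universe u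

namespace H79.IZ
open H85.Forcing BN RO Cardinal Set

variable {P : Type u} [Preorder P] {K : Type u} [LinearOrder K] [WellFoundedLT K] [KD K]

/-- the name of the set of all triples with `φ` -/
noncomputable def compN (φ : (K → RO P) → (K → RO P) → (K → K → RO P) → RO P) : BN (RO P) :=
  BN.mk ((K → RO P) × (K → RO P) × (K → K → RO P))
    (fun t => opair (realN t.1) (opair (realN t.2.1) (relN t.2.2))) (fun t => φ t.1 t.2.1 t.2.2)

theorem triB_compN {φ : (K → RO P) → (K → RO P) → (K → K → RO P) → RO P} (hφ : Ext3 φ)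
    (R S : K → RO P) (Z : K → K → RO P) :
    triB (compN φ) (realN R) (realN S) (relN Z) = φ R S Z := by
  unfold triB rel compN
  rw [mem_mk]
  apply le_antisymm
  · refine iSup_le ?_
    rintro ⟨R', S', Z'⟩
    rw [le_iff_forces]
    intro p hp
    obtain ⟨h1, h2⟩ := forces_inf.1 hp
    have e1 : p ∈ beq (realN R) (realN R') := le_iff_forces.1 (opair_inj_left le_rfl) p h2
    have e2 : p ∈ beq (opair (realN S) (relN Z)) (opair (realN S') (relN Z')) :=
      le_iff_forces.1 (opair_inj_right le_rfl) p h2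
    have e3 : p ∈ beq (realN S) (realN S') := le_iff_forces.1 (opair_inj_left le_rfl) p e2
    have e4 : p ∈ beq (relN Z) (relN Z') := le_iff_forces.1 (opair_inj_right le_rfl) p e2
    rw [beq_realN] at e1 e3
    rw [beq_relN] at e4
    exact hφ p R' S' Z' R S Z (fun i q hq => (e1 i q hq).symm) (fun i q hq => (e3 i q hq).symm)
      (fun i j q hq => (e4 i j q hq).symm) h1
  · refine le_iSup_of_le (R, S, Z) ?_
    rw [beq_refl]
    simp

end H79.IZ
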