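import Pool.Agent.H79.IZ.RegV
import Pool.Agent.H79.IZ.Fun

/-!
# If `T(A, A')` embeds in `T*` then `A` and `A'` are not isomorphic, and conversely

PROOF of `emb_not_iso`. Suppose `q ≤ p` forces `H : A → A'` to be an isomorphism and `F` to be an
embedding (both at `q`, after going down). For `a : K` by `dist_below` densely many `r ≤ q` decide
`h = H|a` and `g = H⁻¹|a`: there is `x : Sq K (K × K)`, `x.1 = a`, with
(*) `r ∈ H i (x i).1` and `r ∈ H (x i).2 i` for all `i < a`;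
and then `TreeAt r A A' x` (`IsoAt.inj`, `IsoAt.iso`). Let `Br r x` be (*). If `Br r x`, `Br r y`,
`x.1 ≤ y.1` then `Sq.Le x y`. Let `Z i j` be the regular set of all `r` such that densely below `r` there
are `r'`, `x`, `s` with `Br r' x`, `r' ∈ F x s`, `i < s.1`, `s i = j` (use `exF` of `RegV`). Below `q`
`Z` is total (take `a > i`) and single valued (`EmbAt.mono`). `F.nobranch` gives `r ≤ q` and `s` with
`r ∈ Z i (s i)` for `i < s.1` and `r ∈ (Ts s)ᶜ`. Take `r' ≤ r`, `x` with `x.1 = s.1` and `Br r' x`, then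
`r'' ≤ r'` and `t` with `r'' ∈ F x t`; `t.1 = x.1 = s.1`, `r'' ∈ Ts t`, and `t i = s i` for `i < s.1`
(as `r'' ∈ Z i (t i)` and `Z` is single valued), so `t = s`: contradiction.

PROOF of `not_iso_emb`: `F.alt` at all `q ≤ p`.
-/

universe u

namespace H79.IZ
open H85.Forcing BN RO Cardinal Set

variable {P : Type u} [Preorder P] {K : Type u} [LinearOrder K] [WellFoundedLT K] [KD K]

/-- `x` codes the restrictions of `H` and of its inverse -/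
def BrH (H : K → K → RO P) (r : P) (x : Sq K (K × K)) : Prop :=
  ∀ i (h : i < x.1), r ∈ H i (x.2 ⟨i, h⟩).1 ∧ r ∈ H (x.2 ⟨i, h⟩).2 i

theorem BrH.down {H : K → K → RO P} {r q : P} {x : Sq K (K × K)} (h : BrH H r x) (hq : q ≤ r) :
    BrH H q x := fun i hi => ⟨(h i hi).1.down hq, (h i hi).2.down hq⟩

theorem BrH.gr {H : K → K → RO P} {r : P} {x : Sq K (K × K)} (h : BrH H r x) {i j : K}
    (hg : Gr x i j) : r ∈ H i j := by
  rcases hg with ⟨hi, rfl⟩ | ⟨hj, rfl⟩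
  · exact (h i hi).1
  · exact (h j hj).2

theorem brH_dec (F : FH P K) {A A' : ℕ → K → K → RO P} {p : P} {H : K → K → RO P}
    (hH : IsoAt p A A' H) (a : K) (q : P) (hq : q ≤ p) :
    ∃ r ≤ q, ∃ v : Iio a → K × K, BrH H r ⟨a, v⟩ := by
  obtain ⟨r, hr, hD⟩ := F.dist_below (Iio a) (KD.small a)
    (fun i r => ∃ v : K × K, r ∈ H i v.1 ∧ r ∈ H v.2 i) q
    (fun i q' _ r hr ⟨v, h1, h2⟩ => ⟨v, h1.down hr, h2.down hr⟩)
    (fun i q' hq' => by
      obtain ⟨r, hr, j, hj⟩ := hH.total i q' (hq'.trans hq)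
      obtain ⟨s, hs, k, hk⟩ := hH.onto i r (hr.trans (hq'.trans hq))
      exact ⟨s, hs.trans hr, (j, k), hj.down hs, hk⟩)
  choose v hv using hD
  exact ⟨r, hr, v, fun i hi => hv ⟨i, hi⟩⟩

theorem brH_tree {A A' : ℕ → K → K → RO P} {p : P} {H : K → K → RO P}
    (hH : IsoAt p A A' H) {r : P} (hr : r ≤ p) {x : Sq K (K × K)} (h : BrH H r x) :
    TreeAt r A A' x where
  inj i j i' j' h1 h2 := hH.inj i j i' j' r hr (h.gr h1) (h.gr h2)
  iso n i j i' j' h1 h2 q hq := hH.iso n i j i' j' q (hq.trans hr) ((h.gr h1).down hq)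
    ((h.gr h2).down hq)

theorem brH_le {A A' : ℕ → K → K → RO P} {p : P} {H : K → K → RO P}
    (hH : IsoAt p A A' H) {r : P} (hr : r ≤ p) {x y : Sq K (K × K)} (h : BrH H r x)
    (h' : BrH H r y) (hxy : x.1 ≤ y.1) : Sq.Le x y := by
  refine ⟨hxy, fun i hi hi' => Prod.ext ?_ ?_⟩
  · exact (hH.inj i i _ _ r hr (h i hi).1 (h' i hi').1).1 rfl
  · exact (hH.inj _ _ i i r hr (h i hi).2 (h' i hi').2).2 rfl

theorem iso_emb_false (F : FH P K) {A A' : ℕ → K → K → RO P} {p : P} {H : K → K → RO P}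
    (hH : IsoAt p A A' H) {Fe : Sq K (K × K) → Sq K K → RO P} (hE : EmbAt p A A' F.Ts Fe) :
    False := by
  let Z : K → K → RO P := fun i j => exF fun r (w : Sq K (K × K) × Sq K K) =>
    BrH H r w.1 ∧ r ∈ Fe w.1 w.2 ∧ ∃ h : i < w.2.1, w.2.2 ⟨i, h⟩ = j
  have hZ : ∀ {i j : K} {r : P}, r ∈ Z i j ↔ ∀ q ≤ r, ∃ r' ≤ q, ∃ w : Sq K (K × K) × Sq K K,
      BrH H r' w.1 ∧ r' ∈ Fe w.1 w.2 ∧ ∃ h : i < w.2.1, w.2.2 ⟨i, h⟩ = j := Iff.rfl
  have hZof : ∀ {i : K} {r : P} {x : Sq K (K × K)} {s : Sq K K}, BrH H r x → r ∈ Fe x s →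
      ∀ h : i < s.1, r ∈ Z i (s.2 ⟨i, h⟩) := by
    intro i r x s hb hF h
    rw [hZ]
    exact fun q hq => ⟨q, le_rfl, (x, s), hb.down hq, hF.down hq, h, rfl⟩
  have htot : ∀ i, ∀ q ≤ p, ∃ r ≤ q, ∃ j, r ∈ Z i j := by
    intro i q hq
    obtain ⟨a, ha⟩ := exists_gt' i
    obtain ⟨r, hr, v, hv⟩ := brH_dec F hH a q hq
    obtain ⟨r', hr', s, hs⟩ := hE.total ⟨a, v⟩ r (hr.trans hq) (brH_tree hH (hr.trans hq) hv)
    have hm := (hE.mem _ _ r' (hr'.trans (hr.trans hq)) hs).1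
    have hi : i < s.1 := by rw [hm]; exact ha
    exact ⟨r', hr'.trans hr, _, hZof (hv.down hr') hs hi⟩
  have hsv : ∀ i j j', ∀ q ≤ p, q ∈ Z i j → q ∈ Z i j' → j = j' := by
    intro i j j' q hq h1 h2
    obtain ⟨q1, hq1, w1, hb1, hF1, hi1, rfl⟩ := hZ.1 h1 q le_rfl
    obtain ⟨q2, hq2, w2, hb2, hF2, hi2, rfl⟩ := hZ.1 h2 q1 hq1
    have hq2p : q2 ≤ p := hq2.trans (hq1.trans hq)
    rcases le_total w1.1.1 w2.1.1 with hle | hle
    · exact (hE.mono _ _ _ _ (brH_le hH hq2p (hb1.down hq2) hb2 hle) q2 hq2p (hF1.down hq2)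
        hF2).2 i hi1 hi2
    · exact ((hE.mono _ _ _ _ (brH_le hH hq2p hb2 (hb1.down hq2) hle) q2 hq2p hF2
        (hF1.down hq2)).2 i hi2 hi1).symm
  obtain ⟨q, hq, s, hs, hn⟩ := F.nobranch Z p htot hsv
  obtain ⟨r, hr, v, hv⟩ := brH_dec F hH s.1 q hq
  obtain ⟨r', hr', t, ht⟩ := hE.total ⟨s.1, v⟩ r (hr.trans hq) (brH_tree hH (hr.trans hq) hv)
  have hr'p : r' ≤ p := hr'.trans (hr.trans hq)
  obtain ⟨hm, hT⟩ := hE.mem _ _ r' hr'p ht
  have hts : t = s := by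
    have hval : ∀ i (h : i < t.1) (h' : i < s.1), t.2 ⟨i, h⟩ = s.2 ⟨i, h'⟩ := fun i h h' =>
      hsv i _ _ r' hr'p (hZof (hv.down hr') ht h) ((hs i h').down (hr'.trans hr))
    obtain ⟨t1, t2⟩ := t
    obtain ⟨s1, s2⟩ := s
    have hm' : t1 = s1 := hm
    subst hm'
    congr
    funext i
    exact hval i.1 i.2 i.2
  subst hts
  exact forces_compl.1 hn r' (hr'.trans hr) hT

theorem emb_not_iso (F : FH P K) (A A' : ℕ → K → K → RO P) (p : P) (h : p ∈ EmbF F.Ts A A') :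
    p ∈ (IsoF A A')ᶜ := by
  rw [forces_compl]
  intro q hq hI
  obtain ⟨r, hr, H, hH⟩ := mem_IsoF.1 hI q le_rfl
  obtain ⟨r', hr', Fe, hE⟩ := mem_EmbF.1 h r (hr.trans hq)
  exact iso_emb_false F (hH.down hr') hE

theorem not_iso_emb (F : FH P K) (A A' : ℕ → K → K → RO P) (p : P) (h1 : RefAt p A)
    (h2 : RefAt p A') (h : p ∈ (IsoF A A')ᶜ) : p ∈ EmbF F.Ts A A' := by
  rw [mem_EmbF]
  intro q hq
  rcases F.alt A A' q (h1.down hq) (h2.down hq) with ⟨q', hq', H, hH⟩ | ⟨Fe, hE⟩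
  · exact absurd (mem_IsoF.2 fun r hr => ⟨r, le_rfl, H, hH.down hr⟩)
      (forces_compl.1 h q' (hq'.trans hq))
  · exact ⟨q, le_rfl, Fe, hE⟩

end H79.IZ
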