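import Pool.Agent.H79.IZ.Real

/-!
# Making a relation a total function

PROOF. `W' i j = W i j ⊓ ⨅ j' ≠ j, (W i j')ᶜ` is single valued; `mkTot W i j = W' i j ⊔
(⨆ j', W' i j')ᶜ` for `j = nat 0`, and `W' i j` for `j ≠ nat 0`.
-/

universe u

namespace H79.IZ
open H85.Forcing BN RO Cardinal Set

variable {P : Type u} [Preorder P] {K : Type u} [LinearOrder K] [WellFoundedLT K] [KD K]

theorem exists_mkTot (W : K → K → RO P) : ∃ Z : K → K → RO P, TotF Z ∧
    (∀ p i, (∀ j j', ∀ q ≤ p, q ∈ W i j → q ∈ W i j' → j = j') → ∀ j, p ∈ W i j → p ∈ Z i j) ∧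
    (∀ p i, (∀ j j', ∀ q ≤ p, q ∈ W i j → q ∈ W i j' → j = j') →
      (∀ q ≤ p, ∃ r ≤ q, ∃ j, r ∈ W i j) → ∀ j, (p ∈ Z i j ↔ p ∈ W i j)) := by
  classical
  let W' : K → K → RO P := fun i j => W i j ⊓ ⨅ j' : {j' // j' ≠ j}, (W i j'.1)ᶜ
  let Z : K → K → RO P := fun i j =>
    if j = KD.nat 0 then W' i j ⊔ (⨆ j', W' i j')ᶜ else W' i j
  have hW'W : ∀ i j (p : P), p ∈ W' i j → p ∈ W i j := fun i j p h => (forces_inf.1 h).1
  have hW'u : ∀ i j j' (p : P), p ∈ W' i j → p ∈ W i j' → j = j' := by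
    intro i j j' p h h'
    by_contra hne
    have h1 := forces_iInf.1 (forces_inf.1 h).2 ⟨j', fun e => hne e.symm⟩
    exact forces_compl.1 h1 p le_rfl h'
  have hW'Z : ∀ i j (p : P), p ∈ W' i j → p ∈ Z i j := by
    intro i j p h
    by_cases hj : j = KD.nat 0
    · simp only [Z, if_pos hj]
      exact forces_sup.2 fun q hq => ⟨q, le_rfl, Or.inl (h.down hq)⟩
    · simp only [Z, if_neg hj]
      exact h
  have hWW' : ∀ (p : P) i, (∀ j j', ∀ q ≤ p, q ∈ W i j → q ∈ W i j' → j = j') →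
      ∀ j, ∀ q ≤ p, q ∈ W i j → q ∈ W' i j := by
    intro p i h j q hq hj
    refine forces_inf.2 ⟨hj, forces_iInf.2 fun j' => forces_compl.2 fun r hr h' => ?_⟩
    exact j'.2 (h j j'.1 r (hr.trans hq) (hj.down hr) h').symm
  refine ⟨Z, ⟨fun i p => ?_, fun i j j' p h h' => ?_⟩, fun p i h j hj => ?_,
    fun p i h hd j => ⟨fun hz => ?_, fun hj => ?_⟩⟩
  · by_cases hex : ∃ q ≤ p, ∃ j, q ∈ W' i j
    · obtain ⟨q, hq, j, hj⟩ := hex
      exact ⟨q, hq, j, hW'Z i j q hj⟩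
    · refine ⟨p, le_rfl, KD.nat 0, ?_⟩
      simp only [Z, if_true]
      refine forces_sup.2 fun q hq => ⟨q, le_rfl, Or.inr (forces_compl.2 fun r hr hs => ?_)⟩
      obtain ⟨t, ht, j, hj⟩ := forces_iSup.1 hs r le_rfl
      exact hex ⟨t, ht.trans (hr.trans hq), j, hj⟩
  · have key : ∀ j', j' ≠ KD.nat 0 → p ∈ Z i (KD.nat 0) → p ∈ Z i j' → False := by
      intro j' hj' h1 h2
      simp only [Z, if_true] at h1
      simp only [Z, if_neg hj'] at h2
      obtain ⟨r, hr, h3⟩ := forces_sup.1 h1 p le_rfl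
      rcases h3 with h3 | h3
      · exact hj' (hW'u i _ _ r h3 (hW'W i j' r (h2.down hr))).symm
      · exact forces_compl.1 h3 r le_rfl (forces_iSup_of j' (h2.down hr))
    by_cases hj : j = KD.nat 0
    · by_cases hj' : j' = KD.nat 0
      · rw [hj, hj']
      · exact (key j' hj' (hj ▸ h) h').elim
    · by_cases hj' : j' = KD.nat 0
      · exact (key j hj (hj' ▸ h') h).elim
      · simp only [Z, if_neg hj] at h
        simp only [Z, if_neg hj'] at h'
        exact hW'u i j j' p h (hW'W i j' p h')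
  · exact hW'Z i j p (hWW' p i h j p le_rfl hj)
  · by_cases hj : j = KD.nat 0
    · simp only [Z, if_pos hj] at hz
      refine forces_of_dense fun q hq => ?_
      obtain ⟨r, hr, h3⟩ := forces_sup.1 hz q hq
      rcases h3 with h3 | h3
      · exact ⟨r, hr, hW'W i j r h3⟩
      · exfalso
        obtain ⟨t, ht, j', hj'⟩ := hd r (hr.trans hq)
        exact forces_compl.1 h3 t ht
          (forces_iSup_of j' (hWW' p i h j' t (ht.trans (hr.trans hq)) hj'))
    · simp only [Z, if_neg hj] at hz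
      exact hW'W i j p hz
  · exact hW'Z i j p (hWW' p i h j p le_rfl hj)

/-- a total function which is `W` where `W` is one -/
noncomputable def mkTot (W : K → K → RO P) : K → K → RO P := (exists_mkTot W).choose

theorem totF_mkTot (W : K → K → RO P) : TotF (mkTot W) := (exists_mkTot W).choose_spec.1

theorem mkTot_of {W : K → K → RO P} {p : P} {i : K}
    (h : ∀ j j', ∀ q ≤ p, q ∈ W i j → q ∈ W i j' → j = j') {j : K} (hj : p ∈ W i j) :
    p ∈ mkTot W i j := (exists_mkTot W).choose_spec.2.1 p i h j hj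

theorem mkTot_iff {W : K → K → RO P} {p : P} {i : K}
    (h : ∀ j j', ∀ q ≤ p, q ∈ W i j → q ∈ W i j' → j = j')
    (h' : ∀ q ≤ p, ∃ r ≤ q, ∃ j, r ∈ W i j) (j : K) : p ∈ mkTot W i j ↔ p ∈ W i j :=
  (exists_mkTot W).choose_spec.2.2 p i h h' j

end H79.IZ
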