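import Pool.Agent.H79.IZ.Code
import Pool.Agent.H79.IZ.RegV
import Pool.Agent.H79.IZ.Tot

/-!
# The value of `IsoTo`

PROOF. Unfold `isoToB`. (≤): a name `h` and `p` in all four parts; `H i j := rel h (ordN i) (ordN j)`;
`IsoAt.total` from `isFnB h kap kap` (second half: some `v` with `rel h (ordN i) v`; by the first half
of `isFnB` the pair `(i, v)` has `v ∈ kap`, so densely `v = ordN j`; or use `isFnB_le` and
`rel_relN_left`); `onto` from the second part, `inj` from uniqueness and the third part, `iso` from the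
last part and `eqB_eq`. (≥): given `r` and `H` with `IsoAt r A A' H` take the name `relN (mkTot H)`:
this is a name of a function (`isFnB_relN`, `totF_mkTot`) and below `r` it is `H` (`mkTot_iff`); then
check the parts, `rel (relN Z) (ordN i) v = ⨆ j, Z i j ⊓ beq v (ordN j)` (`rel_relN_left`).
-/

universe u

namespace H79.IZ
open H85.Forcing BN RO Cardinal Set

variable {P : Type u} [Preorder P] {K : Type u} [LinearOrder K] [WellFoundedLT K] [KD K]

theorem fapp {φ : BN (RO P) → RO P} [hφ : ExtC φ] {x y : BN (RO P)} {p : P}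
    (h : p ∈ beq x y) : p ∈ φ x ↔ p ∈ φ y :=
  ⟨fun h1 => hφ.h x y p ⟨h, h1⟩, fun h1 => hφ.h y x p ⟨by rw [beq_symm]; exact h, h1⟩⟩

/-- the condition form of the body of `isoToB` -/
theorem forces_isoBody (e η ξ f : BN (RO P)) (p : P) :
    p ∈ (isFnB f (kapN K) (kapN K) ⊓
    ((⨅ v, mem v (kapN K) ⇨ ⨆ u, mem u (kapN K) ⊓ rel f u v) ⊓
    ((⨅ u, mem u (kapN K) ⇨ ⨅ u', mem u' (kapN K) ⇨ ⨅ v, rel f u v ⇨ (rel f u' v ⇨ beq u u')) ⊓
    ⨅ n, mem n (ordN (KD.om : K)) ⇨ ⨅ i, mem i (kapN K) ⇨ ⨅ j, mem j (kapN K) ⇨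
      ⨅ i', ⨅ j', rel f i i' ⇨ (rel f j j' ⇨
      ((eqB e η n i j ⇨ eqB e ξ n i' j') ⊓ (eqB e ξ n i' j' ⇨ eqB e η n i j))))) : RO P) ↔
    p ∈ isFnB f (kapN K) (kapN K) ∧
    (∀ j : K, ∀ q ≤ p, ∃ r ≤ q, ∃ i : K, r ∈ rel f (ordN i) (ordN j)) ∧
    (∀ i i' : K, ∀ v, ∀ q ≤ p, q ∈ rel f (ordN i) v → ∀ r ≤ q, r ∈ rel f (ordN i') v → i = i') ∧
    ∀ (n : ℕ) (i j : K) (i' j' : BN (RO P)), ∀ q ≤ p, q ∈ rel f (ordN i) i' → ∀ r ≤ q,
      r ∈ rel f (ordN j) j' → ∀ s ≤ r,
        (s ∈ eqB e η (ordN (KD.nat n : K)) (ordN i) (ordN j) ↔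
          s ∈ eqB e ξ (ordN (KD.nat n : K)) i' j') := by
  rw [forces_inf, forces_inf, forces_inf]
  refine and_congr Iff.rfl (and_congr ?_ (and_congr ?_ ?_))
  · rw [forces_ball_kapN]
    refine forall_congr' fun j => ?_
    rw [forces_bex_kapN]
  · rw [forces_ball_kapN]
    refine forall_congr' fun i => ?_
    rw [forces_ball_kapN]
    refine forall_congr' fun i' => ?_
    rw [forces_iInf]
    refine forall_congr' fun v => ?_
    rw [forces_himp]
    refine forall_congr' fun q => forall_congr' fun _ => forall_congr' fun _ => ?_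
    rw [forces_himp]
    refine forall_congr' fun r => forall_congr' fun _ => forall_congr' fun _ => ?_
    rw [forces_beq_ordN]
  · rw [forces_ball_ordN]
    constructor
    · intro h n i j i' j' q hq h1 r hr h2 s hs
      have h3 := h (KD.nat n) (KD.lt_om.2 ⟨n, rfl⟩)
      rw [forces_ball_kapN] at h3
      have h4 := h3 i
      rw [forces_ball_kapN] at h4
      have h5 := h4 j
      rw [forces_iInf] at h5
      have h6 := h5 i'
      rw [forces_iInf] at h6
      have h7 := h6 j'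
      have h8 := forces_himp.1 h7 q hq h1
      have h9 := forces_himp.1 h8 r hr h2
      rw [forces_inf, forces_himp, forces_himp] at h9
      exact ⟨h9.1 s hs, h9.2 s hs⟩
    · intro h x hx
      obtain ⟨n, rfl⟩ := KD.lt_om.1 hx
      rw [forces_ball_kapN]
      intro i
      rw [forces_ball_kapN]
      intro j
      rw [forces_iInf]
      intro i'
      rw [forces_iInf]
      intro j'
      rw [forces_himp]
      intro q hq h1
      rw [forces_himp]
      intro r hr h2
      rw [forces_inf, forces_himp, forces_himp]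
      exact ⟨fun s hs => (h n i j i' j' q hq h1 r hr h2 s hs).1,
        fun s hs => (h n i j i' j' q hq h1 r hr h2 s hs).2⟩

theorem isoToB_eq (e : BN (RO P))
    (he : isCodeB (ordN (KD.om : K)) (kapN K) e = ⊤) (R S : K → RO P) :
    isoToB (ordN (KD.om : K)) (kapN K) e (realN R) (realN S) =
      IsoF (SA (codeR e) R) (SA (codeR e) S) := by
  refine RO.ext' fun p => ?_
  change p ∈ isoToB (ordN (KD.om : K)) (kapN K) e (realN R) (realN S) ↔
    p ∈ IsoF (SA (codeR e) R) (SA (codeR e) S)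
  rw [mem_IsoF]
  unfold isoToB
  rw [forces_iSup]
  constructor
  · intro h q hq
    obtain ⟨r, hr, f, hf⟩ := h q hq
    rw [forces_isoBody] at hf
    obtain ⟨h1, h2, h3, h4⟩ := hf
    refine ⟨r, hr, fun i j => rel f (ordN i) (ordN j), ?_⟩
    -- the function property
    have hfun : ∀ i : K, ∀ q ≤ r, ∃ s ≤ q, ∃ v, s ∈ rel f (ordN i) v ∧
        ∀ w, ∀ t ≤ s, t ∈ rel f (ordN i) w → t ∈ beq w v := by
      intro i q hq
      have h5 : r ∈ ⨅ u, mem u (kapN K) ⇨ ⨆ v, rel f u v ⊓ ⨅ w, rel f u w ⇨ beq w v := h1.2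
      rw [forces_ball_kapN] at h5
      have h6 := forces_iSup.1 (h5 i) q hq
      obtain ⟨s, hs, v, hv⟩ := h6
      rw [forces_inf, forces_iInf] at hv
      exact ⟨s, hs, v, hv.1, fun w t ht h7 => forces_himp.1 (hv.2 w) t ht h7⟩
    have hrel : r ∈ beq f (relN fun i j : K => rel f (ordN i) (ordN j)) :=
      (isFnB_le f (kapN K) (kapN K) mem_kapN_le mem_kapN_le) r h1
    refine ⟨?_, h2, ?_, ?_⟩
    · intro i q hq
      obtain ⟨s, hs, v, hv, -⟩ := hfun i q hq
      have h5 : s ∈ rel (relN fun i j : K => rel f (ordN i) (ordN j)) (ordN i) v :=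
        (fapp (φ := fun t => rel t (ordN i) v) (hrel.down (hs.trans hq))).1 hv
      rw [rel_relN_left] at h5
      obtain ⟨t, ht, j, hj⟩ := forces_iSup.1 h5 s le_rfl
      exact ⟨t, ht.trans hs, j, hj.1⟩
    · intro i j i' j' q hq hi hj
      constructor
      · rintro rfl
        obtain ⟨s, hs, v, hv, hv2⟩ := hfun i q hq
        have h5 := hv2 _ s le_rfl (hi.down hs)
        have h6 := hv2 _ s le_rfl (hj.down hs)
        have h7 : s ∈ (beq (ordN i') (ordN j') : RO P) :=
          beq_trans _ v _ s ⟨h5, by rw [beq_symm]; exact h6⟩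
        exact forces_beq_ordN.1 h7
      · rintro rfl
        exact h3 i j (ordN i') q hq hi q le_rfl hj
    · intro n i j i' j' q hq hi hj
      have h5 := h4 n i j (ordN i') (ordN j') q hq hi q le_rfl hj q le_rfl
      rw [eqB_eq e he, eqB_eq e he] at h5
      exact h5
  · intro h q hq
    obtain ⟨r, hr, H, hH⟩ := h q hq
    refine ⟨r, hr, relN (mkTot H), ?_⟩
    rw [forces_isoBody]
    have huniq : ∀ s ≤ r, ∀ i j j', ∀ q ≤ s, q ∈ H i j → q ∈ H i j' → j = j' :=
      fun s hs i j j' q hq h1 h2 => (hH.inj i i j j' q (hq.trans hs) h1 h2).1 rfl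
    have hZ : ∀ s ≤ r, ∀ i j, s ∈ mkTot H i j ↔ s ∈ H i j := fun s hs i j =>
      mkTot_iff (huniq s hs i) (fun q hq => hH.total i q (hq.trans hs)) j
    have hval : ∀ s ≤ r, ∀ (i : K) (v : BN (RO P)), s ∈ rel (relN (mkTot H)) (ordN i) v →
        ∀ t ≤ s, ∃ u ≤ t, ∃ j, u ∈ H i j ∧ u ∈ beq v (ordN j) := by
      intro s hs i v hv t ht
      rw [rel_relN_left] at hv
      obtain ⟨u, hu, j, hj⟩ := forces_iSup.1 hv t ht
      exact ⟨u, hu, j, (hZ u (hu.trans (ht.trans hs)) i j).1 hj.1, hj.2⟩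
    refine ⟨?_, ?_, ?_, ?_⟩
    · rw [isFnB_relN _ (totF_mkTot H)]
      exact forces_top
    · intro j q hq
      obtain ⟨s, hs, i, hi⟩ := hH.onto j q hq
      refine ⟨s, hs, i, ?_⟩
      rw [rel_relN]
      exact (hZ s (hs.trans hq) i j).2 hi
    · intro i i' v q hq h1 q' hq' h2
      obtain ⟨s, hs, j, hj, hvj⟩ := hval q hq i v h1 q' hq'
      obtain ⟨t, ht, j', hj', hvj'⟩ := hval q' (hq'.trans hq) i' v h2 s hs
      have h7 : t ∈ (beq (ordN j) (ordN j') : RO P) :=
        beq_trans _ v _ t ⟨by rw [beq_symm]; exact hvj.down ht, hvj'⟩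
      have h8 : j = j' := forces_beq_ordN.1 h7
      have h9 : t ≤ r := ht.trans (hs.trans (hq'.trans hq))
      exact (hH.inj i i' j j' t h9 (hj.down ht) hj').2 h8
    · intro n i j i' j' q hq h1 q' hq' h2 s hs
      have key : ∀ t ≤ s, ∃ u ≤ t,
          ∀ w ≤ u, (w ∈ eqB e (realN R) (ordN (KD.nat n : K)) (ordN i) (ordN j) ↔
            w ∈ eqB e (realN S) (ordN (KD.nat n : K)) i' j') := by
        intro t ht
        obtain ⟨u, hu, a, ha, hia⟩ := hval q hq i i' h1 t (ht.trans (hs.trans hq'))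
        obtain ⟨w, hw, b, hb, hjb⟩ := hval q' (hq'.trans hq) j j' h2 u (hu.trans (ht.trans hs))
        refine ⟨w, hw.trans hu, fun x hx => ?_⟩
        have hxr : x ≤ r :=
          hx.trans (hw.trans (hu.trans (ht.trans (hs.trans (hq'.trans hq)))))
        have e1 : x ∈ eqB e (realN S) (ordN (KD.nat n : K)) i' j' ↔
            x ∈ eqB e (realN S) (ordN (KD.nat n : K)) (ordN a) j' :=
          fapp (φ := fun t => eqB e (realN S) (ordN (KD.nat n : K)) t j')
            (hia.down (hx.trans hw))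
        have e2 : x ∈ eqB e (realN S) (ordN (KD.nat n : K)) (ordN a) j' ↔
            x ∈ eqB e (realN S) (ordN (KD.nat n : K)) (ordN a) (ordN b) :=
          fapp (φ := fun t => eqB e (realN S) (ordN (KD.nat n : K)) (ordN a) t)
            (hjb.down hx)
        rw [e1, e2, eqB_eq e he, eqB_eq e he]
        exact hH.iso n i j a b x hxr (ha.down (hx.trans hw)) (hb.down hx)
      constructor
      · intro h5
        refine forces_of_dense fun t ht => ?_
        obtain ⟨u, hu, h6⟩ := key t ht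
        exact ⟨u, hu, (h6 u le_rfl).1 (h5.down (hu.trans ht))⟩
      · intro h5
        refine forces_of_dense fun t ht => ?_
        obtain ⟨u, hu, h6⟩ := key t ht
        exact ⟨u, hu, (h6 u le_rfl).2 (h5.down (hu.trans ht))⟩

end H79.IZ
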