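import Pool.Agent.H79.IZ.Code
import Pool.Agent.H79.IZ.Fun
import Pool.Agent.H79.IZ.RegV

/-!
# The value of `IsModel`

PROOF. Unfold `isModelB`; the quantifiers `⨅ n, mem n (ordN om) ⇨ ..` are over `ℕ` (`forces_ball_ordN`,
`KD.lt_om`), `⨅ i, mem i (kapN K) ⇨` over `K` (`forces_ball_kapN`); `eqB_eq` turns `eqB` into `SA`;
`⨅ n', isSuccB (ordN (nat n)) n' ⇨ φ n'` is `φ (ordN (nat (n+1)))` (`isSuccB_nat`, `Ext`), the same for
`isZeroB`. So the first four parts are `RefAt`. It is best to state each of the six parts as a lemma.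

Last two parts, from left to right (given a finite set `s`): let `m = s.card` and enumerate `s` as
`g : Fin m → K`; the name `g' = checkS ⟨nat m, ..⟩` is a function from `m` to `κ` (`isFnB_checkS`), so
densely there is `a` with `¬ E (g k) a` for all `k < m` (`rel_checkS`, `KD.lt_nat`). From right to left:
given a name `g` with `q ∈ isFnB g (ordN (nat m)) (kapN K)`, by `fn_decide` some `r ≤ q` forces
`g = checkS ⟨nat m, s⟩`; apply `InfAt` to the image of `s` (finite as `Iio (nat m)` is finite by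
`KD.lt_nat`) and use `rel_checkS`; `Ext` in the variable `g` to replace `g` by `checkS ..`.
-/

universe u

namespace H79.IZ
open H85.Forcing BN RO Cardinal Set

variable {P : Type u} [Preorder P] {K : Type u} [LinearOrder K] [WellFoundedLT K] [KD K]

/-! ### preparations -/

private theorem mv_ext {φ : BN (RO P) → RO P} (hφ : Ext φ) {x y : BN (RO P)} {p : P}
    (h1 : p ∈ beq x y) (h2 : p ∈ φ x) : p ∈ φ y :=
  (hφ x y) p ⟨h1, h2⟩

private theorem mv_beq_symm {x y : BN (RO P)} {p : P} (h : p ∈ beq x y) : p ∈ beq y x := by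
  rwa [beq_symm]

private theorem mv_beq_refl {x : BN (RO P)} {p : P} : p ∈ beq x x := by
  rw [beq_refl]; exact forces_top

private theorem mv_ball_beq {φ : BN (RO P) → RO P} [hφ : ExtC φ] {p : P} (c : BN (RO P)) :
    p ∈ (⨅ x, beq x c ⇨ φ x) ↔ p ∈ φ c := by
  constructor
  · intro h
    exact forces_himp.1 (forces_iInf.1 h c) p le_rfl mv_beq_refl
  · intro h
    refine forces_iInf.2 fun x => forces_himp.2 fun q hq hx => ?_
    exact mv_ext hφ.h (mv_beq_symm hx) (h.down hq)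

private theorem mv_ball_om {φ : BN (RO P) → RO P} [hφ : ExtC φ] {p : P} :
    p ∈ (⨅ x, mem x (ordN (KD.om : K)) ⇨ φ x) ↔ ∀ n : ℕ, p ∈ φ (ordN (KD.nat n : K)) := by
  rw [forces_ball_ordN]
  constructor
  · intro h n
    exact h _ (KD.lt_om.2 ⟨n, rfl⟩)
  · intro h j hj
    obtain ⟨n, rfl⟩ := KD.lt_om.1 hj
    exact h n

private theorem mv_ball_succ {φ : BN (RO P) → RO P} [hφ : ExtC φ] {p : P} (n : ℕ) :
    p ∈ (⨅ x, isSuccB (ordN (KD.nat n : K)) x ⇨ φ x) ↔ p ∈ φ (ordN (KD.nat (n + 1) : K)) := by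
  simp only [isSuccB_nat]
  exact mv_ball_beq _

private theorem mv_ball_zero {φ : BN (RO P) → RO P} [hφ : ExtC φ] {p : P} :
    p ∈ (⨅ x, isZeroB x ⇨ φ x) ↔ p ∈ φ (ordN (KD.nat 0 : K)) := by
  simp only [isZeroB_eq (K := K)]
  exact mv_ball_beq _

omit [KD K] in
private theorem mv_ball_rel (s : Sq K K) {k : K} (h : k < s.1) {φ : BN (RO P) → RO P}
    [hφ : ExtC φ] {p : P} :
    p ∈ (⨅ b, rel (checkS s) (ordN k) b ⇨ φ b) ↔ p ∈ φ (ordN (s.2 ⟨k, h⟩)) := by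
  constructor
  · intro hp
    exact forces_himp.1 (forces_iInf.1 hp _) p le_rfl ((rel_checkS s h _ p).2 rfl)
  · intro hp
    refine forces_iInf.2 fun b => forces_himp.2 fun q hq hb => forces_of_dense fun r hr => ?_
    rw [checkS, rel_relN_left] at hb
    obtain ⟨t, ht, j, htj⟩ := forces_iSup.1 hb r hr
    obtain ⟨⟨_, hj⟩, htb⟩ := htj
    refine ⟨t, ht, mv_ext hφ.h (mv_beq_symm htb) ?_⟩
    rw [← hj]
    exact hp.down ((ht.trans hr).trans hq)

/-- enumeration of a finite set -/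
private theorem mv_enum (s : Finset K) : ∃ (m : ℕ) (σ : Iio (KD.nat m : K) → K),
    ∀ b ∈ s, ∃ k h, σ ⟨k, h⟩ = b := by
  classical
  have : Nonempty K := ⟨KD.nat 0⟩
  have hinj : Function.Injective (KD.nat : ℕ → K) := fun m n h => nat_inj.1 h
  refine ⟨s.toList.length, fun x => s.toList.getD (Function.invFun (KD.nat : ℕ → K) x.1) (KD.nat 0),
    fun b hb => ?_⟩
  obtain ⟨j, hj, hjb⟩ := List.mem_iff_getElem.1 (Finset.mem_toList.2 hb)
  refine ⟨KD.nat j, KD.nat_lt.2 hj, ?_⟩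
  show s.toList.getD (Function.invFun (KD.nat : ℕ → K) (KD.nat j)) (KD.nat 0) = b
  rw [Function.leftInverse_invFun hinj j, List.getD_eq_getElem _ _ hj, hjb]

private theorem mv_image (m : ℕ) (σ : Iio (KD.nat m : K) → K) :
    ∃ s : Finset K, ∀ k h, σ ⟨k, h⟩ ∈ s := by
  classical
  refine ⟨(Finset.univ : Finset (Fin m)).image fun j : Fin m => σ ⟨KD.nat j.1, KD.nat_lt.2 j.2⟩,
    fun k hk => ?_⟩
  obtain ⟨j, hj, rfl⟩ := KD.lt_nat hk
  exact Finset.mem_image.2 ⟨⟨j, hj⟩, Finset.mem_univ _, rfl⟩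

/-- the last two parts -/
private theorem mv_inf (F : FH P K) {Φ : ℕ → BN (RO P) → BN (RO P) → RO P}
    (h1 : ∀ m g, ExtC (fun a => Φ m g a))
    (h2 : ∀ m, Ext (fun g => ⨆ a, mem a (kapN K) ⊓ Φ m g a)) {Ψ : K → RO P} {A : K → K → RO P}
    (h3 : ∀ (m : ℕ) (σ : Iio (KD.nat m : K) → K) (a : K) (r : P),
      r ∈ Φ m (checkS ⟨KD.nat m, σ⟩) (ordN a) ↔ r ∈ Ψ a ∧ ∀ k h, r ∈ (A (σ ⟨k, h⟩) a)ᶜ) {p : P} :
    (∀ m : ℕ, p ∈ (⨅ g, isFnB g (ordN (KD.nat m : K)) (kapN K) ⇨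
      ⨆ a, mem a (kapN K) ⊓ Φ m g a)) ↔
    ∀ s : Finset K, ∀ q ≤ p, ∃ r ≤ q, ∃ a, r ∈ Ψ a ∧ ∀ b ∈ s, r ∈ (A b a)ᶜ := by
  constructor
  · intro h s q hq
    obtain ⟨m, σ, hσ⟩ := mv_enum s
    have h4 := forces_himp.1 (forces_iInf.1 (h m) (checkS ⟨KD.nat m, σ⟩)) p le_rfl
      (by rw [isFnB_checkS]; exact forces_top)
    have := h1 m (checkS ⟨KD.nat m, σ⟩)
    obtain ⟨r, hr, a, ha⟩ := (forces_bex_kapN (K := K)).1 h4 q hq
    obtain ⟨h5, h6⟩ := (h3 m σ a r).1 ha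
    refine ⟨r, hr, a, h5, fun b hb => ?_⟩
    obtain ⟨k, hk, rfl⟩ := hσ b hb
    exact h6 k hk
  · intro h m
    refine forces_iInf.2 fun g => forces_himp.2 fun q hq hg => forces_of_dense fun q1 hq1 => ?_
    obtain ⟨q2, hq2, σ, hσ⟩ := fn_decide F (KD.nat m) g q1 (hg.down hq1)
    refine ⟨q2, hq2, ?_⟩
    refine mv_ext (φ := fun g => ⨆ a, mem a (kapN K) ⊓ Φ m g a) (h2 m) (mv_beq_symm hσ) ?_
    have := h1 m (checkS ⟨KD.nat m, σ⟩)
    show q2 ∈ ⨆ a, mem a (kapN K) ⊓ Φ m (checkS ⟨KD.nat m, σ⟩) a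
    refine (forces_bex_kapN (K := K)).2 fun q3 hq3 => ?_
    obtain ⟨s, hs⟩ := mv_image m σ
    obtain ⟨r, hr, a, ha, hb⟩ := h s q3 (((hq3.trans hq2).trans hq1).trans hq)
    exact ⟨r, hr, a, (h3 m σ a r).2 ⟨ha, fun k hk => hb _ (hs k hk)⟩⟩

set_option synthInstance.maxSize 4000 in
theorem isModelB_eq (F : FH P K) (e : BN (RO P))
    (he : isCodeB (ordN (KD.om : K)) (kapN K) e = ⊤) (R : K → RO P) :
    isModelB (ordN (KD.om : K)) (kapN K) e (realN R) = ModF (SA (codeR e) R) := by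
  have hE := eqB_eq e he R
  have h5 : ∀ p : P, p ∈ (⨅ z, isZeroB z ⇨ ⨅ m, mem m (ordN (KD.om : K)) ⇨
      ⨅ g, isFnB g m (kapN K) ⇨ ⨆ a, mem a (kapN K) ⊓ ⨅ k, mem k m ⇨ ⨅ b, rel g k b ⇨
        (eqB e (realN R) z b a)ᶜ) ↔
      ∀ s : Finset K, ∀ q ≤ p, ∃ r ≤ q, ∃ a, ∀ b ∈ s, r ∈ (SA (codeR e) R 0 b a)ᶜ := by
    intro p
    rw [mv_ball_zero (K := K), mv_ball_om, mv_inf F (Ψ := fun _ => ⊤) (A := SA (codeR e) R 0)]
    · simp only [forces_top, true_and]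
    · intro m g
      infer_instance
    · intro m
      exact ExtC.h
    · intro m σ a r
      simp only [forces_top, true_and]
      rw [forces_ball_ordN]
      constructor
      · intro h k hk
        have := (mv_ball_rel ⟨KD.nat m, σ⟩ hk).1 (h k hk)
        rwa [hE] at this
      · intro h k hk
        refine (mv_ball_rel ⟨KD.nat m, σ⟩ hk).2 ?_
        rw [hE]
        exact h k hk
  have h6 : ∀ p : P, p ∈ (⨅ n, mem n (ordN (KD.om : K)) ⇨ ⨅ n', isSuccB n n' ⇨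
      ⨅ i, mem i (kapN K) ⇨ ⨅ m, mem m (ordN (KD.om : K)) ⇨ ⨅ g, isFnB g m (kapN K) ⇨
      ⨆ a, mem a (kapN K) ⊓ (eqB e (realN R) n i a ⊓ ⨅ k, mem k m ⇨ ⨅ b, rel g k b ⇨
        (eqB e (realN R) n' b a)ᶜ)) ↔
      ∀ n i (s : Finset K), ∀ q ≤ p, ∃ r ≤ q, ∃ a, r ∈ SA (codeR e) R n i a ∧
        ∀ b ∈ s, r ∈ (SA (codeR e) R (n + 1) b a)ᶜ := by
    intro p
    rw [mv_ball_om]
    refine forall_congr' fun n => ?_
    rw [mv_ball_succ, forces_ball_kapN]
    refine forall_congr' fun i => ?_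
    rw [mv_ball_om, mv_inf F (Ψ := fun a => SA (codeR e) R n i a) (A := SA (codeR e) R (n + 1))]
    · intro m g
      infer_instance
    · intro m
      exact ExtC.h
    · intro m σ a r
      rw [forces_inf, hE, forces_ball_ordN]
      refine and_congr_right fun _ => ?_
      constructor
      · intro h k hk
        have := (mv_ball_rel ⟨KD.nat m, σ⟩ hk).1 (h k hk)
        rwa [hE] at this
      · intro h k hk
        refine (mv_ball_rel ⟨KD.nat m, σ⟩ hk).2 ?_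
        rw [hE]
        exact h k hk
  refine ext' fun p => ?_
  show p ∈ isModelB (ordN (KD.om : K)) (kapN K) e (realN R) ↔ p ∈ ModF (SA (codeR e) R)
  rw [mem_ModF, isModelB, forces_inf, forces_inf, forces_inf, forces_inf, forces_inf, h5, h6]
  simp only [mv_ball_om, mv_ball_succ, forces_ball_kapN, forces_himp, hE]
  constructor
  · rintro ⟨r1, r2, r3, r4, r5, r6⟩
    exact ⟨⟨r1, fun n i j q hq h => r2 n i j q hq h,
      fun n i j k q hq h h' => r3 n i j k q hq h q le_rfl h',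
      fun n i j q hq h => r4 n i j q hq h⟩, ⟨r5, r6⟩⟩
  · rintro ⟨hr, hi⟩
    exact ⟨hr.refl, fun n i j q hq h => hr.symm n i j q hq h,
      fun n i j k q hq h r hr' h' => hr.trans n i j k r (hr'.trans hq) (h.down hr') h',
      fun n i j q hq h => hr.mono n i j q hq h, hi.zero, hi.succ⟩

end H79.IZ
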