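import Pool.Agent.H79.IZ.SigMod
import Pool.Agent.H79.IZ.Code

/-!
# Preimages of `Σ¹₁` sets under the change of the coding

`pl C R` is the element of `2^κ` which codes via `c3` the structure coded by `R` via `C`.

PROOF of `Sig.pull`. `φ' R S Z = φ (pl C R) (pl C S) Z`. `Ext3`: `EqAt p R R'` implies
`EqAt p (pl C R) (pl C R')`. Closed: let `p` satisfy the hypothesis for `φ'`; apply `ClosedF φ` to
`pl C R`, `pl C S`, `Z`: given `a` and `q ≤ p`. There are at most `#(Iio a) < #K` triples `(n, i, j)` with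
`c3 n i j < a` (`c3_inj`); by `F.dist_below` some `q' ≤ q` decides `C n i j x` for all of them and by
`KD.reg` there is `b ≥ a` above all these `x`. The hypothesis for `b`, `q'` gives `r ≤ q'` and `R' S' Z'`;
`AgAt r b R R'` implies `AgAt r a (pl C R) (pl C R')` since below `q'` the value `pl C R (c3 n i j)` is
`R x`. Projection: `Proj φ X` for `pl C R`, `pl C S`.
-/

universe u

namespace H79.IZ
open H85.Forcing BN RO Cardinal Set

variable {P : Type u} [Preorder P] {K : Type u} [LinearOrder K] [WellFoundedLT K] [KD K]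

noncomputable def pl (C : ℕ → K → K → K → RO P) (R : K → RO P) : K → RO P := fun y =>
  ⨆ t : ℕ × K × K, ofProp (c3 t.1 t.2.1 t.2.2 = y) ⊓ SA C R t.1 t.2.1 t.2.2

theorem SG_pl (C : ℕ → K → K → K → RO P) (R : K → RO P) : SG (pl C R) = SA C R := by
  funext n i j
  apply le_antisymm
  · refine iSup_le fun t => ?_
    rw [le_iff_forces]
    intro p hp
    obtain ⟨h1, h2⟩ := forces_inf.1 hp
    rw [forces_ofProp, c3_inj] at h1
    obtain ⟨h3, h4, h5⟩ := h1
    rw [h3, h4, h5] at h2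
    exact h2
  · exact le_iSup_of_le (n, i, j) (le_inf (fun _ _ => rfl) le_rfl)

theorem pl_of {C : ℕ → K → K → K → RO P} {R R' : K → RO P} {q : P} {y : K}
    (h : ∀ n i j x, c3 n i j = y → ∀ r ≤ q, r ∈ C n i j x → r ∈ R x → r ∈ R' x)
    (hq : q ∈ pl C R y) : q ∈ pl C R' y := by
  unfold pl at hq ⊢
  rw [forces_iSup] at hq ⊢
  intro q1 hq1
  obtain ⟨r, hr, t, h1, h2⟩ := hq q1 hq1
  refine ⟨r, hr, t, h1, ?_⟩
  have h1' : c3 t.1 t.2.1 t.2.2 = y := h1
  have h2' : r ∈ SA C R t.1 t.2.1 t.2.2 := h2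
  change r ∈ SA C R' t.1 t.2.1 t.2.2
  unfold SA at h2' ⊢
  rw [forces_iSup] at h2' ⊢
  intro r1 hr1
  obtain ⟨r2, hr2, x, h3, h4⟩ := h2' r1 hr1
  exact ⟨r2, hr2, x, h3, h _ _ _ x h1' r2 (hr2.trans (hr1.trans (hr.trans hq1))) h3 h4⟩

theorem pl_eqAt (C : ℕ → K → K → K → RO P) {R R' : K → RO P} {p : P} (h : EqAt p R R') :
    EqAt p (pl C R) (pl C R') := fun _ _ hq =>
  ⟨pl_of fun _ _ _ x _ r hr _ h1 => (h x r (hr.trans hq)).1 h1,
    pl_of fun _ _ _ x _ r hr _ h1 => (h x r (hr.trans hq)).2 h1⟩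

theorem Sig.pull (F : FH P K) {C : ℕ → K → K → K → RO P} (hC : TotC C)
    {X : (K → RO P) → (K → RO P) → RO P} (h : Sig X) :
    Sig fun R S => X (pl C R) (pl C S) := by
  obtain ⟨φ, h1, h2, h3⟩ := h
  refine ⟨fun R S Z => φ (pl C R) (pl C S) Z, ?_, ?_, fun R S p => h3 (pl C R) (pl C S) p⟩
  · intro p R S Z R' S' Z' hR hS hZ hp
    exact h1 p _ _ _ _ _ _ (pl_eqAt C hR) (pl_eqAt C hS) hZ hp
  · intro R S Z hZ p H
    refine h2 (pl C R) (pl C S) Z hZ p fun a q hq => ?_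
    have hι : #{t : ℕ × K × K // c3 t.1 t.2.1 t.2.2 < a} < #K := by
      refine lt_of_le_of_lt ?_ (KD.small a)
      refine Cardinal.mk_le_of_injective
        (f := fun t : {t : ℕ × K × K // c3 t.1 t.2.1 t.2.2 < a} => (⟨_, t.2⟩ : Iio a)) ?_
      rintro ⟨⟨n, i, j⟩, h⟩ ⟨⟨n', i', j'⟩, h'⟩ e
      have e' : c3 n i j = c3 n' i' j' := Subtype.ext_iff.1 e
      obtain ⟨rfl, rfl, rfl⟩ := c3_inj.1 e'
      rfl
    obtain ⟨q', hq', hT⟩ := F.dist_below {t : ℕ × K × K // c3 t.1 t.2.1 t.2.2 < a} hι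
      (fun t r => ∃ x, r ∈ C t.1.1 t.1.2.1 t.1.2.2 x) q
      (fun t s _ r hr ⟨x, hx⟩ => ⟨x, hx.down hr⟩)
      (fun t s _ => hC.total _ _ _ s)
    choose x hx using hT
    obtain ⟨b, hb⟩ := KD.reg x hι
    obtain ⟨r, hr, R', S', Z', hZ', hR, hS, hZ2, hr2⟩ := H (max a b) q' (hq'.trans hq)
    have key : ∀ R R' : K → RO P, AgAt r (max a b) R R' → AgAt r a (pl C R) (pl C R') := by
      intro R R' hRR y hy s hs
      have aux : ∀ n i j z, c3 n i j = y → ∀ t ≤ s, t ∈ C n i j z → z < max a b := by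
        intro n i j z hy' t ht hz
        have h4 : c3 n i j < a := hy' ▸ hy
        have h5 : t ∈ C n i j (x ⟨(n, i, j), h4⟩) :=
          (hx ⟨(n, i, j), h4⟩).down (ht.trans (hs.trans hr))
        have h6 : z = x ⟨(n, i, j), h4⟩ := (hC.inj t n i j z n i j _ hz h5).2 ⟨rfl, rfl, rfl⟩
        rw [h6]
        exact lt_of_lt_of_le (hb _) (le_max_right _ _)
      exact ⟨pl_of fun n i j z hz t ht h5 h6 =>
          (hRR z (aux n i j z hz t ht h5) t (ht.trans hs)).1 h6,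
        pl_of fun n i j z hz t ht h5 h6 =>
          (hRR z (aux n i j z hz t ht h5) t (ht.trans hs)).2 h6⟩
    exact ⟨r, hr.trans hq', pl C R', pl C S', Z', hZ', key R R' hR, key S S' hS,
      fun i hi j s hs => hZ2 i (lt_of_lt_of_le hi (le_max_left _ _)) j s hs, hr2⟩

end H79.IZ
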