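import Pool.Agent.H79.IZ.LocTree

/-!
# The existence of an embedding `T(A, A') → T*` is `Σ¹₁`

PROOF. Choose injections `d : Sq K K → K` (`exists_cS`) and `d2 : Sq K (K × K) → K` (`exists_cS2`). `Z`
codes `F` by `Z (d2 x) (d s) = F x s` on `T(A, A')`. With `A = SG R`, `A' = SG S` let `φ R S Z` be the meet of
(1) `⨅ x, ⨅ j : {j // j ∉ range d}, TreeF A A' x ⇨ (Z (d2 x) j)ᶜ`,
(2) `⨅ x s, TreeF A A' x ⊓ Z (d2 x) (d s) ⇨ ofProp (s.1 = x.1) ⊓ Ts s`,
(3) `⨅ x y s t, (Sq.Le x y), TreeF A A' y ⊓ (Z (d2 x) (d s) ⊓ Z (d2 y) (d t)) ⇨ ofProp (Sq.Le s t)`.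
-/

universe u

namespace H79.IZ
open H85.Forcing BN RO Cardinal Set

variable {P : Type u} [Preorder P] {K : Type u} [LinearOrder K] [WellFoundedLT K] [KD K]

theorem Sq.le_antisymm {X : Type u} {s t : Sq K X} (h : Sq.Le s t) (h' : Sq.Le t s) : s = t := by
  obtain ⟨a, f⟩ := s
  obtain ⟨b, g⟩ := t
  have hab : a = b := _root_.le_antisymm h.1 h'.1
  subst hab
  have hfg : f = g := by
    funext i
    exact h.2 i.1 i.2 i.2
  rw [hfg]

/-! ### the closed set -/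

section
variable (d : Sq K K → K) (d2 : Sq K (K × K) → K) (Ts : Sq K K → RO P)

private noncomputable def f1 (x : Sq K (K × K)) (j : K) : T3 P K := fun R S Z =>
  TreeF (SG R) (SG S) x ⇨ (Z (d2 x) j)ᶜ

private noncomputable def f2 (x : Sq K (K × K)) (s : Sq K K) : T3 P K := fun R S Z =>
  TreeF (SG R) (SG S) x ⊓ Z (d2 x) (d s) ⇨ ofProp (s.1 = x.1) ⊓ Ts s

private noncomputable def f3 (x y : Sq K (K × K)) (s t : Sq K K) : T3 P K := fun R S Z =>
  TreeF (SG R) (SG S) y ⊓ (Z (d2 x) (d s) ⊓ Z (d2 y) (d t)) ⇨ ofProp (Sq.Le s t)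

private noncomputable def ff : T3 P K := fun R S Z =>
  (⨅ x : Sq K (K × K), ⨅ j : {j // j ∉ range d}, f1 d2 x j.1 R S Z) ⊓
  ((⨅ x : Sq K (K × K), ⨅ s : Sq K K, f2 d d2 Ts x s R S Z) ⊓
  ⨅ x : Sq K (K × K), ⨅ y : Sq K (K × K), ⨅ _ : Sq.Le x y, ⨅ s : Sq K K, ⨅ t : Sq K K,
    f3 d d2 x y s t R S Z)

private theorem mem_ff {R S : K → RO P} {Z : K → K → RO P} {p : P} :
    p ∈ ff d d2 Ts R S Z ↔
      (∀ x j, j ∉ range d → ∀ q ≤ p, TreeAt q (SG R) (SG S) x → ∀ r ≤ q, ¬ r ∈ Z (d2 x) j) ∧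
      (∀ x s, ∀ q ≤ p, TreeAt q (SG R) (SG S) x → q ∈ Z (d2 x) (d s) → s.1 = x.1 ∧ q ∈ Ts s) ∧
      ∀ x y, Sq.Le x y → ∀ s t, ∀ q ≤ p, TreeAt q (SG R) (SG S) y → q ∈ Z (d2 x) (d s) →
        q ∈ Z (d2 y) (d t) → Sq.Le s t := by
  have e1 : p ∈ ff d d2 Ts R S Z ↔
      p ∈ (⨅ x : Sq K (K × K), ⨅ j : {j // j ∉ range d}, f1 d2 x j.1 R S Z) ∧
      p ∈ (⨅ x : Sq K (K × K), ⨅ s : Sq K K, f2 d d2 Ts x s R S Z) ∧
      p ∈ (⨅ x : Sq K (K × K), ⨅ y : Sq K (K × K), ⨅ _ : Sq.Le x y, ⨅ s : Sq K K, ⨅ t : Sq K K,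
        f3 d d2 x y s t R S Z) := Iff.rfl
  rw [e1]
  refine and_congr ?_ (and_congr ?_ ?_)
  · rw [forces_iInf]
    constructor
    · intro h x j hj q hq hT r hr
      have h1 := forces_iInf.1 (h x) ⟨j, hj⟩
      exact forces_compl.1 (forces_himp.1 h1 q hq hT) r hr
    · intro h x
      rw [forces_iInf]
      rintro ⟨j, hj⟩
      exact forces_himp.2 fun q hq hT => forces_compl.2 fun r hr => h x j hj q hq hT r hr
  · rw [forces_iInf]
    constructor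
    · intro h x s q hq hT hZ
      have h1 := forces_iInf.1 (h x) s
      exact forces_himp.1 h1 q hq ⟨hT, hZ⟩
    · intro h x
      rw [forces_iInf]
      intro s
      exact forces_himp.2 fun q hq hT => h x s q hq hT.1 hT.2
  · rw [forces_iInf]
    constructor
    · intro h x y hxy s t q hq hT hZ hZ'
      have h1 := forces_iInf.1 (forces_iInf.1 (forces_iInf.1 (forces_iInf.1 (h x) y) hxy) s) t
      exact forces_himp.1 h1 q hq ⟨hT, hZ, hZ'⟩
    · intro h x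
      refine forces_iInf.2 fun y => forces_iInf.2 fun hxy => forces_iInf.2 fun s =>
        forces_iInf.2 fun t => ?_
      exact forces_himp.2 fun q hq hT => h x y hxy s t q hq hT.1 hT.2.1 hT.2.2

private theorem ext_ff : Ext3 (ff d d2 Ts) := by
  refine Ext3.inf (Ext3.iInf fun x => Ext3.iInf fun j => ?_)
    (Ext3.inf (Ext3.iInf fun x => Ext3.iInf fun s => ?_)
      (Ext3.iInf fun x => Ext3.iInf fun y => Ext3.iInf fun _ => Ext3.iInf fun s =>
        Ext3.iInf fun t => ?_))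
  · exact Ext3.himp (ext_tree x) (Ext3.compl (Ext3.base_Z _ _))
  · exact Ext3.himp (Ext3.inf (ext_tree x) (Ext3.base_Z _ _)) (Ext3.const _)
  · exact Ext3.himp (Ext3.inf (ext_tree y) (Ext3.inf (Ext3.base_Z _ _) (Ext3.base_Z _ _)))
      (Ext3.const _)

private theorem closed_ff : ClosedF (ff d d2 Ts) := by
  refine ClosedF.inf (ClosedF.iInf fun x => ClosedF.iInf fun j => closed_of_loc ?_)
    (ClosedF.inf (ClosedF.iInf fun x => ClosedF.iInf fun s => closed_of_loc ?_)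
      (ClosedF.iInf fun x => ClosedF.iInf fun y => ClosedF.iInf fun _ => ClosedF.iInf fun s =>
        ClosedF.iInf fun t => closed_of_loc ?_))
  · exact Loc.himp (loc_tree x) (Loc.compl (Loc.base_Z _ _))
  · exact Loc.himp (Loc.inf (loc_tree x) (Loc.base_Z _ _)) (Loc.const _)
  · exact Loc.himp (Loc.inf (loc_tree y) (Loc.inf (Loc.base_Z _ _) (Loc.base_Z _ _)))
      (Loc.const _)

/-- the code of `F` -/
private noncomputable def cod (A A' : ℕ → K → K → RO P) (F : Sq K (K × K) → Sq K K → RO P) :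
    K → K → RO P := fun y j =>
  ⨆ t : Sq K (K × K) × Sq K K, ofProp (d2 t.1 = y ∧ d t.2 = j) ⊓ (TreeF A A' t.1 ⊓ F t.1 t.2)

private theorem cod_dense (hd : Function.Injective d) (hd2 : Function.Injective d2)
    {A A' : ℕ → K → K → RO P} {F : Sq K (K × K) → Sq K K → RO P} {p : P} {x : Sq K (K × K)} {j : K}
    (h : p ∈ cod d d2 A A' F (d2 x) j) : ∀ q ≤ p, ∃ r ≤ q, ∃ s, d s = j ∧ r ∈ F x s := by
  intro q hq
  obtain ⟨r, hr, ⟨y, s⟩, h1, h2⟩ := forces_iSup.1 h q hq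
  have h1 : d2 y = d2 x ∧ d s = j := h1
  have hy : y = x := hd2 h1.1
  subst hy
  exact ⟨r, hr, s, h1.2, h2.2⟩

private theorem cod_of {A A' : ℕ → K → K → RO P} {F : Sq K (K × K) → Sq K K → RO P} {p : P}
    {x : Sq K (K × K)} {s : Sq K K} (hT : TreeAt p A A' x) (hF : p ∈ F x s) :
    p ∈ cod d d2 A A' F (d2 x) (d s) := by
  have h : p ∈ (ofProp (d2 x = d2 x ∧ d s = d s) ⊓ (TreeF A A' x ⊓ F x s) : RO P) :=
    forces_inf.2 ⟨forces_ofProp.2 ⟨rfl, rfl⟩, forces_inf.2 ⟨hT, hF⟩⟩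
  exact forces_iSup_of (f := fun t : Sq K (K × K) × Sq K K =>
    ofProp (d2 t.1 = d2 x ∧ d t.2 = d s) ⊓ (TreeF A A' t.1 ⊓ F t.1 t.2)) (x, s) h

private theorem cod_uniq (hd : Function.Injective d) (hd2 : Function.Injective d2)
    {A A' : ℕ → K → K → RO P} {F : Sq K (K × K) → Sq K K → RO P} {r : P}
    (hE : EmbAt r A A' Ts F) {x : Sq K (K × K)} {q : P} (hq : q ≤ r) (j j' : K)
    (h : q ∈ cod d d2 A A' F (d2 x) j) (h' : q ∈ cod d d2 A A' F (d2 x) j') : j = j' := by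
  obtain ⟨r1, hr1, s, rfl, h1⟩ := cod_dense d d2 hd hd2 h q le_rfl
  obtain ⟨r2, hr2, s', rfl, h2⟩ := cod_dense d d2 hd hd2 h' r1 hr1
  have hx : Sq.Le x x := ⟨le_rfl, fun _ _ _ => rfl⟩
  have h3 : r2 ≤ r := hr2.trans (hr1.trans hq)
  have h4 := hE.mono x x s s' hx r2 h3 (h1.down hr2) h2
  have h5 := hE.mono x x s' s hx r2 h3 h2 (h1.down hr2)
  rw [Sq.le_antisymm h4 h5]

private theorem cod_iff (hd : Function.Injective d) (hd2 : Function.Injective d2)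
    {A A' : ℕ → K → K → RO P} {F : Sq K (K × K) → Sq K K → RO P} {r : P}
    (hE : EmbAt r A A' Ts F) {x : Sq K (K × K)} {q : P} (hq : q ≤ r) (hT : TreeAt q A A' x)
    (j : K) : q ∈ mkTot (cod d d2 A A' F) (d2 x) j ↔ q ∈ cod d d2 A A' F (d2 x) j := by
  apply mkTot_iff
  · intro j j' q' hq' h h'
    exact cod_uniq d d2 Ts hd hd2 hE (hq'.trans hq) j j' h h'
  · intro q' hq'
    obtain ⟨r', hr', s, hs⟩ := hE.total x q' (hq'.trans hq) (hT.down hq')
    exact ⟨r', hr', d s, cod_of d d2 (hT.down (hr'.trans hq')) hs⟩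

end

theorem sig_emb (Ts : Sq K K → RO P) : Sig fun (R S : K → RO P) => EmbF Ts (SG R) (SG S) := by
  obtain ⟨d, hd⟩ := exists_cS (K := K)
  obtain ⟨d2, hd2⟩ := exists_cS2 (K := K)
  refine ⟨ff d d2 Ts, ext_ff d d2 Ts, closed_ff d d2 Ts, ?_⟩
  intro R S p
  rw [mem_EmbF]
  constructor
  · intro hp q hq
    obtain ⟨r, hr, F, hE⟩ := hp q hq
    refine ⟨r, hr, mkTot (cod d d2 (SG R) (SG S) F), totF_mkTot _, ?_⟩
    rw [mem_ff]
    refine ⟨?_, ?_, ?_⟩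
    · intro x j hj q' hq' hT r' hr' hZ
      rw [cod_iff d d2 Ts hd hd2 hE (hr'.trans hq') (hT.down hr')] at hZ
      obtain ⟨r1, _, s, hs, _⟩ := cod_dense d d2 hd hd2 hZ r' le_rfl
      exact hj ⟨s, hs⟩
    · intro x s q' hq' hT hZ
      rw [cod_iff d d2 Ts hd hd2 hE hq' hT] at hZ
      have h1 := cod_dense d d2 hd hd2 hZ
      constructor
      · obtain ⟨r1, hr1, s', hs', h2⟩ := h1 q' le_rfl
        have hs : s' = s := hd hs'
        subst hs
        exact (hE.mem x s' r1 (hr1.trans hq') h2).1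
      · refine forces_of_dense fun q1 hq1 => ?_
        obtain ⟨r1, hr1, s', hs', h2⟩ := h1 q1 hq1
        have hs : s' = s := hd hs'
        subst hs
        exact ⟨r1, hr1, (hE.mem x s' r1 (hr1.trans (hq1.trans hq')) h2).2⟩
    · intro x y hxy s t q' hq' hT hZ hZ'
      rw [cod_iff d d2 Ts hd hd2 hE hq' (hT.of_le hxy)] at hZ
      rw [cod_iff d d2 Ts hd hd2 hE hq' hT] at hZ'
      obtain ⟨r1, hr1, s', hs', h1⟩ := cod_dense d d2 hd hd2 hZ q' le_rfl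
      have hs : s' = s := hd hs'
      subst hs
      obtain ⟨r2, hr2, t', ht', h2⟩ := cod_dense d d2 hd hd2 hZ' r1 hr1
      have ht : t' = t := hd ht'
      subst ht
      exact hE.mono x y s' t' hxy r2 (hr2.trans (hr1.trans hq')) (h1.down hr2) h2
  · intro hp q hq
    obtain ⟨r, hr, Z, hZ, h⟩ := hp q hq
    rw [mem_ff] at h
    obtain ⟨h1, h2, h3⟩ := h
    refine ⟨r, hr, fun x s => TreeF (SG R) (SG S) x ⊓ Z (d2 x) (d s), ?_, ?_, ?_⟩
    · intro x q' hq' hT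
      obtain ⟨r', hr', j, hj⟩ := hZ.total (d2 x) q'
      by_cases hjd : j ∈ range d
      · obtain ⟨s, rfl⟩ := hjd
        exact ⟨r', hr', s, hT.down hr', hj⟩
      · exact absurd hj (h1 x j hjd q' hq' hT r' hr')
    · intro x s q' hq' hF
      exact h2 x s q' hq' hF.1 hF.2
    · intro x y s t hxy q' hq' hF hF'
      exact h3 x y hxy s t q' hq' hF'.1 hF.2 hF'.2

end H79.IZ
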