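import Pool.Agent.H79.IZ.SigMod

/-!
# The isomorphism relation of structures is `Σ¹₁`

PROOF. `φ R S Z = (⨅ i j, (Z (c3 0 i 0) j ⇨ Z (c3 1 j 0) i) ⊓ (Z (c3 1 j 0) i ⇨ Z (c3 0 i 0) j)) ⊓
⨅ n i j i' j', Z (c3 0 i 0) i' ⊓ Z (c3 0 j 0) j' ⇨ ((SG R n i j ⇨ SG S n i' j') ⊓ (SG S n i' j' ⇨
SG R n i j))` with `0 = KD.nat 0`: `Z` codes a bijection `H i j = Z (c3 0 i 0) j` and its inverse.
Closed by the calculus of `Local`. Projection: if `r ∈ φ R S Z` and `TotF Z` then `IsoAt r` with this `H`;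
conversely, given `H` with `IsoAt r`, let `Z = mkTot W` with `W (c3 0 i 0) j = H i j`,
`W (c3 1 j 0) i = H i j` (and `⊥` elsewhere), `mkTot_iff`.
-/

universe u

namespace H79.IZ
open H85.Forcing BN RO Cardinal Set

variable {P : Type u} [Preorder P] {K : Type u} [LinearOrder K] [WellFoundedLT K] [KD K]

open Classical in
private noncomputable def wiso (H : K → K → RO P) : K → K → RO P := fun y j =>
  if h : ∃ i, y = c3 0 i (KD.nat 0) then H h.choose j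
  else if h : ∃ i, y = c3 1 i (KD.nat 0) then H j h.choose else ⊥

private theorem wiso_zero (H : K → K → RO P) (i j : K) :
    wiso H (c3 0 i (KD.nat 0)) j = H i j := by
  have h : ∃ i', (c3 0 i (KD.nat 0) : K) = c3 0 i' (KD.nat 0) := ⟨i, rfl⟩
  have h2 : i = h.choose := (c3_inj.1 h.choose_spec).2.1
  unfold wiso
  rw [dif_pos h, ← h2]

private theorem wiso_one (H : K → K → RO P) (i j : K) :
    wiso H (c3 1 i (KD.nat 0)) j = H j i := by
  have h0 : ¬ ∃ i', (c3 1 i (KD.nat 0) : K) = c3 0 i' (KD.nat 0) := by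
    rintro ⟨i', h⟩
    exact absurd (c3_inj.1 h).1 one_ne_zero
  have h : ∃ i', (c3 1 i (KD.nat 0) : K) = c3 1 i' (KD.nat 0) := ⟨i, rfl⟩
  have h2 : i = h.choose := (c3_inj.1 h.choose_spec).2.1
  unfold wiso
  rw [dif_neg h0, dif_pos h, ← h2]

private noncomputable def phiso : T3 P K := fun R S Z =>
  (⨅ i, ⨅ j, (Z (c3 0 i (KD.nat 0)) j ⇨ Z (c3 1 j (KD.nat 0)) i) ⊓
    (Z (c3 1 j (KD.nat 0)) i ⇨ Z (c3 0 i (KD.nat 0)) j)) ⊓
  ⨅ n, ⨅ i, ⨅ j, ⨅ i', ⨅ j', (Z (c3 0 i (KD.nat 0)) i' ⊓ Z (c3 0 j (KD.nat 0)) j') ⇨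
    ((SG R n i j ⇨ SG S n i' j') ⊓ (SG S n i' j' ⇨ SG R n i j))

private theorem ext_phiso : Ext3 (phiso : T3 P K) := by
  unfold phiso
  refine Ext3.inf (Ext3.iInf fun i => Ext3.iInf fun j => Ext3.inf ?_ ?_)
    (Ext3.iInf fun n => Ext3.iInf fun i => Ext3.iInf fun j => Ext3.iInf fun i' =>
      Ext3.iInf fun j' => Ext3.himp ?_ (Ext3.inf ?_ ?_))
  · exact Ext3.himp (Ext3.base_Z _ _) (Ext3.base_Z _ _)
  · exact Ext3.himp (Ext3.base_Z _ _) (Ext3.base_Z _ _)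
  · exact Ext3.inf (Ext3.base_Z _ _) (Ext3.base_Z _ _)
  · exact Ext3.himp (Ext3.base_R _) (Ext3.base_S _)
  · exact Ext3.himp (Ext3.base_S _) (Ext3.base_R _)

private theorem closed_phiso : ClosedF (phiso : T3 P K) := by
  unfold phiso
  refine ClosedF.inf (ClosedF.iInf fun i => ClosedF.iInf fun j => closed_of_loc (Loc.inf ?_ ?_))
    (ClosedF.iInf fun n => ClosedF.iInf fun i => ClosedF.iInf fun j => ClosedF.iInf fun i' =>
      ClosedF.iInf fun j' => closed_of_loc (Loc.himp ?_ (Loc.inf ?_ ?_)))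
  · exact Loc.himp (Loc.base_Z _ _) (Loc.base_Z _ _)
  · exact Loc.himp (Loc.base_Z _ _) (Loc.base_Z _ _)
  · exact Loc.inf (Loc.base_Z _ _) (Loc.base_Z _ _)
  · exact Loc.himp (Loc.base_R _) (Loc.base_S _)
  · exact Loc.himp (Loc.base_S _) (Loc.base_R _)

private theorem mem_phiso {R S : K → RO P} {Z : K → K → RO P} {r : P} :
    r ∈ phiso R S Z ↔
      (∀ i j, ∀ q ≤ r, (q ∈ Z (c3 0 i (KD.nat 0)) j ↔ q ∈ Z (c3 1 j (KD.nat 0)) i)) ∧
      ∀ n i j i' j', ∀ q ≤ r, q ∈ Z (c3 0 i (KD.nat 0)) i' → q ∈ Z (c3 0 j (KD.nat 0)) j' →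
        (q ∈ SG R n i j ↔ q ∈ SG S n i' j') := by
  unfold phiso
  simp only [forces_inf, forces_iInf, forces_himp]
  constructor
  · rintro ⟨h1, h2⟩
    refine ⟨fun i j q hq => ⟨(h1 i j).1 q hq, (h1 i j).2 q hq⟩, fun n i j i' j' q hq ha hb => ?_⟩
    have h := h2 n i j i' j' q hq ⟨ha, hb⟩
    exact ⟨h.1 q le_rfl, h.2 q le_rfl⟩
  · rintro ⟨h1, h2⟩
    refine ⟨fun i j => ⟨fun q hq => (h1 i j q hq).1, fun q hq => (h1 i j q hq).2⟩,
      fun n i j i' j' q hq hab => ⟨fun t ht => ?_, fun t ht => ?_⟩⟩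
    · exact (h2 n i j i' j' t (ht.trans hq) (hab.1.down ht) (hab.2.down ht)).1
    · exact (h2 n i j i' j' t (ht.trans hq) (hab.1.down ht) (hab.2.down ht)).2

theorem sig_iso : Sig fun (R S : K → RO P) => IsoF (SG R) (SG S) := by
  refine ⟨phiso, ext_phiso, closed_phiso, fun R S p => ?_⟩
  rw [mem_IsoF]
  refine forall_congr' fun q => forall_congr' fun _ => exists_congr fun r =>
    and_congr_right fun _ => ?_
  constructor
  · rintro ⟨H, hH⟩
    refine ⟨mkTot (wiso H), totF_mkTot _, mem_phiso.2 ?_⟩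
    have e0 : ∀ i j, ∀ t ≤ r, (t ∈ mkTot (wiso H) (c3 0 i (KD.nat 0)) j ↔ t ∈ H i j) := by
      intro i j t ht
      rw [mkTot_iff, wiso_zero]
      · intro k k' s hs h1 h2
        rw [wiso_zero] at h1 h2
        exact (hH.inj i i k k' s (hs.trans ht) h1 h2).1 rfl
      · intro s hs
        obtain ⟨s', hs', k, hk⟩ := hH.total i s (hs.trans ht)
        exact ⟨s', hs', k, by rw [wiso_zero]; exact hk⟩
    have e1 : ∀ i j, ∀ t ≤ r, (t ∈ mkTot (wiso H) (c3 1 j (KD.nat 0)) i ↔ t ∈ H i j) := by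
      intro i j t ht
      rw [mkTot_iff, wiso_one]
      · intro k k' s hs h1 h2
        rw [wiso_one] at h1 h2
        exact (hH.inj k k' j j s (hs.trans ht) h1 h2).2 rfl
      · intro s hs
        obtain ⟨s', hs', k, hk⟩ := hH.onto j s (hs.trans ht)
        exact ⟨s', hs', k, by rw [wiso_one]; exact hk⟩
    refine ⟨fun i j t ht => by rw [e0 i j t ht, e1 i j t ht], fun n i j i' j' t ht h1 h2 => ?_⟩
    rw [e0 _ _ t ht] at h1 h2
    exact hH.iso n i j i' j' t ht h1 h2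
  · rintro ⟨Z, hZ, hr⟩
    obtain ⟨h1, h2⟩ := mem_phiso.1 hr
    refine ⟨fun i j => Z (c3 0 i (KD.nat 0)) j, ?_, ?_, ?_, ?_⟩
    · intro i t _
      exact hZ.total _ t
    · intro j t ht
      obtain ⟨s, hs, i, hi⟩ := hZ.total (c3 1 j (KD.nat 0)) t
      exact ⟨s, hs, i, (h1 i j s (hs.trans ht)).2 hi⟩
    · intro i j i' j' t ht ha hb
      constructor
      · rintro rfl
        exact hZ.uniq _ _ _ t ha hb
      · rintro rfl
        exact hZ.uniq _ _ _ t ((h1 _ _ t ht).1 ha) ((h1 _ _ t ht).1 hb)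
    · intro n i j i' j' t ht ha hb
      exact h2 n i j i' j' t ht ha hb

end H79.IZ
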