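import Pool.Agent.H79.IZ.SigB

/-!
# Closure properties of `Sig`, part 2: unions of at most `κ` many sets

PROOF of `Sig.iSup`: see the header of `SigB`. `Sig.sup` is the case `ι = ULift Bool`, `Sig.of_closed`
the case in which `φ` does not depend on `Z`.
-/

universe u

namespace H79.IZ
open H85.Forcing BN RO Cardinal Set

variable {P : Type u} [Preorder P] {K : Type u} [LinearOrder K] [WellFoundedLT K] [KD K]

theorem Sig.iSup {ι : Type u} (d : ι → K) (hd : Function.Injective d)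
    {X : ι → (K → RO P) → (K → RO P) → RO P} (h : ∀ i, Sig (X i)) :
    Sig fun R S => ⨆ i, X i R S := by
  choose φ hE hC hP using h
  refine ⟨fun R S Z => ⨆ i, Z pr0 (d i) ⊓ φ i R S (lft Z), ?_, ?_, ?_⟩
  · intro p R S Z R' S' Z' hR hS hZ hp
    rw [forces_iSup] at hp ⊢
    intro q hq
    obtain ⟨r, hr, i, hi1, hi2⟩ := hp q hq
    have hrp : r ≤ p := hr.trans hq
    refine ⟨r, hr, i, (hZ _ _ r hrp).1 hi1, ?_⟩
    refine hE i r R S (lft Z) R' S' (lft Z') ?_ ?_ ?_ hi2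
    · exact fun x q' hq' => hR x q' (hq'.trans hrp)
    · exact fun x q' hq' => hS x q' (hq'.trans hrp)
    · exact fun x y q' hq' => hZ _ _ q' (hq'.trans hrp)
  · intro R S Z hZ p H
    rw [forces_iSup]
    intro q hq
    obtain ⟨q1, hq1, j, hj⟩ := hZ.total pr0 q
    obtain ⟨b0, -, hb0, -⟩ := exists_bound (K := K) pr0
    have H2 : ∀ b : K, pr0 < b → ∀ q2 ≤ p, q2 ∈ Z pr0 j → ∃ r ≤ q2, ∃ (i : ι) (R' S' : K → RO P)
        (Z' : K → K → RO P), TotF Z' ∧ AgAt r b R R' ∧ AgAt r b S S' ∧ AgAt2 r b Z Z' ∧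
        d i = j ∧ r ∈ φ i R' S' (lft Z') := by
      intro b hb q2 hq2 hq2j
      obtain ⟨r, hr, R', S', Z', hZ', hR, hS, hZZ, hrΦ⟩ := H b q2 hq2
      rw [forces_iSup] at hrΦ
      obtain ⟨r', hr', i, hi1, hi2⟩ := hrΦ r le_rfl
      have h1 : r' ∈ Z pr0 (d i) := (hZZ pr0 hb (d i) r' hr').2 hi1
      have h2 : d i = j := hZ.uniq pr0 (d i) j r' h1 (hq2j.down (hr'.trans hr))
      refine ⟨r', hr'.trans hr, i, R', S', Z', hZ', ?_, ?_, ?_, h2, hi2⟩
      · exact fun x hx q' hq' => hR x hx q' (hq'.trans hr')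
      · exact fun x hx q' hq' => hS x hx q' (hq'.trans hr')
      · exact fun x hx y q' hq' => hZZ x hx y q' (hq'.trans hr')
    obtain ⟨r, hr, i, -, -, -, -, -, -, -, hij, -⟩ := H2 b0 hb0 q1 (hq1.trans hq) hj
    have hrj : r ∈ Z pr0 (d i) := by
      rw [hij]
      exact hj.down hr
    refine ⟨r, hr.trans hq1, i, hrj, ?_⟩
    refine hC i R S (lft Z) hZ.lft r ?_
    intro a q2 hq2
    obtain ⟨b, hab, hb, hbb⟩ := exists_bound a
    obtain ⟨r3, hr3, i', R', S', Z', hZ', hR, hS, hZZ, hij', hφ⟩ :=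
      H2 b hb q2 (hq2.trans (hr.trans (hq1.trans hq))) (hj.down (hq2.trans hr))
    have hii : i' = i := hd (hij'.trans hij.symm)
    subst hii
    refine ⟨r3, hr3, R', S', lft Z', hZ'.lft, ?_, ?_, ?_, hφ⟩
    · exact fun x hx => hR x (hx.trans_le hab)
    · exact fun x hx => hS x (hx.trans_le hab)
    · exact fun x hx y => hZZ _ (hbb x hx).1 y
  · intro R S p
    constructor
    · intro hp q hq
      rw [forces_iSup] at hp
      obtain ⟨r, hr, i, hi⟩ := hp q hq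
      obtain ⟨r', hr', Z₁, hZ₁, hφ⟩ := (hP i R S r).1 hi r le_rfl
      obtain ⟨Z, hZ, hl, -, h0⟩ := exists_join Z₁ Z₁ hZ₁ hZ₁ (d i)
      refine ⟨r', hr'.trans hr, Z, hZ, forces_iSup_of i ⟨h0 r', ?_⟩⟩
      rw [hl]
      exact hφ
    · intro H
      rw [forces_iSup]
      intro q hq
      obtain ⟨r, hr, Z, hZ, hΦ⟩ := H q hq
      rw [forces_iSup] at hΦ
      obtain ⟨r', hr', i, -, hi⟩ := hΦ r le_rfl
      refine ⟨r', hr'.trans hr, i, (hP i R S r').2 ?_⟩
      intro q' hq'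
      exact ⟨q', le_rfl, lft Z, hZ.lft, Forces.down hi hq'⟩

theorem Sig.sup {X₁ X₂ : (K → RO P) → (K → RO P) → RO P} (h₁ : Sig X₁) (h₂ : Sig X₂) :
    Sig fun R S => X₁ R S ⊔ X₂ R S := by
  have h := Sig.iSup (K := K) (P := P) (ι := ULift.{u} Bool)
    (fun b => if b.down then KD.nat 1 else KD.nat 0) (by
      rintro ⟨b⟩ ⟨b'⟩ hb
      cases b <;> cases b' <;> simp [nat_inj] at hb ⊢)
    (X := fun b => if b.down then X₁ else X₂) (by
      rintro ⟨b⟩
      cases b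
      · exact h₂
      · exact h₁)
  refine h.congr fun R S p => ?_
  rw [forces_iSup, forces_sup]
  constructor
  · intro H q hq
    obtain ⟨r, hr, ⟨b⟩, hb⟩ := H q hq
    cases b
    · exact ⟨r, hr, Or.inr hb⟩
    · exact ⟨r, hr, Or.inl hb⟩
  · intro H q hq
    obtain ⟨r, hr, hb | hb⟩ := H q hq
    · exact ⟨r, hr, ⟨true⟩, hb⟩
    · exact ⟨r, hr, ⟨false⟩, hb⟩

/-- closed sets are `Σ¹₁` -/
theorem Sig.of_closed {X : (K → RO P) → (K → RO P) → RO P}
    (h1 : Ext3 fun R S (_ : K → K → RO P) => X R S)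
    (h2 : ClosedF fun R S (_ : K → K → RO P) => X R S) : Sig X := by
  refine ⟨fun R S _ => X R S, h1, h2, ?_⟩
  intro R S p
  constructor
  · intro hp q hq
    refine ⟨q, le_rfl, fun _ j => ofProp (j = KD.nat 0), ⟨fun i q' => ?_, fun i j j' q' hj hj' => ?_⟩,
      hp.down hq⟩
    · exact ⟨q', le_rfl, KD.nat 0, rfl⟩
    · rw [forces_ofProp] at hj hj'
      rw [hj, hj']
  · intro H
    refine forces_of_dense fun q hq => ?_
    obtain ⟨r, hr, Z, -, hX⟩ := H q hq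
    exact ⟨r, hr, hX⟩

end H79.IZ
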