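import Pool.Agent.H79.IZ.SigMod
import Pool.Agent.H79.IZ.SigS

/-!
# Not being a model is `Σ¹₁`

PROOF. `modF_compl`; every member of the joins is closed (`closed_of_loc`, `ClosedF.iInf`, `Loc.iSup` for
the finite index type `s`, `Ext3` similarly), so `Sig.of_closed`, `Sig.iSup` (index types `ULift ℕ`, `K`,
`Finset K` inject into `K`: `KD.nat`, `id`, `exists_cF`; for `⨆ n : ℕ` rewrite with `ULift`, or use
`Sig.iSup` for one index type `ULift ℕ × K × K × K`), `Sig.sup`.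
-/

universe u

namespace H79.IZ
open H85.Forcing BN RO Cardinal Set

variable {P : Type u} [Preorder P] {K : Type u} [LinearOrder K] [WellFoundedLT K] [KD K]

private theorem sn_nat {X : ℕ → (K → RO P) → (K → RO P) → RO P} (h : ∀ n, Sig (X n)) :
    Sig fun R S => ⨆ n, X n R S := by
  have h1 := Sig.iSup (ι := ULift.{u} ℕ) (fun n => (KD.nat n.down : K))
    (fun m n hmn => ULift.down_injective (nat_inj.1 hmn)) (fun n => h n.down)
  have h2 : (fun (R S : K → RO P) => ⨆ n : ULift.{u} ℕ, X n.down R S)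
      = fun R S => ⨆ n, X n R S := by
    funext R S
    exact iSup_ulift _
  rw [h2] at h1
  exact h1

private theorem sn_K {X : K → (K → RO P) → (K → RO P) → RO P} (h : ∀ n, Sig (X n)) :
    Sig fun R S => ⨆ n, X n R S :=
  Sig.iSup (fun n => n) (fun _ _ h => h) h

private theorem sn_F {X : Finset K → (K → RO P) → (K → RO P) → RO P} (h : ∀ n, Sig (X n)) :
    Sig fun R S => ⨆ n, X n R S := by
  obtain ⟨d, hd⟩ := exists_cF (K := K)
  exact Sig.iSup d hd h

private theorem sn_small (s : Finset K) : #s < #K :=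
  (Cardinal.lt_aleph0_of_finite s).trans aleph0_lt

private theorem sn_of {X : (K → RO P) → (K → RO P) → RO P}
    (h1 : Ext3 fun R S (_ : K → K → RO P) => X R S)
    (h2 : Loc fun R S (_ : K → K → RO P) => X R S) : Sig X :=
  Sig.of_closed h1 (closed_of_loc h2)

theorem sig_nmod (F : FH P K) : Sig fun (R _ : K → RO P) => (ModF (SG R))ᶜ := by
  have h : (fun (R _ : K → RO P) => (ModF (SG R))ᶜ) = fun (R _ : K → RO P) =>
    ((⨆ n, ⨆ i, (SG R n i i)ᶜ) ⊔ ((⨆ n, ⨆ i, ⨆ j, SG R n i j ⊓ (SG R n j i)ᶜ) ⊔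
      ((⨆ n, ⨆ i, ⨆ j, ⨆ k, (SG R n i j ⊓ SG R n j k) ⊓ (SG R n i k)ᶜ) ⊔
        ⨆ n, ⨆ i, ⨆ j, SG R (n + 1) i j ⊓ (SG R n i j)ᶜ))) ⊔
    ((⨆ s : Finset K, ⨅ a, ⨆ b : s, SG R 0 b.1 a) ⊔
      ⨆ n, ⨆ i, ⨆ s : Finset K, ⨅ a, SG R n i a ⇨ ⨆ b : s, SG R (n + 1) b.1 a) := by
    funext R _
    exact modF_compl (SG R)
  rw [h]
  refine Sig.sup (Sig.sup ?_ (Sig.sup ?_ (Sig.sup ?_ ?_))) (Sig.sup ?_ ?_)
  · exact sn_nat fun n => sn_K fun i => sn_of (Ext3.compl (Ext3.base_R _))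
      (Loc.compl (Loc.base_R _))
  · exact sn_nat fun n => sn_K fun i => sn_K fun j =>
      sn_of (Ext3.inf (Ext3.base_R _) (Ext3.compl (Ext3.base_R _)))
        (Loc.inf (Loc.base_R _) (Loc.compl (Loc.base_R _)))
  · exact sn_nat fun n => sn_K fun i => sn_K fun j => sn_K fun k =>
      sn_of (Ext3.inf (Ext3.inf (Ext3.base_R _) (Ext3.base_R _)) (Ext3.compl (Ext3.base_R _)))
        (Loc.inf (Loc.inf (Loc.base_R _) (Loc.base_R _)) (Loc.compl (Loc.base_R _)))
  · exact sn_nat fun n => sn_K fun i => sn_K fun j =>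
      sn_of (Ext3.inf (Ext3.base_R _) (Ext3.compl (Ext3.base_R _)))
        (Loc.inf (Loc.base_R _) (Loc.compl (Loc.base_R _)))
  · refine sn_F fun s => Sig.of_closed ?_ ?_
    · exact Ext3.iInf fun a => Ext3.iSup fun b => Ext3.base_R _
    · exact ClosedF.iInf fun a => closed_of_loc
        (Loc.iSup F (sn_small s) fun b => Loc.base_R _)
  · refine sn_nat fun n => sn_K fun i => sn_F fun s => Sig.of_closed ?_ ?_
    · exact Ext3.iInf fun a => Ext3.himp (Ext3.base_R _) (Ext3.iSup fun b => Ext3.base_R _)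
    · exact ClosedF.iInf fun a => closed_of_loc
        (Loc.himp (Loc.base_R _) (Loc.iSup F (sn_small s) fun b => Loc.base_R _))

end H79.IZ
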