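import Pool.Agent.H79.IZ.Trans
import Pool.Agent.H79.IZ.ModV
import Pool.Agent.H79.IZ.IsoV
import Pool.Agent.H79.IZ.SigNMod
import Pool.Agent.H79.IZ.SigIso
import Pool.Agent.H79.IZ.SigEmb
import Pool.Agent.H79.IZ.EmbIso
import Pool.Agent.H79.IZ.Pull
import Pool.Agent.H79.IZ.CardV

/-!
# Assembly of the interface part
-/

universe u

namespace H79.IZ
open H85.Forcing BN RO Cardinal Set

variable {P : Type u} [Preorder P] {K : Type u} [LinearOrder K] [WellFoundedLT K] [KD K]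

/-- the isomorphism relation for the ground model coding -/
noncomputable def XI (R S : K → RO P) : RO P :=
  ModF (SG R) ⊓ (ModF (SG S) ⊓ IsoF (SG R) (SG S))

theorem sig_XI : Sig (XI : (K → RO P) → (K → RO P) → RO P) :=
  Sig.inf sig_mod (Sig.inf (Sig.swap sig_mod) sig_iso)

theorem sig_XI_compl (F : FH P K) : Sig fun R S : K → RO P => (XI R S)ᶜ := by
  have h : Sig fun R S : K → RO P => (ModF (SG R))ᶜ ⊔ ((ModF (SG S))ᶜ ⊔ EmbF F.Ts (SG R) (SG S)) :=
    Sig.sup (sig_nmod F) (Sig.sup (Sig.swap (sig_nmod F)) (sig_emb F.Ts))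
  refine h.congr fun R S p => ?_
  have h1 : ModF (SG R) ⊓ ModF (SG S) ⊓ (IsoF (SG R) (SG S))ᶜ ≤ EmbF F.Ts (SG R) (SG S) := by
    intro p hp
    exact not_iso_emb F _ _ p (mem_ModF.1 hp.1.1).1 (mem_ModF.1 hp.1.2).1 hp.2
  have h2 : EmbF F.Ts (SG R) (SG S) ≤ (IsoF (SG R) (SG S))ᶜ := fun p hp => emb_not_iso F _ _ p hp
  have h3 : (ModF (SG R))ᶜ ⊔ ((ModF (SG S))ᶜ ⊔ EmbF F.Ts (SG R) (SG S)) = (XI R S)ᶜ := by
    unfold XI
    rw [compl_inf, compl_inf]
    apply le_antisymm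
    · exact sup_le_sup_left (sup_le_sup_left h2 _) _
    · have h4 : (IsoF (SG R) (SG S))ᶜ ≤
          (ModF (SG R))ᶜ ⊔ ((ModF (SG S))ᶜ ⊔ EmbF F.Ts (SG R) (SG S)) := by
        refine bcases (a := ModF (SG R) ⊓ ModF (SG S)) ?_ ?_
        · rw [inf_comm]
          exact h1.trans (le_sup_of_le_right le_sup_right)
        · refine inf_le_right.trans ?_
          rw [compl_inf, ← sup_assoc]
          exact le_sup_left
      exact sup_le le_sup_left (sup_le (le_sup_of_le_right le_sup_left) h4)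
  rw [h3]

theorem main_interface [Nonempty P] (F : FH P K) :
    ∃ (M : Type (u + 1)) (E : M → M → Prop), IsZFC E ∧ ∃ om two kap : M,
      IsOm E om ∧ IsTwo E two ∧ IsUncReg E kap ∧ PowLt E kap ∧ (∃ e, IsCode E om kap e) ∧
      ∀ e, IsCode E om kap e → Delta11 E two kap (Isom E om kap e) := by
  obtain ⟨U⟩ := exists_ult (RO P)
  have hT : ∀ {b : RO P}, b = ⊤ → U.T b := fun h => by rw [h]; exact U.top
  refine ⟨MQ U, ME U, isZFC U, cl U (ordN (KD.om : K)), cl U (ordN (KD.nat 2 : K)),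
    cl U (kapN K), (isOm_iff U _).2 (hT isOmB_om), (isTwo_iff U _).2 (hT isTwoB_nat),
    (isUncReg_iff U _).2 (hT (isUncReg_V F)), (powLt_iff U _).2 (hT (powLt_V F)), ?_, ?_⟩
  · obtain ⟨e, he⟩ := exists_codeTop (P := P) (K := K)
    exact ⟨cl U e, (isCode_iff U _ _ _).2 (hT he)⟩
  · intro e' he'
    obtain ⟨e₁, rfl⟩ := Quotient.exists_rep e'
    obtain ⟨e₀, he₀⟩ := exists_codeTop (P := P) (K := K)
    have hE : Ext (fun x : BN (RO P) => isCodeB (ordN (KD.om : K)) (kapN K) x) :=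
      (extC_isCodeB (om := fun _ : BN (RO P) => (ordN (KD.om : K) : BN (RO P)))
        (kap := fun _ => (kapN K : BN (RO P))) (e := fun t => t)).h
    obtain ⟨e, he, hcl⟩ := exists_top_cl U hE he₀ e₁ ((isCode_iff U _ _ _).1 he')
    have hcl' : (Quotient.mk (setoid U) e₁ : MQ U) = cl U e := hcl.symm
    rw [hcl']
    have hC := totC_of e he
    have key : ∀ R S : K → RO P,
        isomB (ordN (KD.om : K)) (kapN K) e (realN R) (realN S) = XI (pl (codeR e) R)
          (pl (codeR e) S) := by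
      intro R S
      unfold isomB XI
      rw [SG_pl, SG_pl, isModelB_eq F e he, isModelB_eq F e he, isoToB_eq e he]
    refine ⟨sigma11_of_sig U (Sig.pull F hC sig_XI) _ fun R S => ?_,
      sigma11_of_sig U (Sig.pull F hC (sig_XI_compl F)) _ fun R S => ?_⟩
    · rw [isom_iff, key]
    · rw [isom_iff, key, U.compl]

end H79.IZ
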