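import Pool.Agent.H79.IZ.Final
import Pool.Agent.H79.IZ.Adapt2

/-!
# The model
-/

namespace H79.IZ
open Cardinal Ordinal Set H85.Forcing

/-- there is a least inaccessible cardinal -/
theorem exists_lst : ∃ κ : Cardinal.{1}, Pool.Agent.H40.IS.Lst κ := by
  let S : Set Cardinal.{1} := {c | c.IsInaccessible}
  have hS : S.Nonempty := ⟨Cardinal.univ.{0, 1}, IsInaccessible.univ⟩
  obtain ⟨κ, hκ, h⟩ := WellFounded.has_min (wellFounded_lt (α := Cardinal.{1})) S hS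
  exact ⟨κ, hκ, fun c hc hc2 => h c hc2 hc⟩

theorem main : ∃ (M : Type 3) (E : M → M → Prop), IsZFC E ∧ ∃ om two kap : M,
    IsOm E om ∧ IsTwo E two ∧ IsUncReg E kap ∧ PowLt E kap ∧ (∃ e, IsCode E om kap e) ∧
    ∀ e, IsCode E om kap e → Delta11 E two kap (Isom E om kap e) := by
  obtain ⟨κ, hκ⟩ := exists_lst
  obtain ⟨D, hD, ⟨F⟩⟩ := exists_FH hκ
  letI : KD (KO κ) := kdOrd κ hκ.1
  exact main_interface F

end H79.IZ
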