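import Pool.Agent.H79.IZ.RegV

/-!
# Infinitely many classes and sequences of inequivalent elements

Level `0` is the whole set, level `n + 1` the relation `A n`: `lvl A l i a` is the value of: `a` belongs
to the class of `i` at level `l`. A sequence `G l i k` (`k : ℕ`) of elements of the class of `i` at level
`l`, pairwise not `A l`-equivalent.

PROOFS.
* `gseq_of_inf` (no choice is needed: recursion on `k`, least element): let
  `ok l i k a = lvl A l i a ⊓ ⨅ k' < k, ⨅ b, (G l i k' b ⇨ (A l b a)ᶜ)` and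
  `G l i k a = ok l i k a ⊓ ⨅ a' < a, (ok l i k a')ᶜ`; strong recursion on `k` (`Nat.strongRec` or
  `WellFounded.fix`, or define the set of the first `k` functions by recursion as a function
  `Fin k → K → RO P`). Single valued by minimality. Total below `p`: let `q ≤ p`. By induction on `k` the
  `G l i k'`, `k' < k`, are total, so some `r ≤ q` decides all `G l i k' (g k')`, `k' < k` (finite
  induction); apply `InfAt` to `s = {g k' : k' < k}`: some `r' ≤ r`, `a` with `r' ∈ lvl A l i a` and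
  `r' ∈ (A l (g k') a)ᶜ`, so `r' ∈ ok l i k a` (by uniqueness of the values of the `G l i k'`); so the
  set of pairs (`r' ≤ q`, `a`) with `r' ∈ ok l i k a` is not empty, take one with `a` minimal
  (`WellFounded.min`, over all `r' ≤ q`); then `r' ∈ G l i k a`.
* `inf_of_gseq`: given `s`, `q`: by finite induction decide the values `G l i k (g k)` for
  `k ≤ s.card` and all `A l b (g k)`, `b ∈ s` (`forces` `A l b (g k)` or its complement): `r ≤ q`. If for
  every `k ≤ s.card` some `b ∈ s` has `r ∈ A l b (g k)`, by the pigeonhole principle there are `k ≠ k'`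
  with the same `b`, so `r ∈ A l (g k) (g k')` by `RefAt`, contradiction. So some `g k` is not equivalent
  to any `b ∈ s`.
-/

universe u

namespace H79.IZ
open H85.Forcing RO Cardinal Set

variable {P : Type u} [Preorder P] {K : Type u} [LinearOrder K]

/-- the class of `i` at level `l` -/
def lvl (A : ℕ → K → K → RO P) : ℕ → K → K → RO P
  | 0, _, _ => ⊤
  | n + 1, i, a => A n i a

/-- `p` forces that `G l i` is a sequence of pairwise inequivalent elements of the class of `i` -/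
structure GSeqAt (p : P) (A : ℕ → K → K → RO P) (G : ℕ → K → ℕ → K → RO P) : Prop where
  total : ∀ l i k, ∀ q ≤ p, ∃ r ≤ q, ∃ a, r ∈ G l i k a
  uniq : ∀ l i k a b, ∀ q ≤ p, q ∈ G l i k a → q ∈ G l i k b → a = b
  mem : ∀ l i k a, ∀ q ≤ p, q ∈ G l i k a → q ∈ lvl A l i a
  ne : ∀ l i k k' a b, k ≠ k' → ∀ q ≤ p, q ∈ G l i k a → q ∈ G l i k' b → q ∈ (A l a b)ᶜ

private theorem GSeq_down {p q : P} {a : RO P} (h : p ∈ a) (hq : q ≤ p) : q ∈ a := a.down p q hq h

private theorem GSeq_dec {ι : Type*} [DecidableEq ι] (F : Finset ι) (φ : ι → RO P) (q : P) :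
    ∃ r ≤ q, ∀ x ∈ F, r ∈ φ x ∨ r ∈ (φ x)ᶜ := by
  induction F using Finset.induction_on with
  | empty => exact ⟨q, le_rfl, fun x hx => absurd hx (Finset.notMem_empty x)⟩
  | insert a F ha ih =>
    obtain ⟨r, hr, h⟩ := ih
    by_cases h1 : ∃ t ≤ r, t ∈ φ a
    · obtain ⟨t, ht, h2⟩ := h1
      refine ⟨t, ht.trans hr, fun x hx => ?_⟩
      rcases Finset.mem_insert.1 hx with rfl | hx
      · exact Or.inl h2
      · exact (h x hx).imp (fun h => GSeq_down h ht) (fun h => GSeq_down h ht)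
    · refine ⟨r, hr, fun x hx => ?_⟩
      rcases Finset.mem_insert.1 hx with rfl | hx
      · exact Or.inr (forces_compl.2 fun t ht h2 => h1 ⟨t, ht, h2⟩)
      · exact h x hx

private def GSeq_ok (A : ℕ → K → K → RO P) (l : ℕ) (i : K) (k : ℕ)
    (g : ∀ k' : ℕ, k' < k → K → RO P) (a : K) : RO P :=
  lvl A l i a ⊓ ⨅ k', ⨅ (h : k' < k), ⨅ b, (g k' h b ⇨ (A l b a)ᶜ)

private def GSeq_nx (A : ℕ → K → K → RO P) (l : ℕ) (i : K) (k : ℕ)
    (g : ∀ k' : ℕ, k' < k → K → RO P) (a : K) : RO P :=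
  GSeq_ok A l i k g a ⊓ ⨅ a', ⨅ (_ : a' < a), (GSeq_ok A l i k g a')ᶜ

private noncomputable def GSeq_G (A : ℕ → K → K → RO P) (l : ℕ) (i : K) : ℕ → K → RO P :=
  WellFounded.fix (measure id).wf fun k g => GSeq_nx A l i k (fun k' h => g k' h)

private theorem GSeq_G_eq (A : ℕ → K → K → RO P) (l : ℕ) (i : K) (k : ℕ) :
    GSeq_G A l i k = GSeq_nx A l i k (fun k' _ => GSeq_G A l i k') := by
  unfold GSeq_G
  rw [WellFounded.fix_eq]

private theorem GSeq_mem_ok {A : ℕ → K → K → RO P} {l : ℕ} {i : K} {k : ℕ}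
    {g : ∀ k' : ℕ, k' < k → K → RO P} {a : K} {q : P} : q ∈ GSeq_ok A l i k g a ↔
      q ∈ lvl A l i a ∧ ∀ k' (h : k' < k), ∀ b, ∀ r ≤ q, r ∈ g k' h b → r ∈ (A l b a)ᶜ := by
  unfold GSeq_ok
  simp only [forces_inf, forces_iInf, forces_himp]

private theorem GSeq_mem_nx {A : ℕ → K → K → RO P} {l : ℕ} {i : K} {k : ℕ}
    {g : ∀ k' : ℕ, k' < k → K → RO P} {a : K} {q : P} : q ∈ GSeq_nx A l i k g a ↔
      q ∈ GSeq_ok A l i k g a ∧ ∀ a' < a, ∀ r ≤ q, ¬ r ∈ GSeq_ok A l i k g a' := by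
  unfold GSeq_nx
  simp only [forces_inf, forces_iInf, forces_compl]

private theorem GSeq_uniq {A : ℕ → K → K → RO P} {l : ℕ} {i : K} {k : ℕ} {a b : K} {q : P}
    (h1 : q ∈ GSeq_G A l i k a) (h2 : q ∈ GSeq_G A l i k b) : a = b := by
  rw [GSeq_G_eq] at h1 h2
  rw [GSeq_mem_nx] at h1 h2
  rcases lt_trichotomy a b with h | h | h
  · exact absurd h1.1 (h2.2 a h q le_rfl)
  · exact h
  · exact absurd h2.1 (h1.2 b h q le_rfl)

theorem infAt_iff {p : P} {A : ℕ → K → K → RO P} [Nonempty K] : InfAt p A ↔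
    ∀ l i (s : Finset K), ∀ q ≤ p, ∃ r ≤ q, ∃ a, r ∈ lvl A l i a ∧ ∀ b ∈ s, r ∈ (A l b a)ᶜ := by
  constructor
  · intro h l i s q hq
    cases l with
    | zero =>
      obtain ⟨r, hr, a, ha⟩ := h.zero s q hq
      exact ⟨r, hr, a, forces_top, ha⟩
    | succ n => exact h.succ n i s q hq
  · intro h
    refine ⟨fun s q hq => ?_, fun n i s q hq => h (n + 1) i s q hq⟩
    obtain ⟨i⟩ := (inferInstance : Nonempty K)
    obtain ⟨r, hr, a, _, ha⟩ := h 0 i s q hq
    exact ⟨r, hr, a, ha⟩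

private theorem GSeq_fin {p : P} {G : ℕ → K → RO P} (n : ℕ) [Nonempty K]
    (h : ∀ k < n, ∀ q ≤ p, ∃ r ≤ q, ∃ a, r ∈ G k a) :
    ∀ q ≤ p, ∃ r ≤ q, ∃ g : ℕ → K, ∀ k < n, r ∈ G k (g k) := by
  induction n with
  | zero =>
    intro q hq
    exact ⟨q, le_rfl, fun _ => Classical.arbitrary K, fun k hk => absurd hk (Nat.not_lt_zero k)⟩
  | succ n ih =>
    intro q hq
    obtain ⟨r, hr, g, hg⟩ := ih (fun k hk => h k (hk.trans (Nat.lt_succ_self n))) q hq
    obtain ⟨t, ht, a, ha⟩ := h n (Nat.lt_succ_self n) r (hr.trans hq)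
    refine ⟨t, ht.trans hr, Function.update g n a, fun k hk => ?_⟩
    rcases Nat.lt_succ_iff_lt_or_eq.1 hk with h1 | rfl
    · rw [Function.update_of_ne h1.ne]
      exact GSeq_down (hg k h1) ht
    · rw [Function.update_self]
      exact ha

private theorem GSeq_total [WellFoundedLT K] [Nonempty K] {p : P} {A : ℕ → K → K → RO P}
    (h2 : InfAt p A) (l : ℕ) (i : K) (k : ℕ) :
    ∀ q ≤ p, ∃ r ≤ q, ∃ a, r ∈ GSeq_G A l i k a := by
  classical
  induction k using Nat.strong_induction_on with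
  | _ k ih =>
    intro q hq
    obtain ⟨r, hr, g, hg⟩ := GSeq_fin k ih q hq
    obtain ⟨t, ht, a, ha, hb⟩ := infAt_iff.1 h2 l i ((Finset.range k).image g) r (hr.trans hq)
    have hok : t ∈ GSeq_ok A l i k (fun k' _ => GSeq_G A l i k') a := by
      refine GSeq_mem_ok.2 ⟨ha, fun k' hk' b u hu hub => ?_⟩
      have h3 := GSeq_down (hg k' hk') (hu.trans ht)
      have h4 := GSeq_uniq hub h3
      subst h4
      exact GSeq_down (hb _ (Finset.mem_image_of_mem g (Finset.mem_range.2 hk'))) hu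
    have hne : {a : K | ∃ t ≤ q, t ∈ GSeq_ok A l i k (fun k' _ => GSeq_G A l i k') a}.Nonempty :=
      ⟨a, t, ht.trans hr, hok⟩
    have hmin := WellFounded.min_mem (wellFounded_lt (α := K)) _ hne
    obtain ⟨t0, ht0, hok0⟩ := hmin
    generalize hm : WellFounded.min (wellFounded_lt (α := K)) _ hne = a0 at hok0
    refine ⟨t0, ht0, a0, ?_⟩
    rw [GSeq_G_eq]
    refine GSeq_mem_nx.2 ⟨hok0, fun a' ha' u hu hua => ?_⟩
    subst hm
    have hmem : a' ∈ {a : K | ∃ t ≤ q, t ∈ GSeq_ok A l i k (fun k' _ => GSeq_G A l i k') a} :=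
      ⟨u, hu.trans ht0, hua⟩
    exact WellFounded.not_lt_min (wellFounded_lt (α := K)) _ hmem ha'

theorem gseq_of_inf [WellFoundedLT K] [Nonempty K] {p : P} {A : ℕ → K → K → RO P}
    (h1 : RefAt p A) (h2 : InfAt p A) : ∃ G, GSeqAt p A G := by
  refine ⟨fun l i k a => GSeq_G A l i k a, ?_, ?_, ?_, ?_⟩
  · intro l i k q hq
    exact GSeq_total h2 l i k q hq
  · intro l i k a b q _ ha hb
    exact GSeq_uniq ha hb
  · intro l i k a q _ ha
    have ha' : q ∈ GSeq_G A l i k a := ha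
    rw [GSeq_G_eq] at ha'
    exact (GSeq_mem_ok.1 (GSeq_mem_nx.1 ha').1).1
  · intro l i k k' a b hk q hq ha hb
    have ha' : q ∈ GSeq_G A l i k a := ha
    have hb' : q ∈ GSeq_G A l i k' b := hb
    rcases lt_or_gt_of_ne hk with h | h
    · have hb2 := hb'
      rw [GSeq_G_eq] at hb2
      exact (GSeq_mem_ok.1 (GSeq_mem_nx.1 hb2).1).2 k h a q le_rfl ha'
    · have ha2 := ha'
      rw [GSeq_G_eq] at ha2
      have h3 := (GSeq_mem_ok.1 (GSeq_mem_nx.1 ha2).1).2 k' h b q le_rfl hb'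
      refine forces_compl.2 fun r hr h4 => ?_
      exact forces_compl.1 h3 r hr (h1.symm l a b r (hr.trans hq) h4)

theorem inf_of_gseq [Nonempty K] {p : P} {A : ℕ → K → K → RO P} {G : ℕ → K → ℕ → K → RO P}
    (h1 : RefAt p A) (h2 : GSeqAt p A G) : InfAt p A := by
  classical
  refine infAt_iff.2 fun l i s q hq => ?_
  obtain ⟨r, hr, g, hg⟩ := GSeq_fin (G := G l i) (p := p) (s.card + 1)
    (fun k _ => h2.total l i k) q hq
  obtain ⟨t, ht, hd⟩ := GSeq_dec (s ×ˢ Finset.range (s.card + 1))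
    (fun x => A l x.1 (g x.2)) r
  by_cases hex : ∃ k < s.card + 1, ∀ b ∈ s, ¬ t ∈ A l b (g k)
  · obtain ⟨k, hk, hb⟩ := hex
    refine ⟨t, ht.trans hr, g k, h2.mem l i k (g k) t ((ht.trans hr).trans hq)
      (GSeq_down (hg k hk) ht), fun b hbs => ?_⟩
    have h3 := hd (b, k) (Finset.mem_product.2 ⟨hbs, Finset.mem_range.2 hk⟩)
    exact h3.resolve_left (hb b hbs)
  · exfalso
    push Not at hex
    choose f hf1 hf2 using hex
    have hcard : s.card < (Finset.range (s.card + 1)).attach.card := by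
      rw [Finset.card_attach, Finset.card_range]
      exact Nat.lt_succ_self _
    obtain ⟨x, _, y, _, hxy, he⟩ := Finset.exists_ne_map_eq_of_card_lt_of_maps_to hcard
      (f := fun x : {x // x ∈ Finset.range (s.card + 1)} => f x.1 (Finset.mem_range.1 x.2))
      (fun x _ => hf1 x.1 (Finset.mem_range.1 x.2))
    have hx := hf2 x.1 (Finset.mem_range.1 x.2)
    have hy := hf2 y.1 (Finset.mem_range.1 y.2)
    have he' : f x.1 (Finset.mem_range.1 x.2) = f y.1 (Finset.mem_range.1 y.2) := he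
    rw [he'] at hx
    have htp : t ≤ p := (ht.trans hr).trans hq
    have h3 := h1.trans l _ _ _ t htp (h1.symm l _ _ t htp hx) hy
    have h4 := h2.ne l i x.1 y.1 (g x.1) (g y.1) (fun e => hxy (Subtype.ext e)) t htp
      (GSeq_down (hg _ (Finset.mem_range.1 x.2)) ht) (GSeq_down (hg _ (Finset.mem_range.1 y.2)) ht)
    exact forces_compl.1 h4 t le_rfl h3

end H79.IZ
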