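import Pool.Agent.H79.IZ.At

/-!
# MP_4c8320_lc, interface part: the cardinal `κ` as a well-order `K`
-/

universe u

namespace H79.IZ
open Cardinal Set

/-- `K` is a well-order whose order type is an uncountable regular cardinal `κ` with
`κ^(<κ) = κ`; `nat n` and `om` are the elements with order types `n` and `ω` -/
class KD (K : Type u) [LinearOrder K] [WellFoundedLT K] where
  nat : ℕ → K
  nat_lt : ∀ {m n : ℕ}, nat m < nat n ↔ m < n
  lt_nat : ∀ {x : K} {n : ℕ}, x < nat n → ∃ m, m < n ∧ x = nat m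
  om : K
  lt_om : ∀ {x : K}, x < om ↔ ∃ n, x = nat n
  small : ∀ a : K, #(Iio a) < #K
  reg : ∀ {ι : Type u} (f : ι → K), #ι < #K → ∃ b, ∀ i, f i < b
  seq : #(Sq K K) ≤ #K

variable {K : Type u} [LinearOrder K] [WellFoundedLT K] [KD K]

theorem nat_inj {m n : ℕ} : (KD.nat m : K) = KD.nat n ↔ m = n := by
  constructor
  · intro h
    rcases lt_trichotomy m n with h1 | h1 | h1
    · exact absurd (KD.nat_lt (K := K) |>.2 h1) (by rw [h]; exact lt_irrefl _)
    · exact h1
    · exact absurd (KD.nat_lt (K := K) |>.2 h1) (by rw [h]; exact lt_irrefl _)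
  · rintro rfl; rfl

theorem aleph0_lt : ℵ₀ < #K := by
  refine lt_of_le_of_lt ?_ (KD.small (KD.om : K))
  have : Infinite (Iio (KD.om : K)) :=
    Infinite.of_injective (fun n : ℕ => (⟨KD.nat n, KD.lt_om.2 ⟨n, rfl⟩⟩ : Iio (KD.om : K)))
      (fun m n h => nat_inj.1 (congrArg Subtype.val h))
  exact Cardinal.aleph0_le_mk _

theorem exists_gt' (a : K) : ∃ b, a < b := by
  obtain ⟨b, hb⟩ := KD.reg (K := K) (ι := PUnit.{u+1}) (fun _ => a)
    (by rw [Cardinal.mk_punit]; exact lt_trans Cardinal.one_lt_aleph0 aleph0_lt)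
  exact ⟨b, hb PUnit.unit⟩

theorem small_nat : #(ULift.{u} ℕ) < #K := by
  have : #(ULift.{u} ℕ) = ℵ₀ := by simp
  rw [this]; exact aleph0_lt

theorem small_prod {ι κ : Type u} (h : #ι < #K) (h' : #κ < #K) : #(ι × κ) < #K := by
  rw [Cardinal.mk_prod, Cardinal.lift_id, Cardinal.lift_id]
  exact Cardinal.mul_lt_of_lt aleph0_lt.le h h'

/-- an injective ground model coding of `ω × κ × κ` by `κ` -/
theorem exists_c3 : ∃ c : ℕ → K → K → K, ∀ n i j n' i' j', c n i j = c n' i' j' ↔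
    (n = n' ∧ i = i' ∧ j = j') := by
  have hK : ℵ₀ ≤ #K := aleph0_lt.le
  have h : #(ULift.{u} ℕ × (K × K)) ≤ #K := by
    rw [Cardinal.mk_prod, Cardinal.mk_prod]
    simp only [Cardinal.lift_id]
    rw [Cardinal.mul_eq_self hK]
    exact (Cardinal.mul_le_max_of_aleph0_le_right hK).trans
      (max_le (small_nat (K := K)).le le_rfl)
  obtain ⟨f⟩ := Cardinal.le_def _ _ |>.1 h
  refine ⟨fun n i j => f (ULift.up n, i, j), fun n i j n' i' j' => ?_⟩
  rw [f.injective.eq_iff]
  simp [Prod.ext_iff]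

/-- the chosen coding -/
noncomputable def c3 : ℕ → K → K → K := exists_c3.choose

theorem c3_inj {n n' : ℕ} {i j i' j' : K} : c3 n i j = c3 n' i' j' ↔
    (n = n' ∧ i = i' ∧ j = j') :=
  exists_c3.choose_spec n i j n' i' j'

theorem exists_cS : ∃ d : Sq K K → K, Function.Injective d := by
  obtain ⟨f⟩ := Cardinal.le_def _ _ |>.1 (KD.seq (K := K))
  exact ⟨f, f.injective⟩

theorem exists_cS2 : ∃ d : Sq K (K × K) → K, Function.Injective d := by
  obtain ⟨d, hd⟩ := exists_cS (K := K)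
  have h : #(K × K) ≤ #K := by
    rw [Cardinal.mk_prod, Cardinal.lift_id, Cardinal.mul_eq_self (aleph0_lt (K := K)).le]
  obtain ⟨f⟩ := Cardinal.le_def _ _ |>.1 h
  refine ⟨fun s => d ⟨s.1, fun i => f (s.2 i)⟩, fun s t hst => ?_⟩
  obtain ⟨a, s⟩ := s
  obtain ⟨b, t⟩ := t
  have h1 := hd hst
  have h2 : a = b := congrArg Sigma.fst h1
  subst h2
  have h3 : (fun i => f (s i)) = fun i => f (t i) := eq_of_heq (Sigma.mk.inj h1).2
  have h4 : s = t := funext fun i => f.injective (congrFun h3 i)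
  rw [h4]

theorem exists_cF : ∃ d : Finset K → K, Function.Injective d := by
  have : Infinite K := Cardinal.infinite_iff.2 (aleph0_lt (K := K)).le
  have h : #(Finset K) ≤ #K := (Cardinal.mk_finset_of_infinite K).le
  obtain ⟨f⟩ := Cardinal.le_def _ _ |>.1 h
  exact ⟨f, f.injective⟩

end H79.IZ
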