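import Pool.Agent.H79.IZ.KData

/-!
# The ordinals below an inaccessible cardinal as `K`

PROOF. `nat n = n`, `om = ω`, both below `κ.ord`; `#K = lift κ` (`Cardinal.mk_Iio_ordinal`),
`#(Iio a) = lift a.card < lift κ`. `reg`: a family of ordinals below `κ.ord` indexed by a type of
cardinality `< lift κ` has a supremum below `κ.ord` by regularity (transfer the index type to `Type v`:
`#ι < lift κ` gives `#ι = lift c` with `c < κ`, or use `Ordinal.iSup_lt_ord_lift` and its variants).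
`seq`: a function `Iio a → K` is bounded by some `b`, so `Sq K K` injects into
`Σ a b : K, (Iio a → Iio b)`, and `#(Iio a → Iio b) < #K` by strong limit, so `#(Sq K K) ≤ #K * #K * #K`.
-/

universe v

namespace H79.IZ
open Cardinal Ordinal Set

/-- the ordinals below `κ` -/
abbrev KO (κ : Cardinal.{v}) : Type (v + 1) := {x : Ordinal.{v} // x < κ.ord}

private theorem mk_KO (κ : Cardinal.{v}) : #(KO κ) = Cardinal.lift.{v + 1} κ := by
  have h := Cardinal.mk_Iio_ordinal (κ.ord)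
  simp only [Cardinal.card_ord] at h
  exact h

/-- the initial segment of `KO κ` below `a` -/
private def iioEquiv {κ : Cardinal.{v}} (a : KO κ) : Iio a ≃ Iio a.1 where
  toFun x := ⟨x.1.1, x.2⟩
  invFun x := ⟨⟨x.1, lt_trans x.2 a.2⟩, x.2⟩
  left_inv _ := rfl
  right_inv _ := rfl

private theorem mk_Iio_KO {κ : Cardinal.{v}} (a : KO κ) :
    #(Iio a) = Cardinal.lift.{v + 1} a.1.card := by
  rw [Cardinal.mk_congr (iioEquiv a)]
  exact Cardinal.mk_Iio_ordinal a.1

private theorem small_KO {κ : Cardinal.{v}} (a : KO κ) : #(Iio a) < #(KO κ) := by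
  rw [mk_Iio_KO, mk_KO, Cardinal.lift_lt]
  exact Cardinal.lt_ord.1 a.2

private theorem nat_lt_KO {κ : Cardinal.{v}} (h : κ.IsInaccessible) (n : ℕ) :
    (n : Ordinal.{v}) < κ.ord := by
  refine Cardinal.lt_ord.2 ?_
  rw [Ordinal.card_nat]
  exact lt_trans (Cardinal.natCast_lt_aleph0) h.aleph0_lt

private theorem om_lt_KO {κ : Cardinal.{v}} (h : κ.IsInaccessible) :
    (ω : Ordinal.{v}) < κ.ord := by
  refine Cardinal.lt_ord.2 ?_
  rw [Ordinal.card_omega0]
  exact h.aleph0_lt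

private theorem reg_KO {κ : Cardinal.{v}} (h : κ.IsInaccessible) {ι : Type (v + 1)}
    (f : ι → KO κ) (hι : #ι < #(KO κ)) : ∃ b, ∀ i, f i < b := by
  rw [mk_KO] at hι
  obtain ⟨c, hc, hc2⟩ := Cardinal.lt_lift_iff.1 hι
  have e : ULift.{v + 1} c.out ≃ ι := by
    refine Classical.choice (Cardinal.eq.1 ?_)
    rw [Cardinal.mk_uLift, Cardinal.mk_out]
    exact hc2
  have hs : (⨆ i : c.out, (f (e ⟨i⟩)).1) < κ.ord := by
    refine Ordinal.iSup_lt_of_lt_cof ?_ (fun i => (f (e ⟨i⟩)).2)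
    rw [Cardinal.mk_out]
    exact lt_of_lt_of_le hc h.le_cof_ord
  have hlim := Cardinal.isSuccLimit_ord h.aleph0_lt.le
  refine ⟨⟨Order.succ (⨆ i : c.out, (f (e ⟨i⟩)).1), hlim.succ_lt hs⟩, fun i => ?_⟩
  obtain ⟨⟨j⟩, rfl⟩ := e.surjective i
  exact Subtype.coe_lt_coe.1
    (Order.lt_succ_iff.2 (Ordinal.le_iSup (fun i : c.out => (f (e ⟨i⟩)).1) j))

private theorem pow_lt {κ a b : Cardinal.{v}} (h : κ.IsInaccessible) (ha : a < κ) (hb : b < κ) :
    b ^ a < κ := by
  have h1 : b * a < κ := Cardinal.mul_lt_of_lt h.aleph0_lt.le hb ha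
  calc b ^ a ≤ (2 ^ b) ^ a := Cardinal.power_le_power_right (Cardinal.cantor b).le
    _ = 2 ^ (b * a) := (Cardinal.power_mul).symm
    _ < κ := h.isStrongPrelimit h1

private theorem fun_KO {κ : Cardinal.{v}} (h : κ.IsInaccessible) (a b : KO κ) :
    #(Iio a → Iio b) ≤ #(KO κ) := by
  rw [Cardinal.mk_pi, Cardinal.prod_const, mk_Iio_KO, mk_Iio_KO, mk_KO]
  simp only [Cardinal.lift_id]
  rw [← Cardinal.lift_power, Cardinal.lift_le]
  exact (pow_lt h (Cardinal.lt_ord.1 a.2) (Cardinal.lt_ord.1 b.2)).le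

private theorem seq_KO {κ : Cardinal.{v}} (h : κ.IsInaccessible) :
    #(Sq (KO κ) (KO κ)) ≤ #(KO κ) := by
  classical
  have hb : ∀ s : Sq (KO κ) (KO κ), ∃ b, ∀ i, s.2 i < b := fun s =>
    reg_KO h s.2 (small_KO s.1)
  choose b hb using hb
  have he : ∀ a c : KO κ, Nonempty ((Iio a → Iio c) ↪ KO κ) := fun a c =>
    (Cardinal.le_def _ _).1 (fun_KO h a c)
  let e : ∀ a c : KO κ, (Iio a → Iio c) ↪ KO κ := fun a c => (he a c).some
  have hK : ℵ₀ ≤ #(KO κ) := by
    rw [mk_KO, Cardinal.aleph0_le_lift]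
    exact h.aleph0_lt.le
  have h3 : #(KO κ × (KO κ × KO κ)) ≤ #(KO κ) := by
    rw [Cardinal.mk_prod, Cardinal.mk_prod]
    simp only [Cardinal.lift_id]
    rw [Cardinal.mul_eq_self hK, Cardinal.mul_eq_self hK]
  let F : Sq (KO κ) (KO κ) → KO κ × (KO κ × KO κ) := fun s =>
    (s.1, b s, e s.1 (b s) (fun i => ⟨s.2 i, hb s i⟩))
  refine (Cardinal.mk_le_of_injective (f := F) ?_).trans h3
  intro s t hst
  have h1 : s.1 = t.1 := congrArg Prod.fst hst
  have h2 : b s = b t := congrArg (fun x => x.2.1) hst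
  have h4 : e s.1 (b s) (fun i => ⟨s.2 i, hb s i⟩) = e t.1 (b t) (fun i => ⟨t.2 i, hb t i⟩) :=
    congrArg (fun x => x.2.2) hst
  clear hst
  obtain ⟨a, s⟩ := s
  obtain ⟨a', t⟩ := t
  simp only at h1
  subst h1
  have key : ∀ (c c' : KO κ) (hc : ∀ i, s i < c) (hc' : ∀ i, t i < c'), c = c' →
      e a c (fun i => ⟨s i, hc i⟩) = e a c' (fun i => ⟨t i, hc' i⟩) → s = t := by
    rintro c c' hc hc' rfl he'
    have h5 := (e a c).injective he'
    funext i
    exact congrArg Subtype.val (congrFun h5 i)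
  have h6 := key _ _ (hb ⟨a, s⟩) (hb ⟨a, t⟩) h2 h4
  rw [h6]

@[instance_reducible]
noncomputable def kdOrd (κ : Cardinal.{v}) (h : κ.IsInaccessible) : KD (KO κ) where
  nat n := ⟨n, nat_lt_KO h n⟩
  nat_lt := by
    intro m n
    exact Subtype.mk_lt_mk.trans Nat.cast_lt
  lt_nat := by
    rintro ⟨x, hx⟩ n hxn
    have h1 : x < (n : Ordinal.{v}) := hxn
    obtain ⟨m, rfl⟩ := Ordinal.lt_omega0.1 (lt_trans h1 (Ordinal.natCast_lt_omega0 n))
    exact ⟨m, Nat.cast_lt.1 h1, rfl⟩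
  om := ⟨ω, om_lt_KO h⟩
  lt_om := by
    rintro ⟨x, hx⟩
    constructor
    · intro h1
      obtain ⟨m, rfl⟩ := Ordinal.lt_omega0.1 (show x < ω from h1)
      exact ⟨m, rfl⟩
    · rintro ⟨n, hn⟩
      have h1 : x = (n : Ordinal.{v}) := congrArg Subtype.val hn
      subst h1
      exact Ordinal.natCast_lt_omega0 n
  small := small_KO
  reg := fun f hf => reg_KO h f hf
  seq := seq_KO h

end H79.IZ
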