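import Pool.Agent.H79.IZ.SigMod

/-!
# `x ∈ T(A, A')` is locally determined

PROOF. No forcing is needed: for given `x` the numbers `i` with `Gr x i j` for some `j` are `< x.1` or of
the form `(x.2 k).2`, `k < x.1`, and the `j` with `Gr x i j` for some `i` similarly; so the set of all
`c3 n i j` with `i`, `j` of one of these forms is indexed by a type of cardinality `< #K`
(`small_nat`, `small_prod`, `KD.small`), hence has a bound `a` (`KD.reg`). If `R, R'` and `S, S'` agree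
below `a` at `r` then `TreeAt r (SG R) (SG S) x` iff `TreeAt r (SG R') (SG S') x`.
-/

universe u

namespace H79.IZ
open H85.Forcing BN RO Cardinal Set

variable {P : Type u} [Preorder P] {K : Type u} [LinearOrder K] [WellFoundedLT K] [KD K]

omit [WellFoundedLT K] [KD K] in
private theorem locTree_gr {x : Sq K (K × K)} {i j : K} (h : Gr x i j) :
    ∃ t : ULift.{u} ℕ × Iio x.1,
      (if t.1.down = 0 then t.2.1 else (x.2 t.2).2) = i ∧
      (if t.1.down = 0 then (x.2 t.2).1 else t.2.1) = j := by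
  rcases h with ⟨h, hj⟩ | ⟨h, hi⟩
  · refine ⟨(⟨0⟩, ⟨i, h⟩), ?_, ?_⟩
    · simp
    · simpa using hj
  · refine ⟨(⟨1⟩, ⟨j, h⟩), ?_, ?_⟩
    · simpa using hi
    · simp

theorem exists_bound_tree (x : Sq K (K × K)) : ∃ a : K, ∀ n i j i' j', Gr x i i' → Gr x j j' →
    c3 n i j < a ∧ c3 n i' j' < a := by
  have hT : #(ULift.{u} ℕ × Iio x.1) < #K := small_prod small_nat (KD.small x.1)
  have hI : #(ULift.{u} ℕ × ((ULift.{u} ℕ × Iio x.1) × (ULift.{u} ℕ × Iio x.1))) < #K :=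
    small_prod small_nat (small_prod hT hT)
  obtain ⟨a, ha⟩ := KD.reg (fun t : ULift.{u} ℕ × ((ULift.{u} ℕ × Iio x.1) ×
      (ULift.{u} ℕ × Iio x.1)) => (c3 t.1.down
        (if t.2.1.1.down = 0 then t.2.1.2.1 else (x.2 t.2.1.2).2)
        (if t.2.2.1.down = 0 then t.2.2.2.1 else (x.2 t.2.2.2).2) : K)) hI
  obtain ⟨b, hb⟩ := KD.reg (fun t : ULift.{u} ℕ × ((ULift.{u} ℕ × Iio x.1) ×
      (ULift.{u} ℕ × Iio x.1)) => (c3 t.1.down
        (if t.2.1.1.down = 0 then (x.2 t.2.1.2).1 else t.2.1.2.1)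
        (if t.2.2.1.down = 0 then (x.2 t.2.2.2).1 else t.2.2.2.1) : K)) hI
  refine ⟨max a b, fun n i j i' j' hi hj => ?_⟩
  obtain ⟨s, hs1, hs2⟩ := locTree_gr hi
  obtain ⟨t, ht1, ht2⟩ := locTree_gr hj
  have h1 := ha (⟨n⟩, (s, t))
  have h2 := hb (⟨n⟩, (s, t))
  simp only [hs1, ht1] at h1
  simp only [hs2, ht2] at h2
  exact ⟨lt_of_lt_of_le h1 (le_max_left _ _), lt_of_lt_of_le h2 (le_max_right _ _)⟩

private theorem locTree_congr {x : Sq K (K × K)} {r : P} {R S R' S' : K → RO P}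
    (h : ∀ n i j i' j', Gr x i i' → Gr x j j' → ∀ q ≤ r,
      (q ∈ R (c3 n i j) ↔ q ∈ R' (c3 n i j)) ∧ (q ∈ S (c3 n i' j') ↔ q ∈ S' (c3 n i' j')))
    (ht : TreeAt r (SG R) (SG S) x) : TreeAt r (SG R') (SG S') x := by
  refine ⟨ht.inj, fun n i j i' j' hi hj q hq => ?_⟩
  have h1 := ht.iso n i j i' j' hi hj q hq
  obtain ⟨h2, h3⟩ := h n i j i' j' hi hj q hq
  exact h2.symm.trans (h1.trans h3)

theorem loc_tree (x : Sq K (K × K)) :
    Loc fun (R S : K → RO P) (_ : K → K → RO P) => TreeF (SG R) (SG S) x := by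
  intro R S Z _ p
  obtain ⟨a, ha⟩ := exists_bound_tree x
  refine ⟨p, le_rfl, a, fun R' S' Z' _ r _ hR hS _ => ?_⟩
  rw [mem_TreeF, mem_TreeF]
  constructor
  · intro h
    refine locTree_congr (fun n i j i' j' hi hj q hq => ?_) h
    obtain ⟨h1, h2⟩ := ha n i j i' j' hi hj
    exact ⟨hR _ h1 q hq, hS _ h2 q hq⟩
  · intro h
    refine locTree_congr (fun n i j i' j' hi hj q hq => ?_) h
    obtain ⟨h1, h2⟩ := ha n i j i' j' hi hj
    exact ⟨(hR _ h1 q hq).symm, (hS _ h2 q hq).symm⟩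

theorem ext_tree (x : Sq K (K × K)) :
    Ext3 fun (R S : K → RO P) (_ : K → K → RO P) => TreeF (SG R) (SG S) x := by
  intro p R S Z R' S' Z' hR hS _ h
  rw [mem_TreeF] at h ⊢
  exact locTree_congr (fun n i j i' j' _ _ q hq => ⟨hR _ q hq, hS _ q hq⟩) h

omit [WellFoundedLT K] [KD K] in
private theorem locTree_gr_of_le {x y : Sq K (K × K)} (hx : Sq.Le x y) {i j : K} (h : Gr x i j) :
    Gr y i j := by
  rcases h with ⟨h, hj⟩ | ⟨h, hi⟩
  · left
    refine ⟨lt_of_lt_of_le h hx.1, ?_⟩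
    rw [← hx.2 i h (lt_of_lt_of_le h hx.1)]
    exact hj
  · right
    refine ⟨lt_of_lt_of_le h hx.1, ?_⟩
    rw [← hx.2 j h (lt_of_lt_of_le h hx.1)]
    exact hi

/-- the tree is closed under initial segments -/
theorem TreeAt.of_le {p : P} {A A' : ℕ → K → K → RO P} {x y : Sq K (K × K)} (h : TreeAt p A A' y)
    (hx : Sq.Le x y) : TreeAt p A A' x :=
  ⟨fun i j i' j' hi hj => h.inj i j i' j' (locTree_gr_of_le hx hi) (locTree_gr_of_le hx hj),
    fun n i j i' j' hi hj => h.iso n i j i' j' (locTree_gr_of_le hx hi)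
      (locTree_gr_of_le hx hj)⟩

end H79.IZ
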