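import Pool.Agent.H79.IZ.Sig
import Pool.Agent.H79.IZ.Fun

/-!
# Calculus of locally determined and closed sets

PROOFS. `Loc.iInf`: the conditions `q` which know a bound for `φ i` are dense and open, so some `q`
knows bounds `a i` for all `i : ι` (`F.dist_below`, `#ι < #K`) and `KD.reg` gives a common bound
(`AgAt` for a larger bound implies `AgAt` for a smaller one). `Loc.iSup`, `Loc.himp`, `Loc.compl`
similarly (`r ∈ φ ⇨ ψ` is a statement about all `r' ≤ r`). `Loc.base_R`: `a` any element `> i`.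
`closed_of_loc`: let `p` satisfy the hypothesis of `ClosedF` and `q ≤ p`; take `q' ≤ q` and `a` from
`Loc`, then `r ≤ q'` and `R' S' Z'` with `r ∈ φ R' S' Z'`, so `r ∈ φ R S Z`; `forces_of_dense`.
`ClosedF.iInf`: clear (`forces_iInf`).
-/

universe u

namespace H79.IZ
open H85.Forcing BN RO Cardinal Set

variable {P : Type u} [Preorder P] {K : Type u} [LinearOrder K] [WellFoundedLT K] [KD K]

abbrev T3 (P K : Type u) [Preorder P] : Type u :=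
  (K → RO P) → (K → RO P) → (K → K → RO P) → RO P

theorem AgAt.antiL {p q : P} {a b : K} {R S : K → RO P} (h : AgAt p a R S) (hq : q ≤ p)
    (hb : b ≤ a) : AgAt q b R S :=
  fun i hi r hr => h i (hi.trans_le hb) r (hr.trans hq)

theorem AgAt2.antiL {p q : P} {a b : K} {Z W : K → K → RO P} (h : AgAt2 p a Z W) (hq : q ≤ p)
    (hb : b ≤ a) : AgAt2 q b Z W :=
  fun i hi j r hr => h i (hi.trans_le hb) j r (hr.trans hq)

theorem EqAt.downL {p q : P} {R S : K → RO P} (h : EqAt p R S) (hq : q ≤ p) : EqAt q R S :=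
  fun i r hr => h i r (hr.trans hq)

theorem EqAt2.downL {p q : P} {Z W : K → K → RO P} (h : EqAt2 p Z W) (hq : q ≤ p) :
    EqAt2 q Z W :=
  fun i j r hr => h i j r (hr.trans hq)

theorem EqAt.symmL {p : P} {R S : K → RO P} (h : EqAt p R S) : EqAt p S R :=
  fun i r hr => (h i r hr).symm

theorem EqAt2.symmL {p : P} {Z W : K → K → RO P} (h : EqAt2 p Z W) : EqAt2 p W Z :=
  fun i j r hr => (h i j r hr).symm

theorem closed_of_loc {φ : T3 P K} (h : Loc φ) : ClosedF φ := by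
  intro R S Z hZ p hp
  refine forces_of_dense fun q hq => ?_
  obtain ⟨q', hq', a, ha⟩ := h R S Z hZ q
  obtain ⟨r, hr, R', S', Z', hZ', h1, h2, h3, h4⟩ := hp a q' (hq'.trans hq)
  exact ⟨r, hr.trans hq', (ha R' S' Z' hZ' r hr h1 h2 h3).2 h4⟩

theorem ClosedF.iInf {ι : Sort*} {φ : ι → T3 P K} (h : ∀ i, ClosedF (φ i)) :
    ClosedF fun R S Z => ⨅ i, φ i R S Z := by
  intro R S Z hZ p hp
  refine forces_iInf.2 fun i => h i R S Z hZ p fun a q hq => ?_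
  obtain ⟨r, hr, R', S', Z', hZ', h1, h2, h3, h4⟩ := hp a q hq
  exact ⟨r, hr, R', S', Z', hZ', h1, h2, h3, forces_iInf.1 h4 i⟩

theorem ClosedF.inf {φ ψ : T3 P K} (h : ClosedF φ) (h' : ClosedF ψ) :
    ClosedF fun R S Z => φ R S Z ⊓ ψ R S Z := by
  intro R S Z hZ p hp
  refine forces_inf.2 ⟨h R S Z hZ p fun a q hq => ?_, h' R S Z hZ p fun a q hq => ?_⟩
  · obtain ⟨r, hr, R', S', Z', hZ', h1, h2, h3, h4⟩ := hp a q hq
    exact ⟨r, hr, R', S', Z', hZ', h1, h2, h3, h4.1⟩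
  · obtain ⟨r, hr, R', S', Z', hZ', h1, h2, h3, h4⟩ := hp a q hq
    exact ⟨r, hr, R', S', Z', hZ', h1, h2, h3, h4.2⟩

theorem Loc.const (b : RO P) : Loc (K := K) fun _ _ _ => b := by
  exact fun R S Z _ p => ⟨p, le_rfl, KD.nat 0, fun _ _ _ _ _ _ _ _ _ => Iff.rfl⟩

theorem Loc.base_R (i : K) : Loc fun (R _ : K → RO P) _ => R i := by
  intro R S Z _ p
  obtain ⟨b, hb⟩ := exists_gt' i
  exact ⟨p, le_rfl, b, fun _ _ _ _ r _ h1 _ _ => h1 i hb r le_rfl⟩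

theorem Loc.base_S (i : K) : Loc fun (_ S : K → RO P) _ => S i := by
  intro R S Z _ p
  obtain ⟨b, hb⟩ := exists_gt' i
  exact ⟨p, le_rfl, b, fun _ _ _ _ r _ _ h2 _ => h2 i hb r le_rfl⟩

theorem Loc.base_Z (i j : K) : Loc fun (_ _ : K → RO P) Z => Z i j := by
  intro R S Z _ p
  obtain ⟨b, hb⟩ := exists_gt' i
  exact ⟨p, le_rfl, b, fun _ _ _ _ r _ _ _ h3 => h3 i hb j r le_rfl⟩

theorem Loc.inf {φ ψ : T3 P K} (h : Loc φ) (h' : Loc ψ) :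
    Loc fun R S Z => φ R S Z ⊓ ψ R S Z := by
  intro R S Z hZ p
  obtain ⟨q, hq, a, ha⟩ := h R S Z hZ p
  obtain ⟨q', hq', b, hb⟩ := h' R S Z hZ q
  refine ⟨q', hq'.trans hq, max a b, fun R' S' Z' hZ' r hr h1 h2 h3 => ?_⟩
  have e1 : ∀ t ≤ r, (t ∈ φ R S Z ↔ t ∈ φ R' S' Z') := fun t ht =>
    ha R' S' Z' hZ' t (ht.trans (hr.trans hq')) (h1.antiL ht (le_max_left _ _))
      (h2.antiL ht (le_max_left _ _)) (h3.antiL ht (le_max_left _ _))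
  have e2 : ∀ t ≤ r, (t ∈ ψ R S Z ↔ t ∈ ψ R' S' Z') := fun t ht =>
    hb R' S' Z' hZ' t (ht.trans hr) (h1.antiL ht (le_max_right _ _))
      (h2.antiL ht (le_max_right _ _)) (h3.antiL ht (le_max_right _ _))

  exact and_congr (e1 r le_rfl) (e2 r le_rfl)

theorem Loc.sup {φ ψ : T3 P K} (h : Loc φ) (h' : Loc ψ) :
    Loc fun R S Z => φ R S Z ⊔ ψ R S Z := by
  intro R S Z hZ p
  obtain ⟨q, hq, a, ha⟩ := h R S Z hZ p
  obtain ⟨q', hq', b, hb⟩ := h' R S Z hZ q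
  refine ⟨q', hq'.trans hq, max a b, fun R' S' Z' hZ' r hr h1 h2 h3 => ?_⟩
  have e1 : ∀ t ≤ r, (t ∈ φ R S Z ↔ t ∈ φ R' S' Z') := fun t ht =>
    ha R' S' Z' hZ' t (ht.trans (hr.trans hq')) (h1.antiL ht (le_max_left _ _))
      (h2.antiL ht (le_max_left _ _)) (h3.antiL ht (le_max_left _ _))
  have e2 : ∀ t ≤ r, (t ∈ ψ R S Z ↔ t ∈ ψ R' S' Z') := fun t ht =>
    hb R' S' Z' hZ' t (ht.trans hr) (h1.antiL ht (le_max_right _ _))
      (h2.antiL ht (le_max_right _ _)) (h3.antiL ht (le_max_right _ _))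

  constructor
  · intro H t ht
    obtain ⟨t', ht', H'⟩ := H t ht
    exact ⟨t', ht', H'.imp (e1 t' (ht'.trans ht)).1 (e2 t' (ht'.trans ht)).1⟩
  · intro H t ht
    obtain ⟨t', ht', H'⟩ := H t ht
    exact ⟨t', ht', H'.imp (e1 t' (ht'.trans ht)).2 (e2 t' (ht'.trans ht)).2⟩

theorem Loc.himp {φ ψ : T3 P K} (h : Loc φ) (h' : Loc ψ) :
    Loc fun R S Z => φ R S Z ⇨ ψ R S Z := by
  intro R S Z hZ p
  obtain ⟨q, hq, a, ha⟩ := h R S Z hZ p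
  obtain ⟨q', hq', b, hb⟩ := h' R S Z hZ q
  refine ⟨q', hq'.trans hq, max a b, fun R' S' Z' hZ' r hr h1 h2 h3 => ?_⟩
  have e1 : ∀ t ≤ r, (t ∈ φ R S Z ↔ t ∈ φ R' S' Z') := fun t ht =>
    ha R' S' Z' hZ' t (ht.trans (hr.trans hq')) (h1.antiL ht (le_max_left _ _))
      (h2.antiL ht (le_max_left _ _)) (h3.antiL ht (le_max_left _ _))
  have e2 : ∀ t ≤ r, (t ∈ ψ R S Z ↔ t ∈ ψ R' S' Z') := fun t ht =>
    hb R' S' Z' hZ' t (ht.trans hr) (h1.antiL ht (le_max_right _ _))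
      (h2.antiL ht (le_max_right _ _)) (h3.antiL ht (le_max_right _ _))

  exact ⟨fun H t ht k => (e2 t ht).1 (H t ht ((e1 t ht).2 k)),
    fun H t ht k => (e2 t ht).2 (H t ht ((e1 t ht).1 k))⟩

theorem Loc.compl {φ : T3 P K} (h : Loc φ) : Loc fun R S Z => (φ R S Z)ᶜ := by
  intro R S Z hZ p
  obtain ⟨q, hq, a, ha⟩ := h R S Z hZ p
  refine ⟨q, hq, a, fun R' S' Z' hZ' r hr h1 h2 h3 => ?_⟩
  have e1 : ∀ t ≤ r, (t ∈ φ R S Z ↔ t ∈ φ R' S' Z') := fun t ht =>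
    ha R' S' Z' hZ' t (ht.trans hr) (h1.antiL ht le_rfl) (h2.antiL ht le_rfl) (h3.antiL ht le_rfl)
  exact ⟨fun H t ht k => H t ht ((e1 t ht).2 k), fun H t ht k => H t ht ((e1 t ht).1 k)⟩

theorem Loc.common (F : FH P K) {ι : Type u} (hι : #ι < #K) {φ : ι → T3 P K} (h : ∀ i, Loc (φ i))
    (R S : K → RO P) (Z : K → K → RO P) (hZ : TotF Z) (p : P) : ∃ q ≤ p, ∃ b : K, ∀ i,
    ∀ (R' S' : K → RO P) (Z' : K → K → RO P), TotF Z' → ∀ r ≤ q,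
      AgAt r b R R' → AgAt r b S S' → AgAt2 r b Z Z' →
        (r ∈ φ i R S Z ↔ r ∈ φ i R' S' Z') := by
  obtain ⟨q, hq, H⟩ := F.dist ι hι (fun i q => ∃ a : K,
    ∀ (R' S' : K → RO P) (Z' : K → K → RO P), TotF Z' → ∀ r ≤ q,
      AgAt r a R R' → AgAt r a S S' → AgAt2 r a Z Z' → (r ∈ φ i R S Z ↔ r ∈ φ i R' S' Z'))
    (fun i p q hq H => by
      obtain ⟨a, ha⟩ := H
      exact ⟨a, fun R' S' Z' hZ' r hr => ha R' S' Z' hZ' r (hr.trans hq)⟩)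
    (fun i p => h i R S Z hZ p) p
  choose a ha using H
  obtain ⟨b, hb⟩ := KD.reg a hι
  exact ⟨q, hq, b, fun i R' S' Z' hZ' r hr h1 h2 h3 => ha i R' S' Z' hZ' r hr
    (h1.antiL le_rfl (hb i).le) (h2.antiL le_rfl (hb i).le) (h3.antiL le_rfl (hb i).le)⟩

theorem Loc.iInf (F : FH P K) {ι : Type u} (hι : #ι < #K) {φ : ι → T3 P K} (h : ∀ i, Loc (φ i)) :
    Loc fun R S Z => ⨅ i, φ i R S Z := by
  intro R S Z hZ p
  obtain ⟨q, hq, b, hb⟩ := Loc.common F hι h R S Z hZ p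
  refine ⟨q, hq, b, fun R' S' Z' hZ' r hr h1 h2 h3 => ?_⟩
  have e : ∀ i, ∀ t ≤ r, (t ∈ φ i R S Z ↔ t ∈ φ i R' S' Z') := fun i t ht =>
    hb i R' S' Z' hZ' t (ht.trans hr) (h1.antiL ht le_rfl) (h2.antiL ht le_rfl) (h3.antiL ht le_rfl)

  rw [forces_iInf, forces_iInf]
  exact forall_congr' fun i => e i r le_rfl

theorem Loc.iSup (F : FH P K) {ι : Type u} (hι : #ι < #K) {φ : ι → T3 P K} (h : ∀ i, Loc (φ i)) :
    Loc fun R S Z => ⨆ i, φ i R S Z := by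
  intro R S Z hZ p
  obtain ⟨q, hq, b, hb⟩ := Loc.common F hι h R S Z hZ p
  refine ⟨q, hq, b, fun R' S' Z' hZ' r hr h1 h2 h3 => ?_⟩
  have e : ∀ i, ∀ t ≤ r, (t ∈ φ i R S Z ↔ t ∈ φ i R' S' Z') := fun i t ht =>
    hb i R' S' Z' hZ' t (ht.trans hr) (h1.antiL ht le_rfl) (h2.antiL ht le_rfl) (h3.antiL ht le_rfl)

  rw [forces_iSup, forces_iSup]
  constructor
  · intro H t ht
    obtain ⟨t', ht', i, H'⟩ := H t ht
    exact ⟨t', ht', i, (e i t' (ht'.trans ht)).1 H'⟩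
  · intro H t ht
    obtain ⟨t', ht', i, H'⟩ := H t ht
    exact ⟨t', ht', i, (e i t' (ht'.trans ht)).2 H'⟩

/-! ### extensional sets -/

theorem Ext3.const (b : RO P) : Ext3 (K := K) fun _ _ _ => b := by
  exact fun _ _ _ _ _ _ _ _ _ _ h => h

theorem Ext3.base_R (i : K) : Ext3 fun (R _ : K → RO P) _ => R i := by
  exact fun p _ _ _ _ _ _ h1 _ _ h => (h1 i p le_rfl).1 h

theorem Ext3.base_S (i : K) : Ext3 fun (_ S : K → RO P) _ => S i := by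
  exact fun p _ _ _ _ _ _ _ h2 _ h => (h2 i p le_rfl).1 h

theorem Ext3.base_Z (i j : K) : Ext3 fun (_ _ : K → RO P) Z => Z i j := by
  exact fun p _ _ _ _ _ _ _ _ h3 h => (h3 i j p le_rfl).1 h

theorem Ext3.inf {φ ψ : T3 P K} (h : Ext3 φ) (h' : Ext3 ψ) :
    Ext3 fun R S Z => φ R S Z ⊓ ψ R S Z := by
  exact fun p R S Z R' S' Z' h1 h2 h3 H =>
    ⟨h p R S Z R' S' Z' h1 h2 h3 H.1, h' p R S Z R' S' Z' h1 h2 h3 H.2⟩

theorem Ext3.sup {φ ψ : T3 P K} (h : Ext3 φ) (h' : Ext3 ψ) :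
    Ext3 fun R S Z => φ R S Z ⊔ ψ R S Z := by
  intro p R S Z R' S' Z' h1 h2 h3 H t ht
  obtain ⟨t', ht', H'⟩ := H t ht
  have k := ht'.trans ht
  exact ⟨t', ht', H'.imp (h t' R S Z R' S' Z' (h1.downL k) (h2.downL k) (h3.downL k))
    (h' t' R S Z R' S' Z' (h1.downL k) (h2.downL k) (h3.downL k))⟩

theorem Ext3.himp {φ ψ : T3 P K} (h : Ext3 φ) (h' : Ext3 ψ) :
    Ext3 fun R S Z => φ R S Z ⇨ ψ R S Z := by
  intro p R S Z R' S' Z' h1 h2 h3 H t ht k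
  exact h' t R S Z R' S' Z' (h1.downL ht) (h2.downL ht) (h3.downL ht)
    (H t ht (h t R' S' Z' R S Z (h1.downL ht).symmL (h2.downL ht).symmL (h3.downL ht).symmL k))

theorem Ext3.compl {φ : T3 P K} (h : Ext3 φ) : Ext3 fun R S Z => (φ R S Z)ᶜ := by
  intro p R S Z R' S' Z' h1 h2 h3 H t ht k
  exact H t ht (h t R' S' Z' R S Z (h1.downL ht).symmL (h2.downL ht).symmL (h3.downL ht).symmL k)

theorem Ext3.iInf {ι : Sort*} {φ : ι → T3 P K} (h : ∀ i, Ext3 (φ i)) :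
    Ext3 fun R S Z => ⨅ i, φ i R S Z := by
  intro p R S Z R' S' Z' h1 h2 h3 H
  exact forces_iInf.2 fun i => h i p R S Z R' S' Z' h1 h2 h3 (forces_iInf.1 H i)

theorem Ext3.iSup {ι : Sort*} {φ : ι → T3 P K} (h : ∀ i, Ext3 (φ i)) :
    Ext3 fun R S Z => ⨆ i, φ i R S Z := by
  intro p R S Z R' S' Z' h1 h2 h3 H
  refine forces_iSup.2 fun t ht => ?_
  obtain ⟨t', ht', i, H'⟩ := forces_iSup.1 H t ht
  have k := ht'.trans ht
  exact ⟨t', ht', i, h i t' R S Z R' S' Z' (h1.downL k) (h2.downL k) (h3.downL k) H'⟩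

end H79.IZ
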