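import Pool.Agent.H79.IZ.RegV

/-!
# `ModF` as an infinite meet

PROOF: `RO.ext'`; unfold everything (`forces_iInf`, `forces_inf`, `forces_himp`, `forces_iSup`).
In the last two parts: `p ∈ ⨆ a, ⨅ b : s, (A 0 b a)ᶜ` iff for all `q ≤ p` there are `r ≤ q`, `a` with
`r ∈ (A 0 b a)ᶜ` for all `b ∈ s`.
-/

universe u

namespace H79.IZ
open H85.Forcing RO Cardinal Set

variable {P : Type u} [Preorder P] {K : Type u} [LinearOrder K]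

/-- `RefAt` as an infinite meet -/
def RefM (A : ℕ → K → K → RO P) : RO P :=
  (⨅ n, ⨅ i, A n i i) ⊓ ((⨅ n, ⨅ i, ⨅ j, A n i j ⇨ A n j i) ⊓
    ((⨅ n, ⨅ i, ⨅ j, ⨅ k, A n i j ⊓ A n j k ⇨ A n i k) ⊓ ⨅ n, ⨅ i, ⨅ j, A (n + 1) i j ⇨ A n i j))

theorem mem_RefM {A : ℕ → K → K → RO P} {p : P} : p ∈ RefM A ↔ RefAt p A := by
  simp only [RefM, forces_inf, forces_iInf, forces_himp]
  constructor
  · rintro ⟨h1, h2, h3, h4⟩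
    exact ⟨h1, h2, fun n i j k q hq ha hb => h3 n i j k q hq ⟨ha, hb⟩, h4⟩
  · intro h
    exact ⟨h.refl, h.symm, fun n i j k q hq hab => h.trans n i j k q hq hab.1 hab.2, h.mono⟩

theorem modF_eq (A : ℕ → K → K → RO P) : ModF A = RefM A ⊓
    ((⨅ s : Finset K, ⨆ a, ⨅ b : s, (A 0 b.1 a)ᶜ) ⊓
      ⨅ n, ⨅ i, ⨅ s : Finset K, ⨆ a, A n i a ⊓ ⨅ b : s, (A (n + 1) b.1 a)ᶜ) := by
  refine RO.ext' fun p => ?_
  change p ∈ ModF A ↔ p ∈ RefM A ⊓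
    ((⨅ s : Finset K, ⨆ a, ⨅ b : s, (A 0 b.1 a)ᶜ) ⊓
      ⨅ n, ⨅ i, ⨅ s : Finset K, ⨆ a, A n i a ⊓ ⨅ b : s, (A (n + 1) b.1 a)ᶜ)
  rw [mem_ModF, forces_inf, mem_RefM]
  refine and_congr_right fun _ => ?_
  simp only [forces_inf, forces_iInf, forces_iSup]
  constructor
  · intro h
    refine ⟨fun s q hq => ?_, fun n i s q hq => ?_⟩
    · obtain ⟨r, hr, a, ha⟩ := h.zero s q hq
      exact ⟨r, hr, a, fun b => ha b.1 b.2⟩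
    · obtain ⟨r, hr, a, ha, hb⟩ := h.succ n i s q hq
      exact ⟨r, hr, a, ha, fun b => hb b.1 b.2⟩
  · rintro ⟨h1, h2⟩
    refine ⟨fun s q hq => ?_, fun n i s q hq => ?_⟩
    · obtain ⟨r, hr, a, ha⟩ := h1 s q hq
      exact ⟨r, hr, a, fun b hb => ha ⟨b, hb⟩⟩
    · obtain ⟨r, hr, a, ha, hb⟩ := h2 n i s q hq
      exact ⟨r, hr, a, ha, fun b hb' => hb ⟨b, hb'⟩⟩

/-- the value of: `A` is not a model -/
theorem modF_compl (A : ℕ → K → K → RO P) : (ModF A)ᶜ =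
    ((⨆ n, ⨆ i, (A n i i)ᶜ) ⊔ ((⨆ n, ⨆ i, ⨆ j, A n i j ⊓ (A n j i)ᶜ) ⊔
      ((⨆ n, ⨆ i, ⨆ j, ⨆ k, (A n i j ⊓ A n j k) ⊓ (A n i k)ᶜ) ⊔
        ⨆ n, ⨆ i, ⨆ j, A (n + 1) i j ⊓ (A n i j)ᶜ))) ⊔
    ((⨆ s : Finset K, ⨅ a, ⨆ b : s, A 0 b.1 a) ⊔
      ⨆ n, ⨆ i, ⨆ s : Finset K, ⨅ a, A n i a ⇨ ⨆ b : s, A (n + 1) b.1 a) := by
  rw [modF_eq, compl_inf, compl_inf]
  congr 1
  · simp only [RefM, compl_inf, compl_iInf, compl_himp, _root_.sdiff_eq]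
  · simp only [compl_iInf, compl_iSup, compl_inf, compl_compl]
    congr 1
    refine iSup_congr fun n => iSup_congr fun i => iSup_congr fun s => iInf_congr fun a => ?_
    rw [himp_eq, sup_comm]

end H79.IZ
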