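import Pool.Agent.H79.IZ.Real
import Pool.Agent.H79.IZ.Mix

/-!
# Elements of `2^κ` and `κ^κ` in the model

PROOF of `exists_real`: `η = cl U x`; by `isFn_iff` and `exists_top_cl` (with `x₀ = realN (fun _ => ⊤)`,
`isFnB_realN`; for `κ^κ` with `x₀ = relN` of the constant function) one may assume `isFnB x .. = ⊤`
(or directly: `U.T (isFnB x ..)`), then `le_realN` (`exists_relN`) and `U.mono`, `cl_eq`.
-/

universe u

namespace H79.IZ
open H85.Forcing BN RO Cardinal Set

variable {P : Type u} [Preorder P] {K : Type u} [LinearOrder K] [WellFoundedLT K] [KD K]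
variable (U : Ult (RO P))

theorem isFn_real (R : K → RO P) :
    IsFn (ME U) (cl U (realN R)) (cl U (kapN K)) (cl U (ordN (KD.nat 2 : K))) := by
  exact (isFn_iff U _ _ _).2 (by rw [isFnB_realN]; exact U.top)

theorem isFn_fun (Z : K → K → RO P) (hZ : TotF Z) :
    IsFn (ME U) (cl U (relN Z)) (cl U (kapN K)) (cl U (kapN K)) := by
  exact (isFn_iff U _ _ _).2 (by rw [isFnB_relN Z hZ]; exact U.top)

theorem exists_real (η : MQ U) (h : IsFn (ME U) η (cl U (kapN K)) (cl U (ordN (KD.nat 2 : K)))) :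
    ∃ R : K → RO P, η = cl U (realN R) := by
  obtain ⟨x, rfl⟩ := Quotient.exists_rep η
  have h' : U.T (isFnB x (kapN K) (ordN (KD.nat 2 : K))) := (isFn_iff U x _ _).1 h
  exact ⟨_, (cl_eq U).2 (U.mono (le_realN x) h')⟩

theorem exists_fun (ζ : MQ U) (h : IsFn (ME U) ζ (cl U (kapN K)) (cl U (kapN K))) :
    ∃ Z : K → K → RO P, TotF Z ∧ ζ = cl U (relN Z) := by
  obtain ⟨x, rfl⟩ := Quotient.exists_rep ζ
  have h' : U.T (isFnB x (kapN K) (kapN K)) := (isFn_iff U x _ _).1 h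
  haveI : Nonempty K := ⟨KD.nat 0⟩
  obtain ⟨Z, hZ, hle⟩ := exists_relN (K := K) x
  exact ⟨Z, hZ, (cl_eq U).2 (U.mono hle h')⟩

end H79.IZ
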