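import Pool.Agent.H79.IZ.RealA

/-!
# Names of elements of `2^κ` and `κ^κ`

An element of `2^κ` of the extension is given by `R : K → RO P` (`R i` is the value of `η(i) = 1`),
its name is `realN R`; an element of `κ^κ` by `Z : K → K → RO P` (`Z i j` is the value of `ζ(i) = j`)
with `TotF Z`, its name is `relN Z`.

PROOFS (see also the header of `RealA`).
* `isFnB_relN`: unfold `isFnB`; first part: members of `relN Z` are pairs of elements of `kapN K`
  (`ball_mk`); second part: for `i : K` densely `Z i j` holds for some `j`; any `w` with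
  `rel (relN Z) (ordN i) w` is `ordN j'` with `Z i j'` (`rel_relN_left`), and `j' = j`.
* `isFnB_realN`: the same, `R i` or `(R i)ᶜ` densely (or: `TotF (chi R)` and the values are `< 2`).
* `exists_relN`: `Z i j = (b ⊓ rel f i j) ⊔ (bᶜ ⊓ [j = j₀])` with `b = isFnB f kap kap`; on `b` the
  relation is total and single valued; then `isFnB_le` and `beq_relN`.
* `le_realN`: `isFnB_le` and `beq_relN`; at `p ∈ isFnB f kap 2` and `i : K`: densely `rel f i 1` or
  `rel f i 0`, not both, and `rel f i j` implies `j = 0` or `j = 1` (`j ∈ 2` by the first part of `isFnB`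
  and `opair_inj_right`).
-/

universe u

namespace H79.IZ
open H85.Forcing BN RO Cardinal Set

variable {P : Type u} [Preorder P] {K : Type u} [LinearOrder K] [WellFoundedLT K]

/-- a total single valued relation is a function to any name containing its values -/
theorem rl_fn (Z : K → K → RO P) (hZ : TotF Z) (y : BN (RO P))
    (hy : ∀ i j, ∀ p : P, p ∈ Z i j → p ∈ mem (ordN j) y) : isFnB (relN Z) (kapN K) y = ⊤ := by
  rw [eq_top_iff_forces]
  intro p
  rw [isFnB, forces_inf]
  constructor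
  · have h := ball_mk (ι := K × K) (A := fun p => opair (ordN p.1) (ordN p.2))
      (b := fun p => Z p.1 p.2)
      (φ := fun p => ⨆ u, mem u (kapN K) ⊓ ⨆ v, mem v y ⊓ beq p (opair u v)) ExtC.h
    rw [relN, h, forces_iInf]
    rintro ⟨i, j⟩
    rw [forces_himp]
    intro q _ hq
    refine forces_iSup_of (ordN i) (forces_inf.2 ⟨forces_mem_kapN.2 trivial, ?_⟩)
    refine forces_iSup_of (ordN j) (forces_inf.2 ⟨hy i j q hq, ?_⟩)
    rw [beq_refl]
    exact forces_top
  · rw [forces_ball_kapN]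
    intro i
    rw [forces_iSup]
    intro q _
    obtain ⟨r, hr, j, hj⟩ := hZ.total i q
    refine ⟨r, hr, ordN j, forces_inf.2 ⟨?_, ?_⟩⟩
    · rw [rel_relN]; exact hj
    · rw [forces_iInf]
      intro w
      rw [forces_himp]
      intro s hs hw
      rw [rel_relN_left] at hw
      refine forces_of_dense fun t ht => ?_
      obtain ⟨t', ht', j', hj'⟩ := forces_iSup.1 hw t ht
      refine ⟨t', ht', ?_⟩
      have e : j' = j := hZ.uniq i j' j t' hj'.1 (Forces.down hj (ht'.trans (ht.trans hs)))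
      subst e
      exact hj'.2

/-- the values of a function are in the target -/
theorem rl_mem {f y : BN (RO P)} {p : P} (hp : p ∈ isFnB f (kapN K) y) {u v : BN (RO P)}
    (h : p ∈ rel f u v) : p ∈ mem v y := by
  rw [isFnB, forces_inf, forces_iInf] at hp
  have h1 := forces_himp.1 (hp.1 (opair u v)) p le_rfl h
  refine forces_of_dense fun q hq => ?_
  obtain ⟨r, hr, u', h2⟩ := forces_iSup.1 h1 q hq
  obtain ⟨s, hs, v', h3⟩ := forces_iSup.1 (forces_inf.1 h2).2 r le_rfl
  refine ⟨s, hs.trans hr, ?_⟩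
  have h4 : beq (opair u v) (opair u' v') ⊓ mem v' y ≤ mem v y :=
    mem_congr_left (bsymm (opair_inj_right inf_le_left)) inf_le_right
  exact le_iff_forces.1 h4 s ⟨(forces_inf.1 h3).2, (forces_inf.1 h3).1⟩

theorem rl_total {f y : BN (RO P)} (hy : ∀ z, mem z y ≤ ⨆ i : K, beq z (ordN i)) {p : P}
    (hp : p ∈ isFnB f (kapN K) y) (i : K) : ∃ q ≤ p, ∃ j : K, q ∈ rel f (ordN i) (ordN j) := by
  have hp' := hp
  rw [isFnB, forces_inf, forces_ball_kapN] at hp'
  obtain ⟨q, hq, v, hv⟩ := forces_iSup.1 (hp'.2 i) p le_rfl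
  have h1 : q ∈ rel f (ordN i) v := (forces_inf.1 hv).1
  have h2 : q ∈ mem v y := rl_mem (Forces.down hp hq) h1
  obtain ⟨r, hr, j, hj⟩ := forces_iSup.1 (le_iff_forces.1 (hy v) q h2) q le_rfl
  refine ⟨r, hr.trans hq, j, ?_⟩
  have h3 : beq v (ordN j) ⊓ rel f (ordN i) v ≤ rel f (ordN i) (ordN j) :=
    (ext_rel (cong_const f) (cong_const (ordN i)) cong_id) v (ordN j)
  exact le_iff_forces.1 h3 r ⟨hj, Forces.down h1 hr⟩

theorem rl_uniq {f y : BN (RO P)} {p : P} (hp : p ∈ isFnB f (kapN K) y) {i j j' : K}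
    (h : p ∈ rel f (ordN i) (ordN j)) (h' : p ∈ rel f (ordN i) (ordN j')) : j = j' := by
  rw [isFnB, forces_inf, forces_ball_kapN] at hp
  obtain ⟨q, hq, v, hv⟩ := forces_iSup.1 (hp.2 i) p le_rfl
  have h1 := forces_iInf.1 (forces_inf.1 hv).2
  have h2 := forces_himp.1 (h1 (ordN j)) q le_rfl (Forces.down h hq)
  have h3 := forces_himp.1 (h1 (ordN j')) q le_rfl (Forces.down h' hq)
  have h4 : beq (ordN j) v ⊓ beq (ordN j') v ≤ (beq (ordN j) (ordN j') : RO P) :=
    btrans inf_le_left (bsymm inf_le_right)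
  exact forces_beq_ordN.1 (le_iff_forces.1 h4 q ⟨h2, h3⟩)

/-- a function from the ordinal `a` or from `κ` to `κ` given by a relation -/
theorem isFnB_relN (Z : K → K → RO P) (hZ : TotF Z) : isFnB (relN Z) (kapN K) (kapN K) = ⊤ :=
  rl_fn Z hZ _ fun _ _ _ _ => forces_mem_kapN.2 trivial

theorem exists_relN (f : BN (RO P)) [Nonempty K] :
    ∃ Z : K → K → RO P, TotF Z ∧ isFnB f (kapN K) (kapN K) ≤ beq f (relN Z) := by
  classical
  obtain ⟨j₀⟩ := ‹Nonempty K›
  obtain ⟨b, hb⟩ : ∃ b : RO P, b = isFnB f (kapN K) (kapN K) := ⟨_, rfl⟩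
  refine ⟨fun i j => (b ⊓ rel f (ordN i) (ordN j)) ⊔ (bᶜ ⊓ ofProp (j = j₀)), ⟨?_, ?_⟩, ?_⟩
  · intro i p
    by_cases h : ∃ q, q ≤ p ∧ q ∈ b
    · obtain ⟨q, hq, h⟩ := h
      obtain ⟨r, hr, j, hj⟩ := rl_total mem_kapN_le (hb ▸ h) i
      exact ⟨r, hr.trans hq, j, le_iff_forces.1 le_sup_left r ⟨Forces.down h hr, hj⟩⟩
    · have h1 : p ∈ bᶜ ⊓ ofProp (j₀ = j₀) :=
        forces_inf.2 ⟨forces_compl.2 fun q hq h' => h ⟨q, hq, h'⟩, forces_ofProp.2 rfl⟩
      exact ⟨p, le_rfl, j₀, le_iff_forces.1 le_sup_right p h1⟩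
  · intro i j j' p h h'
    obtain ⟨q, hq, h1⟩ := forces_sup.1 h p le_rfl
    obtain ⟨r, hr, h2⟩ := forces_sup.1 h' q hq
    rcases h1 with h1 | h1
    · rcases h2 with h2 | h2
      · exact rl_uniq (y := kapN K) (hb ▸ h2.1) (Forces.down h1.2 hr) h2.2
      · exact absurd (Forces.down h1.1 hr) (forces_compl.1 h2.1 r le_rfl)
    · rcases h2 with h2 | h2
      · exact absurd h2.1 (forces_compl.1 h1.1 r hr)
      · have e1 : j = j₀ := (forces_ofProp (p := q)).1 h1.2
        have e2 : j' = j₀ := (forces_ofProp (p := r)).1 h2.2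
        exact e1.trans e2.symm
  · rw [le_iff_forces]
    intro p hp
    have h1 := le_iff_forces.1 (isFnB_le f (kapN K) (kapN K) mem_kapN_le mem_kapN_le) p hp
    have h2 : p ∈ beq (relN fun i j : K => rel f (ordN i) (ordN j))
        (relN fun i j => (b ⊓ rel f (ordN i) (ordN j)) ⊔ (bᶜ ⊓ ofProp (j = j₀))) := by
      rw [beq_relN]
      intro i j q hq
      constructor
      · intro h
        exact le_iff_forces.1 le_sup_left q ⟨hb ▸ Forces.down hp hq, h⟩
      · intro h
        refine forces_of_dense fun r hr => ?_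
        obtain ⟨s, hs, h3⟩ := forces_sup.1 h r hr
        refine ⟨s, hs, ?_⟩
        rcases h3 with h3 | h3
        · exact h3.2
        · exact absurd (hb ▸ Forces.down hp (hs.trans (hr.trans hq)) : s ∈ b)
            (forces_compl.1 h3.1 s le_rfl)
    exact le_iff_forces.1 (beq_trans _ _ _) p ⟨h1, h2⟩

variable [KD K]

open Classical in
/-- the relation `{(i, 1) : i ∈ R} ∪ {(i, 0) : i ∉ R}` -/
noncomputable def chi (R : K → RO P) : K → K → RO P := fun i j =>
  if j = KD.nat 0 then (R i)ᶜ else if j = KD.nat 1 then R i else ⊥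

/-- the name of the element of `2^κ` with `η(i) = 1` iff `i ∈ R` -/
noncomputable def realN (R : K → RO P) : BN (RO P) := relN (chi R)

theorem rel_realN_one (R : K → RO P) (i : K) :
    rel (realN R) (ordN i) (ordN (KD.nat 1 : K)) = R i := by
  rw [realN, rel_relN, chi]
  have h : ¬ (KD.nat 1 : K) = KD.nat 0 := by rw [nat_inj]; decide
  rw [if_neg h, if_pos rfl]

theorem beq_realN {R S : K → RO P} {p : P} :
    p ∈ beq (realN R) (realN S) ↔ ∀ i, ∀ q ≤ p, (q ∈ R i ↔ q ∈ S i) := by
  rw [realN, realN, beq_relN]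
  have h10 : ¬ (KD.nat 1 : K) = KD.nat 0 := by rw [nat_inj]; decide
  constructor
  · intro h i q hq
    have h1 := h i (KD.nat 1) q hq
    rw [chi, chi, if_neg h10, if_pos rfl, if_neg h10, if_pos rfl] at h1
    exact h1
  · intro h i j q hq
    rw [chi, chi]
    by_cases h0 : j = KD.nat 0
    · rw [if_pos h0, if_pos h0, forces_compl, forces_compl]
      constructor
      · intro h1 r hr h2
        exact h1 r hr ((h i r (hr.trans hq)).2 h2)
      · intro h1 r hr h2
        exact h1 r hr ((h i r (hr.trans hq)).1 h2)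
    · rw [if_neg h0, if_neg h0]
      by_cases h1 : j = KD.nat 1
      · rw [if_pos h1, if_pos h1]
        exact h i q hq
      · rw [if_neg h1, if_neg h1]

theorem rl_lt_two {j : K} (h : j < KD.nat 2) : j = KD.nat 0 ∨ j = KD.nat 1 := by
  obtain ⟨m, hm, rfl⟩ := KD.lt_nat h
  rcases Nat.lt_succ_iff_lt_or_eq.1 hm with h1 | h1
  · left
    rw [Nat.lt_one_iff.1 h1]
  · right
    rw [h1]

theorem rl_chi_mem {R : K → RO P} {i j : K} {p : P} (h : p ∈ chi R i j) :
    (j = KD.nat 0 ∧ p ∈ (R i)ᶜ) ∨ (j = KD.nat 1 ∧ p ∈ R i) := by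
  rw [chi] at h
  by_cases h0 : j = KD.nat 0
  · rw [if_pos h0] at h
    exact Or.inl ⟨h0, h⟩
  · rw [if_neg h0] at h
    by_cases h1 : j = KD.nat 1
    · rw [if_pos h1] at h
      exact Or.inr ⟨h1, h⟩
    · rw [if_neg h1] at h
      exact absurd h not_forces_bot

theorem rl_totF_chi (R : K → RO P) : TotF (chi R) := by
  have h10 : ¬ (KD.nat 1 : K) = KD.nat 0 := by rw [nat_inj]; decide
  constructor
  · intro i p
    by_cases h : ∃ q, q ≤ p ∧ q ∈ R i
    · obtain ⟨q, hq, h⟩ := h
      refine ⟨q, hq, KD.nat 1, ?_⟩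
      rw [chi, if_neg h10, if_pos rfl]
      exact h
    · refine ⟨p, le_rfl, KD.nat 0, ?_⟩
      rw [chi, if_pos rfl]
      exact forces_compl.2 fun q hq h' => h ⟨q, hq, h'⟩
  · intro i j j' p h h'
    rcases rl_chi_mem h with ⟨h1, h2⟩ | ⟨h1, h2⟩
    · rcases rl_chi_mem h' with ⟨h3, h4⟩ | ⟨h3, h4⟩
      · rw [h1, h3]
      · exact absurd h4 (forces_compl.1 h2 p le_rfl)
    · rcases rl_chi_mem h' with ⟨h3, h4⟩ | ⟨h3, h4⟩
      · exact absurd h2 (forces_compl.1 h4 p le_rfl)
      · rw [h1, h3]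

theorem isFnB_realN (R : K → RO P) : isFnB (realN R) (kapN K) (ordN (KD.nat 2 : K)) = ⊤ := by
  refine rl_fn (chi R) (rl_totF_chi R) _ fun i j p h => forces_mem_ordN.2 ?_
  rcases rl_chi_mem h with ⟨h1, _⟩ | ⟨h1, _⟩
  · rw [h1, KD.nat_lt]; decide
  · rw [h1, KD.nat_lt]; decide

theorem le_realN (f : BN (RO P)) : isFnB f (kapN K) (ordN (KD.nat 2 : K)) ≤
    beq f (realN fun i : K => rel f (ordN i) (ordN (KD.nat 1 : K))) := by
  rw [le_iff_forces]
  intro p hp
  have h1 := le_iff_forces.1 (isFnB_le f (kapN K) (ordN (KD.nat 2 : K)) mem_kapN_le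
    (mem_ordN_le _)) p hp
  have h2 : p ∈ beq (relN fun i j : K => rel f (ordN i) (ordN j))
      (realN fun i : K => rel f (ordN i) (ordN (KD.nat 1 : K))) := by
    rw [realN, beq_relN]
    have h10 : ¬ (KD.nat 1 : K) = KD.nat 0 := by rw [nat_inj]; decide
    intro i j q hq
    have hpq := Forces.down hp hq
    rw [chi]
    by_cases h0 : j = KD.nat 0
    · subst h0
      rw [if_pos rfl]
      constructor
      · intro h
        exact forces_compl.2 fun r hr h' =>
          h10 (rl_uniq (Forces.down hpq hr) h' (Forces.down h hr))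
      · intro h
        refine forces_of_dense fun r hr => ?_
        obtain ⟨s, hs, j', hj'⟩ := rl_total (mem_ordN_le _) (Forces.down hpq hr) i
        have h3 := forces_mem_ordN.1 (rl_mem (Forces.down hpq (hs.trans hr)) hj')
        refine ⟨s, hs, ?_⟩
        rcases rl_lt_two h3 with h4 | h4
        · rw [h4] at hj'
          exact hj'
        · rw [h4] at hj'
          exact absurd hj' (forces_compl.1 h s (hs.trans hr))
    · rw [if_neg h0]
      by_cases h1 : j = KD.nat 1
      · subst h1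
        rw [if_pos rfl]
      · rw [if_neg h1]
        constructor
        · intro h
          rcases rl_lt_two (forces_mem_ordN.1 (rl_mem hpq h)) with h4 | h4
          · exact absurd h4 h0
          · exact absurd h4 h1
        · intro h
          exact absurd h not_forces_bot
  exact le_iff_forces.1 (beq_trans _ _ _) p ⟨h1, h2⟩

end H79.IZ
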