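import Pool.Agent.H79.IZ.BDefs
import Pool.Agent.H79.IZ.KData
import Pool.Agent.H85.Forcing.Forced

/-!
# Names of relations on `K`, and names of functions

An element of `κ^κ` of the extension is given by `Z : K → K → RO P` (`Z i j` is the value of
`ζ(i) = j`) with `TotF Z`, its name is `relN Z`.

PROOFS (use `forces_ball_ordN`, `forces_ball_kapN`, `forces_bex_kapN`, `forces_mem_ordN`,
`forces_beq_ordN` of `Pool.Agent.H85.Forcing.Forced`, `rel_relN`, `mem_mk`, `beq_mk_mk`, `forces_iInf`,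
`forces_iSup`, `forces_himp`, `forces_inf`, `forces_compl`).

* `rel_relN_left`: as `rel_relN` in `Ords` / `rel_relN'` in `Pool.Agent.H85.Forcing.Cards` (the same
  proof, general `P`, `K`).
* `beq_relN`: by `beq_mk_mk` and `rel_relN` (`rel r x y = mem (opair x y) r`).
* `isFnB_le`: let `F = relN fun i j => rel f (ordN i) (ordN j)`; use `beq_of_forall`; a member `z` of `f`
  is `opair u v` with `u ∈ x`, `v ∈ y`, so `u = ordN i`, `v = ordN j` for some `i j`, and then
  `rel f (ordN i) (ordN j)` holds; the other inclusion is immediate.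
-/

universe u

namespace H79.IZ
open H85.Forcing BN RO Cardinal Set

variable {P : Type u} [Preorder P] {K : Type u} [LinearOrder K] [WellFoundedLT K]

/-- `Z` is (a name of) a function from `κ` to `κ` -/
structure TotF (Z : K → K → RO P) : Prop where
  total : ∀ i, ∀ p : P, ∃ q ≤ p, ∃ j, q ∈ Z i j
  uniq : ∀ i j j', ∀ p : P, p ∈ Z i j → p ∈ Z i j' → j = j'

theorem rel_relN_left (Z : K → K → RO P) (i : K) (w : BN (RO P)) :
    rel (relN Z) (ordN i) w = ⨆ j, Z i j ⊓ beq w (ordN j) := by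
  rw [rel, relN, mem_mk]
  apply le_antisymm
  · refine iSup_le fun p => ?_
    obtain ⟨i', j'⟩ := p
    by_cases hi : i = i'
    · subst hi
      exact bex_intro j' (le_inf inf_le_left (opair_inj_right inf_le_right))
    · have := opair_inj_left (inf_le_right :
          Z i' j' ⊓ beq (opair (ordN i) w) (opair (ordN i') (ordN j')) ≤ _)
      rw [beq_ordN_of_ne hi] at this
      exact this.trans bot_le
  · refine iSup_le fun j => bex_intro (i, j) (le_inf inf_le_left ?_)
    exact cong_opair brefl inf_le_right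

theorem beq_relN {Z W : K → K → RO P} {p : P} :
    p ∈ beq (relN Z) (relN W) ↔ ∀ i j, ∀ q ≤ p, (q ∈ Z i j ↔ q ∈ W i j) := by
  have h : beq (relN Z) (relN W) = (⨅ r : K × K, Z r.1 r.2 ⇨ W r.1 r.2) ⊓
      (⨅ r : K × K, W r.1 r.2 ⇨ Z r.1 r.2) := by
    have hW : ∀ i j, mem (opair (ordN i) (ordN j)) (mk (K × K)
        (fun r => opair (ordN r.1) (ordN r.2)) (fun r => W r.1 r.2)) = W i j :=
      fun i j => rel_relN W i j
    have hZ : ∀ i j, mem (opair (ordN i) (ordN j)) (mk (K × K)
        (fun r => opair (ordN r.1) (ordN r.2)) (fun r => Z r.1 r.2)) = Z i j :=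
      fun i j => rel_relN Z i j
    rw [relN, relN, beq_mk_mk]
    simp only [hW, hZ]
  rw [h, forces_inf, forces_iInf, forces_iInf]
  constructor
  · rintro ⟨h1, h2⟩ i j q hq
    exact ⟨forces_himp.1 (h1 (i, j)) q hq, forces_himp.1 (h2 (i, j)) q hq⟩
  · intro h3
    exact ⟨fun r => forces_himp.2 fun q hq => (h3 r.1 r.2 q hq).1,
      fun r => forces_himp.2 fun q hq => (h3 r.1 r.2 q hq).2⟩

theorem isFnB_le (f x y : BN (RO P)) (hx : ∀ z, mem z x ≤ ⨆ i : K, beq z (ordN i))
    (hy : ∀ z, mem z y ≤ ⨆ i : K, beq z (ordN i)) :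
    isFnB f x y ≤ beq f (relN fun i j : K => rel f (ordN i) (ordN j)) := by
  have hF : ∀ i j : K, mem (opair (ordN i) (ordN j))
      (relN fun i j : K => rel f (ordN i) (ordN j)) = mem (opair (ordN i) (ordN j)) f :=
    fun i j => rel_relN (fun i j : K => rel f (ordN i) (ordN j)) i j
  refine beq_of_forall (fun z => ?_) (fun z => ?_)
  · rw [le_himp_iff]
    have h1 : isFnB f x y ⊓ mem z f ≤ ⨆ u, mem u x ⊓ ⨆ v, mem v y ⊓ beq z (opair u v) := by
      refine bmp (inf_le_left.trans ?_) inf_le_right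
      unfold isFnB
      exact inf_le_left.trans (iInf_le _ z)
    refine bex_elim h1 fun u => ?_
    refine bex_elim ((inf_le_right.trans inf_le_left).trans (hx u)) fun i => ?_
    refine bex_elim (f := fun v => mem v y ⊓ beq z (opair u v))
      (inf_le_left.trans (inf_le_right.trans inf_le_right)) fun v => ?_
    refine bex_elim ((inf_le_right.trans inf_le_left).trans (hy v)) fun j => ?_
    have e1 : isFnB f x y ⊓ mem z f ⊓ (mem u x ⊓ ⨆ v, mem v y ⊓ beq z (opair u v)) ⊓
        beq u (ordN i) ⊓ (mem v y ⊓ beq z (opair u v)) ⊓ beq v (ordN j) ≤ mem z f :=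
      inf_le_left.trans (inf_le_left.trans (inf_le_left.trans (inf_le_left.trans inf_le_right)))
    have e2 : isFnB f x y ⊓ mem z f ⊓ (mem u x ⊓ ⨆ v, mem v y ⊓ beq z (opair u v)) ⊓
        beq u (ordN i) ⊓ (mem v y ⊓ beq z (opair u v)) ⊓ beq v (ordN j) ≤ beq u (ordN i) :=
      inf_le_left.trans (inf_le_left.trans inf_le_right)
    have e3 : isFnB f x y ⊓ mem z f ⊓ (mem u x ⊓ ⨆ v, mem v y ⊓ beq z (opair u v)) ⊓
        beq u (ordN i) ⊓ (mem v y ⊓ beq z (opair u v)) ⊓ beq v (ordN j) ≤
        beq z (opair u v) :=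
      inf_le_left.trans (inf_le_right.trans inf_le_right)
    have e4 : isFnB f x y ⊓ mem z f ⊓ (mem u x ⊓ ⨆ v, mem v y ⊓ beq z (opair u v)) ⊓
        beq u (ordN i) ⊓ (mem v y ⊓ beq z (opair u v)) ⊓ beq v (ordN j) ≤ beq v (ordN j) :=
      inf_le_right
    have e5 := btrans e3 (cong_opair e2 e4)
    refine mem_congr_left (bsymm e5) ?_
    rw [hF]
    exact mem_congr_left e5 e1
  · rw [le_himp_iff]
    have h1 : isFnB f x y ⊓ mem z (relN fun i j : K => rel f (ordN i) (ordN j)) ≤
        ⨆ r : K × K, rel f (ordN r.1) (ordN r.2) ⊓ beq z (opair (ordN r.1) (ordN r.2)) := by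
      rw [relN, mem_mk]
      exact inf_le_right
    refine bex_elim h1 fun r => ?_
    exact mem_congr_left (bsymm (inf_le_right.trans inf_le_right))
      (inf_le_right.trans inf_le_left)

theorem mem_ordN_le (k : K) (z : BN (RO P)) : mem z (ordN k) ≤ ⨆ i : K, beq z (ordN i) := by
  rw [mem_ordN]
  exact iSup_le fun j => le_iSup (fun i : K => beq z (ordN i)) j.1

theorem mem_kapN_le (z : BN (RO P)) : mem z (kapN K) ≤ ⨆ i : K, beq z (ordN i) := by
  rw [mem_kapN]

end H79.IZ
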