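import Pool.Agent.H79.IZ.Real

/-!
# `Σ¹₁` subsets of `2^κ × 2^κ` given by `RO P`-valued functions

`φ : (K → RO P) → (K → RO P) → (K → K → RO P) → RO P` is a `RO P`-valued subset of
`2^κ × 2^κ × κ^κ`, `X : (K → RO P) → (K → RO P) → RO P` a `RO P`-valued subset of `2^κ × 2^κ`.
-/

universe u

namespace H79.IZ
open H85.Forcing BN RO Cardinal Set

variable {P : Type u} [Preorder P] {K : Type u} [LinearOrder K] [WellFoundedLT K]

/-- `p` forces `R = S` -/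
def EqAt (p : P) (R S : K → RO P) : Prop := ∀ i, ∀ q ≤ p, (q ∈ R i ↔ q ∈ S i)

/-- `p` forces `Z = W` -/
def EqAt2 (p : P) (Z W : K → K → RO P) : Prop := ∀ i j, ∀ q ≤ p, (q ∈ Z i j ↔ q ∈ W i j)

/-- `p` forces that `R` and `S` agree below `a` -/
def AgAt (p : P) (a : K) (R S : K → RO P) : Prop := ∀ i < a, ∀ q ≤ p, (q ∈ R i ↔ q ∈ S i)

/-- `p` forces that `Z` and `W` agree below `a` -/
def AgAt2 (p : P) (a : K) (Z W : K → K → RO P) : Prop :=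
  ∀ i < a, ∀ j, ∀ q ≤ p, (q ∈ Z i j ↔ q ∈ W i j)

/-- `φ` is extensional -/
def Ext3 (φ : (K → RO P) → (K → RO P) → (K → K → RO P) → RO P) : Prop :=
  ∀ p R S Z R' S' Z', EqAt p R R' → EqAt p S S' → EqAt2 p Z Z' → p ∈ φ R S Z → p ∈ φ R' S' Z'

/-- `φ` is (forced to be) closed -/
def ClosedF (φ : (K → RO P) → (K → RO P) → (K → K → RO P) → RO P) : Prop :=
  ∀ (R S : K → RO P) (Z : K → K → RO P), TotF Z → ∀ p : P,
    (∀ a : K, ∀ q ≤ p, ∃ r ≤ q, ∃ (R' S' : K → RO P) (Z' : K → K → RO P), TotF Z' ∧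
      AgAt r a R R' ∧ AgAt r a S S' ∧ AgAt2 r a Z Z' ∧ r ∈ φ R' S' Z') → p ∈ φ R S Z

/-- `X` is the projection of `φ` -/
def Proj (φ : (K → RO P) → (K → RO P) → (K → K → RO P) → RO P)
    (X : (K → RO P) → (K → RO P) → RO P) : Prop :=
  ∀ (R S : K → RO P) (p : P), p ∈ X R S ↔ ∀ q ≤ p, ∃ r ≤ q, ∃ Z, TotF Z ∧ r ∈ φ R S Z

/-- `X` is `Σ¹₁` -/
def Sig (X : (K → RO P) → (K → RO P) → RO P) : Prop := ∃ φ, Ext3 φ ∧ ClosedF φ ∧ Proj φ X

/-- `φ` is locally determined: for given arguments, densely many conditions `r` know a bound `a` such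
that the value of `φ` depends only on the arguments below `a` -/
def Loc (φ : (K → RO P) → (K → RO P) → (K → K → RO P) → RO P) : Prop :=
  ∀ (R S : K → RO P) (Z : K → K → RO P), TotF Z → ∀ p : P, ∃ q ≤ p, ∃ a : K,
    ∀ (R' S' : K → RO P) (Z' : K → K → RO P), TotF Z' → ∀ r ≤ q,
      AgAt r a R R' → AgAt r a S S' → AgAt2 r a Z Z' → (r ∈ φ R S Z ↔ r ∈ φ R' S' Z')

end H79.IZ
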