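import Pool.Agent.H79.IZ.Sig
import Pool.Agent.H79.IZ.Tot
import Pool.Agent.H79.IZ.Fun

/-!
# Closure properties of `Sig`, part 1

`lft Z i j = Z (c3 1 i (nat 0)) j` is the left half of `Z`, `rgt Z i j = Z (c3 2 i (nat 0)) j` the right
half; `pr0 = c3 0 (nat 0) (nat 0)` is a position which is not used by the halves.
-/

universe u

namespace H79.IZ
open H85.Forcing BN RO Cardinal Set

variable {P : Type u} [Preorder P] {K : Type u} [LinearOrder K] [WellFoundedLT K] [KD K]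

noncomputable def lft (Z : K → K → RO P) : K → K → RO P := fun i j => Z (c3 1 i (KD.nat 0)) j

noncomputable def rgt (Z : K → K → RO P) : K → K → RO P := fun i j => Z (c3 2 i (KD.nat 0)) j

noncomputable def pr0 : K := c3 0 (KD.nat 0) (KD.nat 0)

theorem TotF.lft {Z : K → K → RO P} (h : TotF Z) : TotF (lft Z) :=
  ⟨fun _ => h.total _, fun _ => h.uniq _⟩

theorem TotF.rgt {Z : K → K → RO P} (h : TotF Z) : TotF (rgt Z) :=
  ⟨fun _ => h.total _, fun _ => h.uniq _⟩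

open Classical in
/-- the union of two functions on disjoint sets of positions -/
private noncomputable def jn (Z₁ Z₂ : K → K → RO P) (j₀ : K) : K → K → RO P := fun y j =>
  if h : ∃ i, y = c3 1 i (KD.nat 0) then Z₁ h.choose j
  else if h : ∃ i, y = c3 2 i (KD.nat 0) then Z₂ h.choose j
  else ofProp (j = j₀)

private theorem jn_one (Z₁ Z₂ : K → K → RO P) (j₀ i j : K) :
    jn Z₁ Z₂ j₀ (c3 1 i (KD.nat 0)) j = Z₁ i j := by
  have h : ∃ i', (c3 1 i (KD.nat 0) : K) = c3 1 i' (KD.nat 0) := ⟨i, rfl⟩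
  unfold jn
  rw [dif_pos h]
  have h1 := h.choose_spec
  rw [c3_inj] at h1
  rw [← h1.2.1]

private theorem jn_two (Z₁ Z₂ : K → K → RO P) (j₀ i j : K) :
    jn Z₁ Z₂ j₀ (c3 2 i (KD.nat 0)) j = Z₂ i j := by
  have h0 : ¬ ∃ i', (c3 2 i (KD.nat 0) : K) = c3 1 i' (KD.nat 0) := by
    rintro ⟨i', h⟩
    rw [c3_inj] at h
    exact absurd h.1 (by decide)
  have h : ∃ i', (c3 2 i (KD.nat 0) : K) = c3 2 i' (KD.nat 0) := ⟨i, rfl⟩
  unfold jn
  rw [dif_neg h0, dif_pos h]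
  have h1 := h.choose_spec
  rw [c3_inj] at h1
  rw [← h1.2.1]

private theorem jn_else (Z₁ Z₂ : K → K → RO P) (j₀ : K) {y : K}
    (h1 : ¬ ∃ i, y = c3 1 i (KD.nat 0)) (h2 : ¬ ∃ i, y = c3 2 i (KD.nat 0)) (j : K) :
    jn Z₁ Z₂ j₀ y j = ofProp (j = j₀) := by
  unfold jn
  rw [dif_neg h1, dif_neg h2]

theorem exists_join (Z₁ Z₂ : K → K → RO P) (h₁ : TotF Z₁) (h₂ : TotF Z₂) (j₀ : K) :
    ∃ Z, TotF Z ∧ lft Z = Z₁ ∧ rgt Z = Z₂ ∧ ∀ p : P, p ∈ Z pr0 j₀ := by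
  refine ⟨jn Z₁ Z₂ j₀, ⟨?_, ?_⟩, ?_, ?_, ?_⟩
  · intro y p
    by_cases hy1 : ∃ i, y = c3 1 i (KD.nat 0)
    · obtain ⟨i, rfl⟩ := hy1
      obtain ⟨q, hq, j, hj⟩ := h₁.total i p
      refine ⟨q, hq, j, ?_⟩
      rw [jn_one]
      exact hj
    · by_cases hy2 : ∃ i, y = c3 2 i (KD.nat 0)
      · obtain ⟨i, rfl⟩ := hy2
        obtain ⟨q, hq, j, hj⟩ := h₂.total i p
        refine ⟨q, hq, j, ?_⟩
        rw [jn_two]
        exact hj
      · refine ⟨p, le_rfl, j₀, ?_⟩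
        rw [jn_else Z₁ Z₂ j₀ hy1 hy2]
        exact forces_ofProp.2 rfl
  · intro y j j' p hj hj'
    by_cases hy1 : ∃ i, y = c3 1 i (KD.nat 0)
    · obtain ⟨i, rfl⟩ := hy1
      rw [jn_one] at hj hj'
      exact h₁.uniq i j j' p hj hj'
    · by_cases hy2 : ∃ i, y = c3 2 i (KD.nat 0)
      · obtain ⟨i, rfl⟩ := hy2
        rw [jn_two] at hj hj'
        exact h₂.uniq i j j' p hj hj'
      · rw [jn_else Z₁ Z₂ j₀ hy1 hy2, forces_ofProp] at hj hj'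
        rw [hj, hj']
  · funext i j
    exact jn_one Z₁ Z₂ j₀ i j
  · funext i j
    exact jn_two Z₁ Z₂ j₀ i j
  · intro p
    rw [jn_else Z₁ Z₂ j₀ (y := pr0)]
    · exact forces_ofProp.2 rfl
    · rintro ⟨i, h⟩
      unfold pr0 at h
      rw [c3_inj] at h
      exact absurd h.1 (by decide)
    · rintro ⟨i, h⟩
      unfold pr0 at h
      rw [c3_inj] at h
      exact absurd h.1 (by decide)

theorem exists_bound (a : K) : ∃ b, a ≤ b ∧ pr0 < b ∧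
    (∀ i < a, c3 1 i (KD.nat 0) < b ∧ c3 2 i (KD.nat 0) < b) := by
  obtain ⟨b1, h1⟩ := KD.reg (K := K) (fun i : Iio a => c3 1 i.1 (KD.nat 0)) (KD.small a)
  obtain ⟨b2, h2⟩ := KD.reg (K := K) (fun i : Iio a => c3 2 i.1 (KD.nat 0)) (KD.small a)
  obtain ⟨b3, h3⟩ := exists_gt' (pr0 : K)
  refine ⟨max (max b1 b2) (max b3 a), ?_, ?_, ?_⟩
  · exact le_trans (le_max_right b3 a) (le_max_right _ _)
  · exact lt_of_lt_of_le h3 (le_trans (le_max_left b3 a) (le_max_right _ _))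
  · intro i hi
    exact ⟨lt_of_lt_of_le (h1 ⟨i, hi⟩) (le_trans (le_max_left b1 b2) (le_max_left _ _)),
      lt_of_lt_of_le (h2 ⟨i, hi⟩) (le_trans (le_max_right b1 b2) (le_max_left _ _))⟩

theorem Sig.congr {X X' : (K → RO P) → (K → RO P) → RO P} (h : Sig X)
    (h' : ∀ R S p, p ∈ X R S ↔ p ∈ X' R S) : Sig X' := by
  obtain ⟨φ, h1, h2, h3⟩ := h
  exact ⟨φ, h1, h2, fun R S p => (h' R S p).symm.trans (h3 R S p)⟩

theorem Sig.swap {X : (K → RO P) → (K → RO P) → RO P} (h : Sig X) : Sig fun R S => X S R := by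
  obtain ⟨φ, h1, h2, h3⟩ := h
  refine ⟨fun R S Z => φ S R Z, ?_, ?_, ?_⟩
  · intro p R S Z R' S' Z' hR hS hZ hp
    exact h1 p S R Z S' R' Z' hS hR hZ hp
  · intro R S Z hZ p hp
    apply h2 S R Z hZ p
    intro a q hq
    obtain ⟨r, hr, R', S', Z', h4, h5, h6, h7, h8⟩ := hp a q hq
    exact ⟨r, hr, S', R', Z', h4, h6, h5, h7, h8⟩
  · intro R S p
    exact h3 S R p

private theorem AgAt.mono {p : P} {a b : K} {R S : K → RO P} (hab : a ≤ b) (h : AgAt p b R S) :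
    AgAt p a R S := fun i hi q hq => h i (lt_of_lt_of_le hi hab) q hq

theorem Sig.inf {X₁ X₂ : (K → RO P) → (K → RO P) → RO P} (h₁ : Sig X₁) (h₂ : Sig X₂) :
    Sig fun R S => X₁ R S ⊓ X₂ R S := by
  obtain ⟨φ₁, e1, c1, p1⟩ := h₁
  obtain ⟨φ₂, e2, c2, p2⟩ := h₂
  refine ⟨fun R S Z => φ₁ R S (lft Z) ⊓ φ₂ R S (rgt Z), ?_, ?_, ?_⟩
  · intro p R S Z R' S' Z' hR hS hZ hp
    refine ⟨e1 p R S _ R' S' _ hR hS ?_ hp.1, e2 p R S _ R' S' _ hR hS ?_ hp.2⟩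
    · intro i j q hq
      exact hZ _ j q hq
    · intro i j q hq
      exact hZ _ j q hq
  · intro R S Z hZ p hp
    constructor
    · apply c1 R S (lft Z) hZ.lft p
      intro a q hq
      obtain ⟨b, hab, _, hb⟩ := exists_bound a
      obtain ⟨r, hr, R', S', Z', h4, h5, h6, h7, h8⟩ := hp b q hq
      refine ⟨r, hr, R', S', lft Z', h4.lft, h5.mono hab, h6.mono hab, ?_, h8.1⟩
      intro i hi j q' hq'
      exact h7 _ (hb i hi).1 j q' hq'
    · apply c2 R S (rgt Z) hZ.rgt p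
      intro a q hq
      obtain ⟨b, hab, _, hb⟩ := exists_bound a
      obtain ⟨r, hr, R', S', Z', h4, h5, h6, h7, h8⟩ := hp b q hq
      refine ⟨r, hr, R', S', rgt Z', h4.rgt, h5.mono hab, h6.mono hab, ?_, h8.2⟩
      intro i hi j q' hq'
      exact h7 _ (hb i hi).2 j q' hq'
  · intro R S p
    constructor
    · intro hp q hq
      obtain ⟨r, hr, Z₁, hZ₁, h4⟩ := (p1 R S p).1 hp.1 q hq
      obtain ⟨r', hr', Z₂, hZ₂, h5⟩ := (p2 R S p).1 hp.2 r (hr.trans hq)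
      obtain ⟨Z, hZ, hl, hg, _⟩ := exists_join Z₁ Z₂ hZ₁ hZ₂ (KD.nat 0)
      refine ⟨r', hr'.trans hr, Z, hZ, ?_⟩
      show r' ∈ φ₁ R S (lft Z) ⊓ φ₂ R S (rgt Z)
      rw [hl, hg]
      exact ⟨h4.down hr', h5⟩
    · intro hp
      constructor
      · apply (p1 R S p).2
        intro q hq
        obtain ⟨r, hr, Z, hZ, h4⟩ := hp q hq
        exact ⟨r, hr, lft Z, hZ.lft, h4.1⟩
      · apply (p2 R S p).2
        intro q hq
        obtain ⟨r, hr, Z, hZ, h4⟩ := hp q hq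
        exact ⟨r, hr, rgt Z, hZ.rgt, h4.2⟩

end H79.IZ
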