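import Pool.Agent.H79.IZ.Local
import Pool.Agent.H79.IZ.Tot
import Pool.Agent.H79.IZ.ModEq
import Pool.Agent.H79.IZ.GSeq

/-!
# Being a model is `Σ¹₁`

`SG R` is the structure coded by `R` via the ground model coding `c3`.

PROOF. `φ R S Z = RefM (SG R) ⊓ (⨅ l i k a, Z (c3 l i (nat k)) a ⇨ lvl (SG R) l i a) ⊓
(⨅ l i k k' a b, [k ≠ k'] Z (c3 l i (nat k)) a ⊓ Z (c3 l i (nat k')) b ⇨ (SG R l a b)ᶜ)`.
`Ext3` and `ClosedF` by the calculus of `Local` (all members of the meets are locally determined).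
Projection: if `r ∈ φ R S Z` then `G l i k a = Z (c3 l i (nat k)) a` is a `GSeqAt r`, so
`InfAt` by `inf_of_gseq`; conversely `gseq_of_inf` gives `G` and `Z = mkTot W`,
`W y a = ⨆ t : ℕ × K × ℕ, ofProp (c3 t.1 t.2.1 (nat t.2.2) = y) ⊓ G t.1 t.2.1 t.2.2 a` (`mkTot_iff`).
-/

universe u

namespace H79.IZ
open H85.Forcing BN RO Cardinal Set

variable {P : Type u} [Preorder P] {K : Type u} [LinearOrder K] [WellFoundedLT K] [KD K]

/-- the structure coded by `R ∈ 2^κ` via the ground model coding `c3` -/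
noncomputable def SG (R : K → RO P) (n : ℕ) (i j : K) : RO P := R (c3 n i j)

/-- the closed set whose projection is the set of models -/
noncomputable def phiM (R _S : K → RO P) (Z : K → K → RO P) : RO P :=
  RefM (SG R) ⊓ ((⨅ l, ⨅ i, ⨅ k : ℕ, ⨅ a, Z (c3 l i (KD.nat k)) a ⇨ lvl (SG R) l i a) ⊓
    ⨅ l, ⨅ i, ⨅ k : ℕ, ⨅ k' : ℕ, ⨅ (_ : k ≠ k'), ⨅ a, ⨅ b,
      Z (c3 l i (KD.nat k)) a ⊓ Z (c3 l i (KD.nat k')) b ⇨ (SG R l a b)ᶜ)

theorem ext3_lvl (l : ℕ) (i a : K) :
    Ext3 fun (R _ : K → RO P) (_ : K → K → RO P) => lvl (SG R) l i a := by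
  cases l with
  | zero => exact Ext3.const ⊤
  | succ n => exact Ext3.base_R (c3 n i a)

theorem loc_lvl (l : ℕ) (i a : K) :
    Loc fun (R _ : K → RO P) (_ : K → K → RO P) => lvl (SG R) l i a := by
  cases l with
  | zero => exact Loc.const ⊤
  | succ n => exact Loc.base_R (c3 n i a)

theorem ext3_phiM : Ext3 (phiM : T3 P K) := by
  have hR : ∀ n i j, Ext3 fun (R _ : K → RO P) (_ : K → K → RO P) => SG R n i j :=
    fun n i j => Ext3.base_R (c3 n i j)
  refine Ext3.inf (Ext3.inf ?_ (Ext3.inf ?_ (Ext3.inf ?_ ?_))) (Ext3.inf ?_ ?_)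
  · exact Ext3.iInf fun n => Ext3.iInf fun i => hR n i i
  · exact Ext3.iInf fun n => Ext3.iInf fun i => Ext3.iInf fun j => (hR n i j).himp (hR n j i)
  · exact Ext3.iInf fun n => Ext3.iInf fun i => Ext3.iInf fun j => Ext3.iInf fun k =>
      ((hR n i j).inf (hR n j k)).himp (hR n i k)
  · exact Ext3.iInf fun n => Ext3.iInf fun i => Ext3.iInf fun j =>
      (hR (n + 1) i j).himp (hR n i j)
  · exact Ext3.iInf fun l => Ext3.iInf fun i => Ext3.iInf fun k => Ext3.iInf fun a =>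
      (Ext3.base_Z _ _).himp (ext3_lvl l i a)
  · exact Ext3.iInf fun l => Ext3.iInf fun i => Ext3.iInf fun k => Ext3.iInf fun k' =>
      Ext3.iInf fun _ => Ext3.iInf fun a => Ext3.iInf fun b =>
      ((Ext3.base_Z _ _).inf (Ext3.base_Z _ _)).himp (hR l a b).compl

theorem closed_phiM : ClosedF (phiM : T3 P K) := by
  have hR : ∀ n i j, Loc fun (R _ : K → RO P) (_ : K → K → RO P) => SG R n i j :=
    fun n i j => Loc.base_R (c3 n i j)
  refine ClosedF.inf (ClosedF.inf ?_ (ClosedF.inf ?_ (ClosedF.inf ?_ ?_))) (ClosedF.inf ?_ ?_)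
  · exact ClosedF.iInf fun n => ClosedF.iInf fun i => closed_of_loc (hR n i i)
  · exact ClosedF.iInf fun n => ClosedF.iInf fun i => ClosedF.iInf fun j =>
      closed_of_loc ((hR n i j).himp (hR n j i))
  · exact ClosedF.iInf fun n => ClosedF.iInf fun i => ClosedF.iInf fun j => ClosedF.iInf fun k =>
      closed_of_loc (((hR n i j).inf (hR n j k)).himp (hR n i k))
  · exact ClosedF.iInf fun n => ClosedF.iInf fun i => ClosedF.iInf fun j =>
      closed_of_loc ((hR (n + 1) i j).himp (hR n i j))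
  · exact ClosedF.iInf fun l => ClosedF.iInf fun i => ClosedF.iInf fun k => ClosedF.iInf fun a =>
      closed_of_loc ((Loc.base_Z _ _).himp (loc_lvl l i a))
  · exact ClosedF.iInf fun l => ClosedF.iInf fun i => ClosedF.iInf fun k =>
      ClosedF.iInf fun k' => ClosedF.iInf fun _ => ClosedF.iInf fun a => ClosedF.iInf fun b =>
      closed_of_loc (((Loc.base_Z _ _).inf (Loc.base_Z _ _)).himp (hR l a b).compl)

theorem proj_phiM : Proj (phiM : T3 P K) fun R _ => ModF (SG R) := by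
  have : Nonempty K := ⟨KD.nat 0⟩
  intro R S p
  constructor
  · intro hp q hq
    obtain ⟨h1, h2⟩ := mem_ModF.1 hp
    have h1q := h1.down hq
    obtain ⟨G, hG⟩ := gseq_of_inf h1q (h2.down hq)
    let W : K → K → RO P := fun y a => ⨆ t : ℕ × K × ℕ,
      ofProp (c3 t.1 t.2.1 (KD.nat t.2.2) = y) ⊓ G t.1 t.2.1 t.2.2 a
    have hW : ∀ {l : ℕ} {i : K} {k : ℕ} {a : K} {r : P},
        r ∈ W (c3 l i (KD.nat k)) a ↔ r ∈ G l i k a := by
      intro l i k a r
      constructor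
      · intro h
        apply forces_of_dense
        intro q' hq'
        obtain ⟨r', hr', t, ht1, ht2⟩ := forces_iSup.1 h q' hq'
        have h3 : c3 t.1 t.2.1 (KD.nat t.2.2) = c3 l i (KD.nat k) := ht1
        obtain ⟨e1, e2, e3⟩ := c3_inj.1 h3
        have e4 := nat_inj.1 e3
        have h4 : r' ∈ G t.1 t.2.1 t.2.2 a := ht2
        rw [e1, e2, e4] at h4
        exact ⟨r', hr', h4⟩
      · intro h
        exact forces_iSup_of (l, i, k) ⟨rfl, h⟩
    have hsv : ∀ {l : ℕ} {i : K} {k : ℕ} {r : P}, r ≤ q → ∀ j j', ∀ r' ≤ r,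
        r' ∈ W (c3 l i (KD.nat k)) j → r' ∈ W (c3 l i (KD.nat k)) j' → j = j' := by
      intro l i k r hr j j' r' hr' h h'
      exact hG.uniq l i k j j' r' (hr'.trans hr) (hW.1 h) (hW.1 h')
    have htot : ∀ {l : ℕ} {i : K} {k : ℕ} {r : P}, r ≤ q → ∀ q' ≤ r, ∃ r' ≤ q', ∃ j,
        r' ∈ W (c3 l i (KD.nat k)) j := by
      intro l i k r hr q' hq'
      obtain ⟨r', hr', a, ha⟩ := hG.total l i k q' (hq'.trans hr)
      exact ⟨r', hr', a, hW.2 ha⟩
    have hZ : ∀ {l : ℕ} {i : K} {k : ℕ} {a : K} {r : P}, r ≤ q →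
        (r ∈ mkTot W (c3 l i (KD.nat k)) a ↔ r ∈ G l i k a) := by
      intro l i k a r hr
      rw [mkTot_iff (hsv hr) (htot hr), hW]
    refine ⟨q, le_rfl, mkTot W, totF_mkTot W, mem_RefM.2 h1q, ?_, ?_⟩
    · refine forces_iInf.2 fun l => forces_iInf.2 fun i => forces_iInf.2 fun k =>
        forces_iInf.2 fun a => forces_himp.2 fun r hr h => ?_
      exact hG.mem l i k a r hr ((hZ hr).1 h)
    · refine forces_iInf.2 fun l => forces_iInf.2 fun i => forces_iInf.2 fun k =>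
        forces_iInf.2 fun k' => forces_iInf.2 fun hkk => forces_iInf.2 fun a =>
        forces_iInf.2 fun b => forces_himp.2 fun r hr h => ?_
      exact hG.ne l i k k' a b hkk r hr ((hZ hr).1 h.1) ((hZ hr).1 h.2)
  · intro h
    apply forces_of_dense
    intro q hq
    obtain ⟨r, hr, Z, hZ, hφ⟩ := h q hq
    refine ⟨r, hr, ?_⟩
    obtain ⟨hRef, hm, hn⟩ := hφ
    have h1 : RefAt r (SG R) := mem_RefM.1 hRef
    refine mem_ModF.2 ⟨h1, inf_of_gseq (G := fun l i k a => Z (c3 l i (KD.nat k)) a) h1 ?_⟩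
    refine ⟨fun l i k q' _ => hZ.total _ q', fun l i k a b q' _ h1 h2 => hZ.uniq _ a b q' h1 h2,
      fun l i k a q' hq' h => ?_, fun l i k k' a b hkk q' hq' h1 h2 => ?_⟩
    · exact forces_himp.1 (forces_iInf.1 (forces_iInf.1 (forces_iInf.1 (forces_iInf.1 hm l) i) k)
        a) q' hq' h
    · exact forces_himp.1 (forces_iInf.1 (forces_iInf.1 (forces_iInf.1 (forces_iInf.1
        (forces_iInf.1 (forces_iInf.1 (forces_iInf.1 hn l) i) k) k') hkk) a) b) q' hq' ⟨h1, h2⟩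

theorem sig_mod : Sig fun (R _ : K → RO P) => ModF (SG R) :=
  ⟨phiM, ext3_phiM, closed_phiM, proj_phiM⟩

end H79.IZ
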