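import Pool.Agent.H79.IZ.Comp
import Pool.Agent.H79.IZ.Quant

/-!
# From `Sig` to `Sigma11` in the model

PROOF. `Sig X` gives `φ`; `C = cl U (compN φ)`. By `exists_real`, `exists_fun`, `tri_iff`, `triB_compN`:
`Tri C (cl (realN R)) (cl (realN S)) (cl (relN Z))` iff `U.T (φ R S Z)`.

`tri_closed`: let `TotF Z` and
`b = ⨅ a, mem a kap ⇨ ⨆ η', ⨆ ξ', ⨆ ζ', isFnB η' kap 2 ⊓ isFnB ξ' kap 2 ⊓ isFnB ζ' kap kap ⊓
 agreeB a (realN R) η' ⊓ agreeB a (realN S) ξ' ⊓ agreeB a (relN Z) ζ' ⊓ triB (compN φ) η' ξ' ζ'`.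
The hypothesis of `IsClosed3` says `U.T b` (`T_iInf'`, `T_iSup'` with all instances `ExtC`, `agree_iff`,
`isFn_iff`, `tri_iff`), and `b ≤ φ R S Z`: `p ∈ b`, `a : K`, `q ≤ p`: there are `r ≤ q` and names `η'`,
`ξ'`, `ζ'` with `r` in all the values at `a = ordN a`; `r ∈ beq η' (realN R')` with
`R' i = rel η' (ordN i) 1` (`le_realN`), the same for `ξ'`, `r ∈ beq ζ' (relN Z')`, `TotF Z'`
(`exists_relN`); `agreeB` gives `AgAt r a R R'` etc. (use `rel_realN_one`, `rel_relN`, extensionality of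
`rel`), and `triB` gives `r ∈ φ R' S' Z'`. Now `ClosedF φ`.

Projection: `X η ξ` iff `U.T (X R S)`; `Proj` says `X R S = ⨆ ζ, isFnB ζ kap kap ⊓ triB (compN φ) (realN R)
(realN S) ζ` (use `exists_relN` for `≥`, `isFnB_relN` for `≤`), then `T_iSup'`.
-/

universe u

namespace H79.IZ
open H85.Forcing BN RO Cardinal Set

variable {P : Type u} [Preorder P] {K : Type u} [LinearOrder K] [WellFoundedLT K] [KD K]
variable (U : Ult (RO P))

/-- the smallest value forced by `p` -/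
def princ (p : P) : RO P := regl (fun s => s = p)

omit [LinearOrder K] [WellFoundedLT K] [KD K] in
theorem princ_le {p : P} {a : RO P} : princ p ≤ a ↔ p ∈ a := by
  constructor
  · intro h
    exact h p fun q hq => ⟨q, le_rfl, p, rfl, hq⟩
  · intro h q hq
    refine forces_of_dense fun q' hq' => ?_
    obtain ⟨r, hr, s, rfl, hrs⟩ := hq q' hq'
    exact ⟨r, hr, h.down hrs⟩

theorem forces_triB {C η η' ξ ξ' ζ ζ' : BN (RO P)} {p : P} (h1 : p ∈ beq η η') (h2 : p ∈ beq ξ ξ')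
    (h3 : p ∈ beq ζ ζ') (h : p ∈ triB C η ξ ζ) : p ∈ triB C η' ξ' ζ' :=
  princ_le.1 (mem_congr_left (cong_opair (princ_le.2 h1) (cong_opair (princ_le.2 h2)
    (princ_le.2 h3))) (princ_le.2 h))

theorem forces_rel_congr {f g x y : BN (RO P)} {p : P} (h1 : p ∈ beq f g) :
    p ∈ rel f x y ↔ p ∈ rel g x y :=
  ⟨fun h => princ_le.1 (mem_congr_right (princ_le.2 h1) (princ_le.2 h)),
    fun h => princ_le.1 (mem_congr_right (bsymm (princ_le.2 h1)) (princ_le.2 h))⟩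

omit [KD K] in
theorem forces_agreeB {f g : BN (RO P)} {p : P} {a : K} (h : p ∈ agreeB (ordN a) f g) {i : K}
    (hi : i < a) (v : BN (RO P)) {q : P} (hq : q ≤ p) :
    q ∈ rel f (ordN i) v ↔ q ∈ rel g (ordN i) v := by
  unfold agreeB at h
  have h1 := forces_himp.1 (forces_iInf.1 h (ordN i)) q hq (forces_mem_ordN.2 hi)
  have h2 := forces_inf.1 (forces_iInf.1 h1 v)
  exact ⟨forces_himp.1 h2.1 q le_rfl, forces_himp.1 h2.2 q le_rfl⟩

instance extC_triB_eta (a b c : BN (RO P)) : ExtC (triB a b c) :=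
  ⟨(extC_triB (C := fun _ => a) (η := fun _ => b) (ξ := fun _ => c) (ζ := fun t => t)).h⟩

instance extC_agreeB_eta (a b : BN (RO P)) : ExtC (agreeB a b) :=
  ⟨(extC_agreeB (a := fun _ => a) (f := fun _ => b) (g := fun t => t)).h⟩

theorem tri_closed {φ : (K → RO P) → (K → RO P) → (K → K → RO P) → RO P} (h1 : Ext3 φ)
    (h2 : ClosedF φ) :
    IsClosed3 (ME U) (cl U (ordN (KD.nat 2 : K))) (cl U (kapN K)) (cl U (compN φ)) := by
  intro η hη ξ hξ ζ hζ H
  obtain ⟨R, rfl⟩ := exists_real U η hη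
  obtain ⟨S, rfl⟩ := exists_real U ξ hξ
  obtain ⟨Z, hZ, rfl⟩ := exists_fun U ζ hζ
  rw [tri_iff, triB_compN h1]
  have hb : U.T (⨅ a, mem a (kapN K) ⇨ ⨆ η', ⨆ ξ', ⨆ ζ',
      isFnB η' (kapN K) (ordN (KD.nat 2 : K)) ⊓ (isFnB ξ' (kapN K) (ordN (KD.nat 2 : K)) ⊓
      (isFnB ζ' (kapN K) (kapN K) ⊓ (agreeB a (realN R) η' ⊓ (agreeB a (realN S) ξ' ⊓
      (agreeB a (relN Z) ζ' ⊓ triB (compN φ) η' ξ' ζ')))))) := by
    simp only [cl_forall U, cl_exists U, ME_cl, isFn_iff, agree_iff, tri_iff] at H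
    simp only [T_iInf', T_iSup', U.inf, U.himp]
    exact H
  refine U.mono (le_iff_forces.2 fun p hp => ?_) hb
  refine h2 R S Z hZ p fun a q hq => ?_
  have h3 := forces_himp.1 (forces_iInf.1 hp (ordN a)) q hq (forces_mem_kapN.2 trivial)
  obtain ⟨r1, hr1, η', h4⟩ := forces_iSup.1 h3 q le_rfl
  obtain ⟨r2, hr2, ξ', h5⟩ := forces_iSup.1 h4 r1 le_rfl
  obtain ⟨r3, hr3, ζ', h6⟩ := forces_iSup.1 h5 r2 le_rfl
  simp only [forces_inf] at h6
  obtain ⟨e1, e2, e3, a1, a2, a3, ht⟩ := h6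
  have : Nonempty K := ⟨KD.nat 0⟩
  obtain ⟨Z', hZ', hle⟩ := exists_relN (K := K) ζ'
  have b1 := (le_iff_forces.1 (le_realN (K := K) η')) _ e1
  have b2 := (le_iff_forces.1 (le_realN (K := K) ξ')) _ e2
  have b3 := (le_iff_forces.1 hle) _ e3
  refine ⟨r3, hr3.trans (hr2.trans hr1), fun i => rel η' (ordN i) (ordN (KD.nat 1 : K)),
    fun i => rel ξ' (ordN i) (ordN (KD.nat 1 : K)), Z', hZ', ?_, ?_, ?_, ?_⟩
  · intro i hi q' hq'
    have h7 := forces_agreeB a1 hi (ordN (KD.nat 1 : K)) hq'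
    rwa [rel_realN_one] at h7
  · intro i hi q' hq'
    have h7 := forces_agreeB a2 hi (ordN (KD.nat 1 : K)) hq'
    rwa [rel_realN_one] at h7
  · intro i hi j q' hq'
    have h7 := forces_agreeB a3 hi (ordN j) hq'
    rw [rel_relN, forces_rel_congr (Forces.down b3 hq'), rel_relN] at h7
    exact h7
  · rw [← triB_compN h1]
    exact forces_triB b1 b2 b3 ht

theorem tri_proj {φ : (K → RO P) → (K → RO P) → (K → K → RO P) → RO P} (h1 : Ext3 φ)
    {X : (K → RO P) → (K → RO P) → RO P} (h3 : Proj φ X) (R S : K → RO P) :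
    U.T (X R S) ↔ ∃ ζ, IsFn (ME U) ζ (cl U (kapN K)) (cl U (kapN K)) ∧
      Tri (ME U) (cl U (compN φ)) (cl U (realN R)) (cl U (realN S)) ζ := by
  have hX : X R S = ⨆ ζ, isFnB ζ (kapN K) (kapN K) ⊓ triB (compN φ) (realN R) (realN S) ζ := by
    refine ext' fun p => ?_
    refine Iff.trans (h3 R S p) (Iff.trans ?_ forces_iSup.symm)
    constructor
    · intro H q hq
      obtain ⟨r, hr, Z, hZ, hφ⟩ := H q hq
      refine ⟨r, hr, relN Z, forces_inf.2 ⟨?_, ?_⟩⟩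
      · rw [isFnB_relN Z hZ]
        exact forces_top
      · rw [triB_compN h1]
        exact hφ
    · intro H q hq
      obtain ⟨r, hr, ζ, hζ⟩ := H q hq
      obtain ⟨e1, e2⟩ := forces_inf.1 hζ
      have : Nonempty K := ⟨KD.nat 0⟩
      obtain ⟨Z, hZ, hle⟩ := exists_relN (K := K) ζ
      refine ⟨r, hr, Z, hZ, ?_⟩
      rw [← triB_compN h1]
      exact forces_triB (by rw [beq_refl]; exact forces_top) (by rw [beq_refl]; exact forces_top)
        ((le_iff_forces.1 hle) _ e1) e2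
  rw [hX]
  simp only [T_iSup', U.inf, cl_exists U, isFn_iff, tri_iff]

theorem sigma11_of_sig {X : (K → RO P) → (K → RO P) → RO P} (hX : Sig X)
    (XM : MQ U → MQ U → Prop)
    (h : ∀ R S : K → RO P, XM (cl U (realN R)) (cl U (realN S)) ↔ U.T (X R S)) :
    Sigma11 (ME U) (cl U (ordN (KD.nat 2 : K))) (cl U (kapN K)) XM := by
  obtain ⟨φ, h1, h2, h3⟩ := hX
  refine ⟨cl U (compN φ), tri_closed U h1 h2, ?_⟩
  intro η hη ξ hξ
  obtain ⟨R, rfl⟩ := exists_real U η hη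
  obtain ⟨S, rfl⟩ := exists_real U ξ hξ
  rw [h R S]
  exact tri_proj U h1 h3 R S

end H79.IZ
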